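import Mathlib

set_option autoImplicit false

namespace Pool.Agent.H.MP_eaf82e_pr

open Finset

section weights
variable {ι : Type} [Fintype ι] [DecidableEq ι]

/-- product Bernoulli weight -/
noncomputable def wt (p : ι → ℝ) (ω : ι → Bool) : ℝ := ∏ e, if ω e then p e else 1 - p e

omit [DecidableEq ι] in
lemma wt_nonneg {p : ι → ℝ} (h0 : ∀ e, 0 ≤ p e) (h1 : ∀ e, p e ≤ 1) (ω : ι → Bool) :
    0 ≤ wt p ω :=
  Finset.prod_nonneg fun e _ => by
    split_ifs
    · exact h0 e
    · linarith [h1 e]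

lemma sum_wt_false (p : ι → ℝ) (A : Finset ι) :
    ∑ ω : ι → Bool, wt p ω * (if ∀ e ∈ A, ω e = false then 1 else 0) = ∏ e ∈ A, (1 - p e) := by
  have h := Finset.prod_univ_sum (fun _ : ι => (univ : Finset Bool))
    (fun e b => (if b then p e else 1 - p e) * (if e ∈ A then (if b = false then 1 else 0) else 1))
  rw [Fintype.piFinset_univ] at h
  have h2 : ∀ ω : ι → Bool, wt p ω * (if ∀ e ∈ A, ω e = false then 1 else 0) =
      ∏ e, ((if ω e then p e else 1 - p e) *
        (if e ∈ A then (if ω e = false then 1 else 0) else 1)) := by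
    intro ω
    rw [Finset.prod_mul_distrib, wt, Finset.prod_ite_mem, Finset.univ_inter, Finset.prod_boole]
    congr
  simp only [h2]
  rw [← h]
  have h3 : ∀ e : ι, ∑ b : Bool, (if b then p e else 1 - p e) *
      (if e ∈ A then (if b = false then 1 else 0) else 1) = if e ∈ A then 1 - p e else 1 := by
    intro e
    by_cases he : e ∈ A <;> simp [he]
  simp only [h3]
  rw [Finset.prod_ite_mem, Finset.univ_inter]

lemma sum_wt (p : ι → ℝ) : ∑ ω : ι → Bool, wt p ω = 1 := by
  simpa using sum_wt_false p ∅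

end weights

lemma two_point {p a b l : ℝ} (h0 : 0 ≤ p) (h1 : p ≤ 1) (hab : |a - b| ≤ 1) (hl0 : 0 ≤ l)
    (hl1 : l ≤ 1) :
    p * Real.exp (-(l * a)) + (1 - p) * Real.exp (-(l * b)) ≤
      Real.exp (l ^ 2 - l * (p * a + (1 - p) * b)) := by
  set m := p * a + (1 - p) * b with hm
  have hb : ∀ c : ℝ, |c - m| ≤ 1 →
      Real.exp (-(l * c)) ≤ Real.exp (-(l * m)) * (1 - l * (c - m) + l ^ 2) := by
    intro c hc
    have e1 : Real.exp (-(l * c)) = Real.exp (-(l * m)) * Real.exp (-(l * (c - m))) := by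
      rw [← Real.exp_add]; congr 1; ring
    rw [e1]
    refine mul_le_mul_of_nonneg_left ?_ (Real.exp_pos _).le
    have hx : |(-(l * (c - m)))| ≤ 1 := by
      rw [abs_neg, abs_mul, abs_of_nonneg hl0]
      exact mul_le_one₀ hl1 (abs_nonneg _) hc
    have := Real.abs_exp_sub_one_sub_id_le hx
    have h2 := (abs_le.mp this).2
    have h3 : (c - m) ^ 2 ≤ 1 := by
      rw [← sq_abs]; exact pow_le_one₀ (abs_nonneg _) hc
    have h4 : (-(l * (c - m))) ^ 2 ≤ l ^ 2 := by
      have : (-(l * (c - m))) ^ 2 = l ^ 2 * (c - m) ^ 2 := by ring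
      rw [this]
      exact mul_le_of_le_one_right (sq_nonneg _) h3
    linarith
  have ha' : |a - m| ≤ 1 := by
    have : a - m = (1 - p) * (a - b) := by rw [hm]; ring
    rw [this, abs_mul, abs_of_nonneg (by linarith)]
    exact mul_le_one₀ (by linarith) (abs_nonneg _) hab
  have hb' : |b - m| ≤ 1 := by
    have : b - m = -(p * (a - b)) := by rw [hm]; ring
    rw [this, abs_neg, abs_mul, abs_of_nonneg h0]
    exact mul_le_one₀ h1 (abs_nonneg _) hab
  have e2 : p * (Real.exp (-(l * m)) * (1 - l * (a - m) + l ^ 2)) +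
      (1 - p) * (Real.exp (-(l * m)) * (1 - l * (b - m) + l ^ 2)) =
      Real.exp (-(l * m)) * (1 + l ^ 2) := by
    have : p * (a - m) + (1 - p) * (b - m) = 0 := by rw [hm]; ring
    linear_combination (-(l * Real.exp (-(l * m)))) * this
  calc _ ≤ p * (Real.exp (-(l * m)) * (1 - l * (a - m) + l ^ 2)) +
      (1 - p) * (Real.exp (-(l * m)) * (1 - l * (b - m) + l ^ 2)) :=
        add_le_add (mul_le_mul_of_nonneg_left (hb a ha') h0)
          (mul_le_mul_of_nonneg_left (hb b hb') (by linarith))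
    _ = Real.exp (-(l * m)) * (1 + l ^ 2) := e2
    _ ≤ Real.exp (-(l * m)) * Real.exp (l ^ 2) :=
        mul_le_mul_of_nonneg_left (by linarith [Real.add_one_le_exp (l ^ 2)]) (Real.exp_pos _).le
    _ = _ := by rw [← Real.exp_add]; congr 1; ring

lemma sum_cons {N : ℕ} (p : Fin (N + 1) → ℝ) (F : (Fin (N + 1) → Bool) → ℝ) :
    ∑ ω, wt p ω * F ω =
      p 0 * ∑ ω : Fin N → Bool, wt (fun i => p i.succ) ω * F (Fin.cons true ω) +
      (1 - p 0) * ∑ ω : Fin N → Bool, wt (fun i => p i.succ) ω * F (Fin.cons false ω) := by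
  rw [← (Fin.consEquiv (fun _ : Fin (N + 1) => Bool)).sum_comp, Fintype.sum_prod_type,
    Fintype.sum_bool, Finset.mul_sum, Finset.mul_sum]
  congr 1 <;> refine Finset.sum_congr rfl fun ω _ => ?_ <;>
    simp [wt, Fin.consEquiv, Fin.prod_univ_succ, mul_assoc]

lemma mcd_fin {l : ℝ} (hl0 : 0 ≤ l) (hl1 : l ≤ 1) : ∀ (N : ℕ) (p : Fin N → ℝ),
    (∀ e, 0 ≤ p e) → (∀ e, p e ≤ 1) → ∀ Y : (Fin N → Bool) → ℝ,
    (∀ ω ω' e, (∀ i, i ≠ e → ω i = ω' i) → Y ω ≤ Y ω' + 1) →
    ∑ ω, wt p ω * Real.exp (-(l * Y ω)) ≤ Real.exp (l ^ 2 * N - l * ∑ ω, wt p ω * Y ω) := by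
  intro N
  induction N with
  | zero =>
    intro p _ _ Y _
    simp [wt]
  | succ N ih =>
    intro p h0 h1 Y hY
    rw [sum_cons, sum_cons p Y]
    set q : Fin N → ℝ := fun i => p i.succ with hq
    have hq0 : ∀ e, 0 ≤ q e := fun e => h0 _
    have hq1 : ∀ e, q e ≤ 1 := fun e => h1 _
    have hc : ∀ b : Bool, ∀ ω ω' : Fin N → Bool, ∀ e, (∀ i, i ≠ e → ω i = ω' i) →
        Y (Fin.cons b ω) ≤ Y (Fin.cons b ω') + 1 := by
      intro b ω ω' e h
      refine hY _ _ e.succ fun i hi => ?_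
      refine Fin.cases ?_ (fun j hj => ?_) i hi
      · intro _; rfl
      · simp only [Fin.cons_succ]
        exact h j fun hh => hj (by rw [hh])
    have i1 := ih q hq0 hq1 (fun ω => Y (Fin.cons true ω)) (hc true)
    have i0 := ih q hq0 hq1 (fun ω => Y (Fin.cons false ω)) (hc false)
    set a := ∑ ω, wt q ω * Y (Fin.cons true ω) with ha
    set b := ∑ ω, wt q ω * Y (Fin.cons false ω) with hb
    have hd : ∀ b1 b2 : Bool, ∑ ω, wt q ω * Y (Fin.cons b1 ω) ≤
        ∑ ω, wt q ω * Y (Fin.cons b2 ω) + 1 := by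
      intro b1 b2
      calc _ ≤ ∑ ω, wt q ω * (Y (Fin.cons b2 ω) + 1) :=
            Finset.sum_le_sum fun ω _ => mul_le_mul_of_nonneg_left
              (hY _ _ 0 fun i hi => by
                refine Fin.cases ?_ (fun j _ => ?_) i hi
                · intro h; exact absurd rfl h
                · simp only [Fin.cons_succ]) (wt_nonneg hq0 hq1 ω)
        _ = _ := by simp only [mul_add, mul_one, Finset.sum_add_distrib, sum_wt]
    have hab : |a - b| ≤ 1 := abs_le.mpr ⟨by linarith [hd false true], by linarith [hd true false]⟩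
    have tp := two_point (h0 0) (h1 0) hab hl0 hl1
    have e1 : ∀ c : ℝ, Real.exp (l ^ 2 * N - l * c) =
        Real.exp (l ^ 2 * N) * Real.exp (-(l * c)) := by
      intro c; rw [← Real.exp_add]; congr 1
    calc _ ≤ p 0 * Real.exp (l ^ 2 * N - l * a) + (1 - p 0) * Real.exp (l ^ 2 * N - l * b) :=
          add_le_add (mul_le_mul_of_nonneg_left i1 (h0 0))
            (mul_le_mul_of_nonneg_left i0 (by linarith [h1 0]))
      _ = Real.exp (l ^ 2 * N) *
            (p 0 * Real.exp (-(l * a)) + (1 - p 0) * Real.exp (-(l * b))) := by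
          rw [e1, e1]; ring
      _ ≤ Real.exp (l ^ 2 * N) * Real.exp (l ^ 2 - l * (p 0 * a + (1 - p 0) * b)) :=
          mul_le_mul_of_nonneg_left tp (Real.exp_pos _).le
      _ = _ := by rw [← Real.exp_add]; congr 1; push_cast; ring

lemma mcd {ι : Type} [Fintype ι] [DecidableEq ι] {l : ℝ} (hl0 : 0 ≤ l) (hl1 : l ≤ 1)
    (p : ι → ℝ) (h0 : ∀ e, 0 ≤ p e) (h1 : ∀ e, p e ≤ 1) (Y : (ι → Bool) → ℝ)
    (hY : ∀ ω ω' e, (∀ i, i ≠ e → ω i = ω' i) → Y ω ≤ Y ω' + 1) :
    ∑ ω, wt p ω * Real.exp (-(l * Y ω)) ≤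
      Real.exp (l ^ 2 * Fintype.card ι - l * ∑ ω, wt p ω * Y ω) := by
  let σ := Fintype.equivFin ι
  let τ : (Fin (Fintype.card ι) → Bool) ≃ (ι → Bool) := Equiv.arrowCongr σ.symm (Equiv.refl _)
  have hτ : ∀ ω i, τ ω i = ω (σ i) := fun _ _ => rfl
  have hw : ∀ ω, wt p (τ ω) = wt (fun j => p (σ.symm j)) ω := by
    intro ω
    unfold wt
    rw [← σ.symm.prod_comp]
    simp [hτ]
  have := mcd_fin hl0 hl1 _ (fun j => p (σ.symm j)) (fun _ => h0 _) (fun _ => h1 _)
    (fun ω => Y (τ ω)) (fun ω ω' e h => hY _ _ (σ.symm e) fun i hi => by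
      rw [hτ, hτ]
      exact h _ fun hh => hi (by rw [← hh]; simp))
  rw [← τ.sum_comp, ← τ.sum_comp (fun ω => wt p ω * Y ω)]
  simpa only [hw] using this

lemma turan {τ : Type} [DecidableEq τ] (R : τ → τ → Prop) [DecidableRel R]
    (hs : ∀ u v, R u v → R v u) (a : τ → ℝ) (ha : ∀ u, 0 ≤ a u) (F : Finset τ) :
    (∀ u ∈ F, R u u) → ∃ J ⊆ F, (∀ u ∈ J, ∀ v ∈ J, u ≠ v → ¬ R u v) ∧
      2 * ∑ u ∈ F, a u - ∑ u ∈ F, a u * ∑ v ∈ F, (if R u v then a v else 0) ≤ J.card := by
  induction F using Finset.strongInduction with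
  | H F ih =>
    intro hr
    rcases F.eq_empty_or_nonempty with rfl | hne
    · exact ⟨∅, Subset.refl _, by simp, by simp⟩
    obtain ⟨v, hv, hmin⟩ := F.exists_min_image
      (fun u => ∑ w ∈ F, (if R u w then a w else 0)) hne
    set F' := F.filter (fun u => ¬ R v u) with hF'
    have hss : F' ⊂ F := by
      refine Finset.filter_ssubset.mpr ⟨v, hv, ?_⟩
      simpa using hr v hv
    obtain ⟨J, hJ, hJ2, hJ3⟩ := ih F' hss fun u hu => hr u (Finset.mem_filter.mp hu).1
    have hvJ : v ∉ J := fun h => (Finset.mem_filter.mp (hJ h)).2 (hr v hv)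
    refine ⟨insert v J, ?_, ?_, ?_⟩
    · exact Finset.insert_subset hv (hJ.trans (Finset.filter_subset _ _))
    · intro u hu w hw huw
      rcases Finset.mem_insert.mp hu with rfl | hu'
      · rcases Finset.mem_insert.mp hw with rfl | hw'
        · exact absurd rfl huw
        · exact (Finset.mem_filter.mp (hJ hw')).2
      · rcases Finset.mem_insert.mp hw with rfl | hw'
        · exact fun h => (Finset.mem_filter.mp (hJ hu')).2 (hs _ _ h)
        · exact hJ2 u hu' w hw' huw
    · rw [Finset.card_insert_of_notMem hvJ]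
      set d := ∑ w ∈ F, (if R v w then a w else 0) with hd
      have e1 : ∑ u ∈ F, a u = ∑ u ∈ F', a u + d := by
        rw [hd, ← Finset.sum_filter, hF', add_comm, Finset.sum_filter_add_sum_filter_not]
      have e2 : ∑ u ∈ F', a u * ∑ w ∈ F', (if R u w then a w else 0) + d * d ≤
          ∑ u ∈ F, a u * ∑ w ∈ F, (if R u w then a w else 0) := by
        rw [← Finset.sum_filter_add_sum_filter_not F (fun u => R v u), add_comm]
        refine add_le_add ?_ ?_
        · calc d * d = ∑ u ∈ F.filter (fun u => R v u), a u * d := by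
                rw [← Finset.sum_mul, Finset.sum_filter]
            _ ≤ _ := Finset.sum_le_sum fun u hu =>
                mul_le_mul_of_nonneg_left (hmin u (Finset.mem_filter.mp hu).1) (ha u)
        · refine Finset.sum_le_sum fun u _ => mul_le_mul_of_nonneg_left ?_ (ha u)
          refine Finset.sum_le_sum_of_subset_of_nonneg (Finset.filter_subset _ _) fun w _ _ => ?_
          split_ifs
          · exact ha w
          · exact le_rfl
      push_cast
      nlinarith [sq_nonneg (d - 1)]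

/-- a Janson type inequality -/
lemma janson {ι τ : Type} [Fintype ι] [DecidableEq ι] [DecidableEq τ]
    (p ℓ : ι → ℝ) (h0 : ∀ e, 0 ≤ p e) (hℓ : ∀ e, 1 - p e = Real.exp (-ℓ e))
    (F : Finset τ) (hF : F.Nonempty) (A : τ → Finset ι) (hA : ∀ T ∈ F, (A T).Nonempty)
    {q l : ℝ} (hq : 0 ≤ q) (hl0 : 0 ≤ l) (hl1 : l ≤ 1)
    (hD : q * ∑ T ∈ F, ∑ T' ∈ F, (if (A T ∩ A T').Nonempty then
      Real.exp (∑ e ∈ A T ∩ A T', ℓ e) else 0) ≤ (F.card : ℝ) ^ 2) :
    ∑ ω : ι → Bool, wt p ω * (if ∀ T ∈ F, ¬ ∀ e ∈ A T, ω e = false then 1 else 0) ≤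
      Real.exp (l ^ 2 * Fintype.card ι - l * q) := by
  classical
  have h1 : ∀ e, p e ≤ 1 := fun e => by linarith [hℓ e, Real.exp_pos (-ℓ e)]
  let P : (ι → Bool) → Finset (Finset τ) := fun ω => F.powerset.filter (fun J =>
    (∀ T ∈ J, ∀ e ∈ A T, ω e = false) ∧ ∀ u ∈ J, ∀ v ∈ J, u ≠ v → ¬ (A u ∩ A v).Nonempty)
  let Y : (ι → Bool) → ℕ := fun ω => (P ω).sup Finset.card
  have hYle : ∀ ω, ∀ J ∈ P ω, J.card ≤ Y ω := fun ω J hJ => Finset.le_sup (f := Finset.card) hJ
  have hlip : ∀ ω ω' e, (∀ i, i ≠ e → ω i = ω' i) → (Y ω : ℝ) ≤ Y ω' + 1 := by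
    intro ω ω' e h
    have : Y ω ≤ Y ω' + 1 := by
      refine Finset.sup_le fun J hJ => ?_
      obtain ⟨hJ1, hJ2, hJ3⟩ := Finset.mem_filter.mp hJ
      have hm : J.filter (fun T => e ∉ A T) ∈ P ω' := by
        refine Finset.mem_filter.mpr ⟨Finset.mem_powerset.mpr
          ((Finset.filter_subset _ _).trans (Finset.mem_powerset.mp hJ1)), ?_, ?_⟩
        · intro T hT i hi
          obtain ⟨hT1, hT2⟩ := Finset.mem_filter.mp hT
          rw [← h i (fun hh => hT2 (hh ▸ hi))]
          exact hJ2 T hT1 i hi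
        · intro u hu v hv
          exact hJ3 u (Finset.mem_filter.mp hu).1 v (Finset.mem_filter.mp hv).1
      have hc : (J.filter (fun T => e ∈ A T)).card ≤ 1 := by
        refine Finset.card_le_one.mpr fun u hu v hv => ?_
        by_contra huv
        exact hJ3 u (Finset.mem_filter.mp hu).1 v (Finset.mem_filter.mp hv).1 huv
          ⟨e, Finset.mem_inter.mpr ⟨(Finset.mem_filter.mp hu).2, (Finset.mem_filter.mp hv).2⟩⟩
      have := Finset.card_filter_add_card_filter_not (s := J) (fun T => e ∈ A T)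
      have := hYle _ _ hm
      omega
    exact_mod_cast this
  have hm := mcd hl0 hl1 p h0 h1 (fun ω => (Y ω : ℝ)) hlip
  have hcard : (0 : ℝ) < F.card := by exact_mod_cast hF.card_pos
  let a : τ → ℝ := fun T => q / F.card * Real.exp (∑ e ∈ A T, ℓ e)
  have ha : ∀ T, 0 ≤ a T := fun T => by positivity
  have hprob : ∀ B : Finset ι, ∑ ω : ι → Bool, wt p ω *
      (if ∀ e ∈ B, ω e = false then 1 else 0) = Real.exp (-∑ e ∈ B, ℓ e) := by
    intro B
    rw [sum_wt_false, ← Finset.sum_neg_distrib, Real.exp_sum]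
    exact Finset.prod_congr rfl fun e _ => hℓ e
  have hlow : ∀ ω : ι → Bool,
      2 * ∑ T ∈ F, a T * (if ∀ e ∈ A T, ω e = false then 1 else 0) -
        ∑ T ∈ F, ∑ T' ∈ F, (if (A T ∩ A T').Nonempty then a T * a T' else 0) *
          (if ∀ e ∈ A T ∪ A T', ω e = false then 1 else 0) ≤ Y ω := by
    intro ω
    obtain ⟨J, hJ1, hJ2, hJ3⟩ := turan (fun u v => (A u ∩ A v).Nonempty)
      (fun u v h => by rwa [Finset.inter_comm]) a ha
      (F.filter (fun T => ∀ e ∈ A T, ω e = false))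
      (fun u hu => by simpa using hA u (Finset.mem_filter.mp hu).1)
    have hJP : J ∈ P ω := Finset.mem_filter.mpr ⟨Finset.mem_powerset.mpr
      (hJ1.trans (Finset.filter_subset _ _)), fun T hT => (Finset.mem_filter.mp (hJ1 hT)).2, hJ2⟩
    have h2 : (J.card : ℝ) ≤ Y ω := by exact_mod_cast hYle ω J hJP
    refine le_trans (le_of_eq ?_) (hJ3.trans h2)
    congr 1
    · rw [Finset.sum_filter]
      simp only [mul_ite, mul_one, mul_zero]
    · rw [Finset.sum_filter]
      refine Finset.sum_congr rfl fun T _ => ?_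
      rw [Finset.sum_filter, Finset.mul_sum]
      by_cases hT : ∀ e ∈ A T, ω e = false
      · rw [if_pos hT]
        refine Finset.sum_congr rfl fun T' _ => ?_
        by_cases hT' : ∀ e ∈ A T', ω e = false
        · rw [if_pos hT', if_pos (fun e he => (Finset.mem_union.mp he).elim (hT e) (hT' e))]
          split_ifs <;> simp
        · rw [if_neg hT', if_neg (fun h : ∀ e ∈ A T ∪ A T', ω e = false =>
            hT' fun e he => h e (Finset.mem_union_right _ he))]
          simp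
      · rw [if_neg hT]
        refine Finset.sum_eq_zero fun T' _ => ?_
        rw [if_neg (fun h : ∀ e ∈ A T ∪ A T', ω e = false =>
          hT fun e he => h e (Finset.mem_union_left _ he))]
        simp
  have hE : q ≤ ∑ ω, wt p ω * (Y ω : ℝ) := by
    refine le_trans ?_ (Finset.sum_le_sum fun ω _ =>
      mul_le_mul_of_nonneg_left (hlow ω) (wt_nonneg h0 h1 ω))
    have s1 : ∑ ω : ι → Bool, wt p ω *
        (∑ T ∈ F, a T * (if ∀ e ∈ A T, ω e = false then 1 else 0)) = q := by
      simp only [Finset.mul_sum]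
      rw [Finset.sum_comm]
      have : ∀ T ∈ F, ∑ ω : ι → Bool, wt p ω *
          (a T * (if ∀ e ∈ A T, ω e = false then 1 else 0)) = q / F.card := by
        intro T _
        simp only [mul_left_comm _ (a T)]
        rw [← Finset.mul_sum, hprob]
        simp only [a]
        rw [mul_assoc, ← Real.exp_add]
        simp
      rw [Finset.sum_congr rfl this, Finset.sum_const, nsmul_eq_mul]
      field_simp
    have s2 : ∑ ω : ι → Bool, wt p ω *
        (∑ T ∈ F, ∑ T' ∈ F, (if (A T ∩ A T').Nonempty then a T * a T' else 0) *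
          (if ∀ e ∈ A T ∪ A T', ω e = false then 1 else 0)) =
        (q / F.card) ^ 2 * ∑ T ∈ F, ∑ T' ∈ F, (if (A T ∩ A T').Nonempty then
          Real.exp (∑ e ∈ A T ∩ A T', ℓ e) else 0) := by
      simp only [Finset.mul_sum]
      rw [Finset.sum_comm]
      refine Finset.sum_congr rfl fun T _ => ?_
      rw [Finset.sum_comm]
      refine Finset.sum_congr rfl fun T' _ => ?_
      simp only [mul_left_comm _ (if (A T ∩ A T').Nonempty then a T * a T' else 0)]
      rw [← Finset.mul_sum, hprob]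
      split_ifs
      · simp only [a]
        have := Finset.sum_union_inter (s₁ := A T) (s₂ := A T') (f := ℓ)
        have e : Real.exp (∑ e ∈ A T ∩ A T', ℓ e) = Real.exp (∑ e ∈ A T, ℓ e) *
            Real.exp (∑ e ∈ A T', ℓ e) * Real.exp (-∑ e ∈ A T ∪ A T', ℓ e) := by
          rw [← Real.exp_add, ← Real.exp_add]; congr 1; linarith
        rw [e]; ring
      · simp
    simp only [mul_sub, Finset.sum_sub_distrib, mul_left_comm _ (2 : ℝ)]
    rw [← Finset.mul_sum, s1, s2]
    have : (q / F.card) ^ 2 * ∑ T ∈ F, ∑ T' ∈ F, (if (A T ∩ A T').Nonempty then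
          Real.exp (∑ e ∈ A T ∩ A T', ℓ e) else 0) ≤ q := by
      rw [div_pow, div_mul_eq_mul_div, div_le_iff₀ (by positivity), sq, mul_assoc]
      exact mul_le_mul_of_nonneg_left hD hq
    linarith
  refine le_trans ?_ (hm.trans (Real.exp_le_exp.mpr ?_))
  · refine Finset.sum_le_sum fun ω _ => mul_le_mul_of_nonneg_left ?_ (wt_nonneg h0 h1 ω)
    split_ifs with h
    · have : Y ω = 0 := by
        refine Nat.eq_zero_of_le_zero (Finset.sup_le fun J hJ => ?_)
        obtain ⟨hJ1, hJ2, -⟩ := Finset.mem_filter.mp hJ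
        rw [Nat.le_zero, Finset.card_eq_zero, Finset.eq_empty_iff_forall_notMem]
        exact fun T hT => h T (Finset.mem_powerset.mp hJ1 hT) (hJ2 T hT)
      simp [this]
    · exact (Real.exp_pos _).le
  · nlinarith [mul_le_mul_of_nonneg_left hE hl0]

end Pool.Agent.H.MP_eaf82e_pr
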