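import Pool.Agent.H.MP_eaf82e_pr.A

set_option autoImplicit false

namespace Pool.Agent.H.MP_eaf82e_pr

open Finset

abbrev Ed (n : ℕ) : Type := {e : Fin n × Fin n // e.1 < e.2}

variable {n : ℕ}

def ES (S : Finset (Fin n)) : Finset (Ed n) := univ.filter (fun e => e.1.1 ∈ S ∧ e.1.2 ∈ S)

noncomputable def ls (ℓ : Ed n → ℝ) (S : Finset (Fin n)) : ℝ := ∑ e ∈ ES S, ℓ e

def Ind (ω : Ed n → Bool) (S : Finset (Fin n)) : Prop := ∀ e ∈ ES S, ω e = false

instance (ω : Ed n → Bool) (S : Finset (Fin n)) : Decidable (Ind ω S) := by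
  unfold Ind; infer_instance

lemma ES_inter (S S' : Finset (Fin n)) : ES S ∩ ES S' = ES (S ∩ S') := by
  ext e
  simp only [ES, mem_inter, mem_filter, mem_univ, true_and]
  tauto

lemma ES_card (S : Finset (Fin n)) : (ES S).card ≤ S.card ^ 2 := by
  rw [sq, ← Finset.card_product]
  refine Finset.card_le_card_of_injOn (fun e => e.1) (fun e he => ?_) ?_
  · simpa [ES] using he
  · intro e _ e' _ h
    exact Subtype.ext h

lemma ES_nonempty (S : Finset (Fin n)) : (ES S).Nonempty ↔ 2 ≤ S.card := by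
  constructor
  · rintro ⟨e, he⟩
    simp only [ES, mem_filter, mem_univ, true_and] at he
    exact Finset.one_lt_card.mpr ⟨_, he.1, _, he.2, e.2.ne⟩
  · intro h
    obtain ⟨a, ha, b, hb, hab⟩ := Finset.one_lt_card.mp h
    rcases lt_or_gt_of_ne hab with h1 | h1
    · exact ⟨⟨(a, b), h1⟩, by simp [ES, ha, hb]⟩
    · exact ⟨⟨(b, a), h1⟩, by simp [ES, ha, hb]⟩

lemma card_Ed (n : ℕ) : Fintype.card (Ed n) ≤ n ^ 2 := by
  have := Fintype.card_subtype_le (fun e : Fin n × Fin n => e.1 < e.2)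
  simpa [sq] using this

lemma ls_le {ℓ : Ed n → ℝ} {M : ℝ} (hM0 : 0 ≤ M) (hM : ∀ e, ℓ e ≤ M) (S : Finset (Fin n)) :
    ls ℓ S ≤ M * (S.card : ℝ) ^ 2 := by
  have h1 : ls ℓ S ≤ (ES S).card • M := Finset.sum_le_card_nsmul _ _ _ fun e _ => hM e
  rw [nsmul_eq_mul, mul_comm] at h1
  refine h1.trans (mul_le_mul_of_nonneg_left ?_ hM0)
  exact_mod_cast ES_card S

lemma hits {s j : ℕ} (Q : Fin s → Finset (Fin n)) (hQ : ∀ a, (Q a).card = j) (T : Fin s → Fin n)
    {z : ℝ} (hz : 1 ≤ z) (hj : s * z ≤ j) (hs : 0 < s) :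
    ∑ T' ∈ Fintype.piFinset Q, z ^ (univ.filter (fun a => T' a = T a)).card ≤
      (j : ℝ) ^ s * Real.exp 1 := by
  have hs' : (0 : ℝ) < s := by exact_mod_cast hs
  have hj0 : (0 : ℝ) < j := lt_of_lt_of_le (by positivity) hj
  have h1 : ∀ T' : Fin s → Fin n, z ^ (univ.filter (fun a => T' a = T a)).card =
      ∏ a, (if T' a = T a then z else 1) := by
    intro T'
    rw [Finset.prod_ite, Finset.prod_const, Finset.prod_const_one, mul_one]
  simp only [h1]
  rw [← Finset.prod_univ_sum Q (fun a v => if v = T a then z else 1)]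
  have h2 : ∀ a, ∑ v ∈ Q a, (if v = T a then z else (1 : ℝ)) ≤ j * Real.exp (1 / s) := by
    intro a
    calc _ ≤ ∑ v ∈ Q a, (1 + if v = T a then z else (0 : ℝ)) :=
          Finset.sum_le_sum fun v _ => by split_ifs <;> linarith
      _ ≤ j + z := by
          rw [Finset.sum_add_distrib, Finset.sum_const, hQ, nsmul_eq_mul, mul_one,
            Finset.sum_ite_eq']
          split_ifs <;> linarith
      _ ≤ j * (1 / s + 1) := by
          have : z ≤ j * (1 / s) := by
            rw [mul_one_div, le_div_iff₀ hs']; linarith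
          linarith
      _ ≤ _ := mul_le_mul_of_nonneg_left (Real.add_one_le_exp _) hj0.le
  calc _ ≤ ∏ _a : Fin s, (j * Real.exp (1 / s) : ℝ) :=
        Finset.prod_le_prod (fun a _ => Finset.sum_nonneg fun v _ => by
          split_ifs <;> linarith) fun a _ => h2 a
    _ = _ := by
        rw [Finset.prod_const, Finset.card_univ, Fintype.card_fin, mul_pow, ← Real.exp_nat_mul]
        congr 2
        field_simp

lemma transv_inj {s : ℕ} {Q : Fin s → Finset (Fin n)}
    (hd : ∀ a b, a ≠ b → Disjoint (Q a) (Q b)) {T T' : Fin s → Fin n}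
    (hT : T ∈ Fintype.piFinset Q) (hT' : T' ∈ Fintype.piFinset Q) {a b : Fin s}
    (h : T a = T' b) : a = b := by
  by_contra hab
  exact Finset.disjoint_left.mp (hd a b hab) (Fintype.mem_piFinset.mp hT a)
    (h ▸ Fintype.mem_piFinset.mp hT' b)

lemma transv_card {s : ℕ} {Q : Fin s → Finset (Fin n)}
    (hd : ∀ a b, a ≠ b → Disjoint (Q a) (Q b)) {T : Fin s → Fin n}
    (hT : T ∈ Fintype.piFinset Q) : (univ.image T).card = s := by
  rw [Finset.card_image_of_injective _ fun a b h => transv_inj hd hT hT h]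
  simp

/-- good transversals -/
noncomputable def gd (ℓ : Ed n → ℝ) (θ : ℝ) {s : ℕ} (Q : Fin s → Finset (Fin n)) :
    Finset (Fin s → Fin n) := by
  classical
  exact (Fintype.piFinset Q).filter (fun T => ∀ S ⊆ univ.image T, ls ℓ S ≤ θ * S.card)

lemma mem_gd {ℓ : Ed n → ℝ} {θ : ℝ} {s : ℕ} {Q : Fin s → Finset (Fin n)} {T : Fin s → Fin n} :
    T ∈ gd ℓ θ Q ↔ T ∈ Fintype.piFinset Q ∧ ∀ S ⊆ univ.image T, ls ℓ S ≤ θ * S.card := by
  simp [gd]

def Hyp (ℓ : Ed n → ℝ) (θ z : ℝ) {s : ℕ} (Q : Fin s → Finset (Fin n)) : Prop :=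
  2 ≤ s ∧ (∀ a b, a ≠ b → Disjoint (Q a) (Q b)) ∧
    ∃ j : ℕ, s * z ≤ j ∧ (∀ a, (Q a).card = j) ∧ (j : ℝ) ^ s ≤ 2 * (gd ℓ θ Q).card

lemma transv (p ℓ : Ed n → ℝ) (h0 : ∀ e, 0 ≤ p e) (hℓ : ∀ e, 1 - p e = Real.exp (-ℓ e))
    {M θ z l : ℝ} (hM0 : 0 ≤ M) (hM : ∀ e, ℓ e ≤ M) (hz : 1 ≤ z) {k0 : ℕ}
    (hk : ∀ k : ℕ, k0 < k → Real.exp (θ * k) * z ^ 2 ≤ z ^ k) (hl0 : 0 ≤ l) (hl1 : l ≤ 1)
    {s : ℕ} (Q : Fin s → Finset (Fin n)) (hQ : Hyp ℓ θ z Q) :
    ∑ ω : Ed n → Bool, wt p ω *
      (if ∀ T ∈ Fintype.piFinset Q, ¬ Ind ω (univ.image T) then 1 else 0) ≤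
      Real.exp (l ^ 2 * n ^ 2 - l * (z ^ 2 / (2 * Real.exp 1 * Real.exp (M * k0 ^ 2)))) := by
  obtain ⟨hs, hd, j, hj, hc, hF⟩ := hQ
  have h1 : ∀ e, p e ≤ 1 := fun e => by linarith [hℓ e, Real.exp_pos (-ℓ e)]
  set F := gd ℓ θ Q with hFd
  set B := Real.exp (M * k0 ^ 2) with hB
  have hB1 : 1 ≤ B := Real.one_le_exp (by positivity)
  have hz0 : 0 < z := by linarith
  have hs0 : (0 : ℝ) < s := by exact_mod_cast (by omega : 0 < s)
  have hj0 : (0 : ℝ) < j := lt_of_lt_of_le (by positivity) hj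
  have hFne : F.Nonempty := by
    rw [← Finset.card_pos]
    have : (0 : ℝ) < F.card := by have := pow_pos hj0 s; linarith
    exact_mod_cast this
  have key := janson p ℓ h0 hℓ F hFne (fun T => ES (univ.image T))
    (fun T hT => (ES_nonempty _).mpr (by rw [transv_card hd (mem_gd.mp hT).1]; exact hs))
    (q := z ^ 2 / (2 * Real.exp 1 * B)) (by positivity) hl0 hl1 (by
      have hb : ∀ T ∈ F, ∑ T' ∈ F, (if (ES (univ.image T) ∩ ES (univ.image T')).Nonempty then
          Real.exp (∑ e ∈ ES (univ.image T) ∩ ES (univ.image T'), ℓ e) else 0) ≤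
          B / z ^ 2 * ((j : ℝ) ^ s * Real.exp 1) := by
        intro T hT
        refine le_trans ?_ (mul_le_mul_of_nonneg_left (hits Q hc T hz hj (by omega))
          (by positivity))
        rw [Finset.mul_sum]
        refine le_trans (Finset.sum_le_sum fun T' hT' => ?_)
          (Finset.sum_le_sum_of_subset_of_nonneg (s := F) (fun T' hT' => (mem_gd.mp hT').1)
            fun _ _ _ => by positivity)
        split_ifs with hne
        · rw [ES_inter] at hne ⊢
          set S := univ.image T ∩ univ.image T' with hS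
          have hS2 := (ES_nonempty S).mp hne
          have hSh : S.card ≤ (univ.filter (fun a => T' a = T a)).card := by
            refine le_trans (Finset.card_le_card ?_) (Finset.card_image_le (f := T))
            intro v hv
            obtain ⟨h1, h2⟩ := Finset.mem_inter.mp hv
            obtain ⟨a, -, rfl⟩ := Finset.mem_image.mp h1
            obtain ⟨b, -, hb⟩ := Finset.mem_image.mp h2
            have := transv_inj hd (mem_gd.mp hT').1 (mem_gd.mp hT).1 hb
            subst this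
            exact Finset.mem_image.mpr ⟨b, by simpa using hb, rfl⟩
          have hpow : z ^ S.card ≤ z ^ (univ.filter (fun a => T' a = T a)).card :=
            pow_le_pow_right₀ hz hSh
          rw [div_mul_eq_mul_div, le_div_iff₀ (by positivity)]
          change Real.exp (ls ℓ S) * z ^ 2 ≤ _
          by_cases hk0 : k0 < S.card
          · have e1 : Real.exp (ls ℓ S) ≤ Real.exp (θ * S.card) :=
              Real.exp_le_exp.mpr ((mem_gd.mp hT).2 S Finset.inter_subset_left)
            calc _ ≤ Real.exp (θ * S.card) * z ^ 2 :=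
                  mul_le_mul_of_nonneg_right e1 (by positivity)
              _ ≤ z ^ S.card := hk _ hk0
              _ ≤ 1 * z ^ (univ.filter (fun a => T' a = T a)).card := by linarith
              _ ≤ _ := mul_le_mul_of_nonneg_right hB1 (by positivity)
          · have e1 : Real.exp (ls ℓ S) ≤ B := by
              refine Real.exp_le_exp.mpr ((ls_le hM0 hM S).trans ?_)
              have : (S.card : ℝ) ≤ k0 := by exact_mod_cast not_lt.mp hk0
              gcongr
            exact mul_le_mul e1 ((pow_le_pow_right₀ hz hS2).trans hpow) (by positivity)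
              (by positivity)
        · positivity
      have h2 := Finset.sum_le_card_nsmul _ _ _ hb
      rw [nsmul_eq_mul] at h2
      calc _ ≤ z ^ 2 / (2 * Real.exp 1 * B) *
            (F.card * (B / z ^ 2 * ((j : ℝ) ^ s * Real.exp 1))) :=
            mul_le_mul_of_nonneg_left h2 (by positivity)
        _ = F.card * ((j : ℝ) ^ s / 2) := by field_simp
        _ ≤ F.card * F.card := mul_le_mul_of_nonneg_left (by linarith) (by positivity)
        _ = _ := by ring)
  refine le_trans (Finset.sum_le_sum fun ω _ => mul_le_mul_of_nonneg_left ?_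
    (wt_nonneg h0 h1 ω)) (key.trans (Real.exp_le_exp.mpr ?_))
  · by_cases h : ∀ T ∈ Fintype.piFinset Q, ¬ Ind ω (univ.image T)
    · have h' : ∀ T ∈ F, ¬ ∀ e ∈ ES (univ.image T), ω e = false :=
        fun T hT => h T (mem_gd.mp hT).1
      rw [if_pos h, if_pos h']
    · rw [if_neg h]; split_ifs <;> norm_num
  · have : (Fintype.card (Ed n) : ℝ) ≤ n ^ 2 := by exact_mod_cast card_Ed n
    nlinarith [sq_nonneg l]

def Good (ℓ : Ed n → ℝ) (θ z : ℝ) (sm : ℕ) (ω : Ed n → Bool) : Prop :=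
  ∀ s ≤ sm, ∀ Q : Fin s → Finset (Fin n), Hyp ℓ θ z Q →
    ∃ T ∈ Fintype.piFinset Q, Ind ω (univ.image T)

open Classical in
lemma good_prob (p ℓ : Ed n → ℝ) (h0 : ∀ e, 0 ≤ p e) (hℓ : ∀ e, 1 - p e = Real.exp (-ℓ e))
    {M θ z l : ℝ} (hM0 : 0 ≤ M) (hM : ∀ e, ℓ e ≤ M) (hz : 1 ≤ z) {k0 : ℕ}
    (hk : ∀ k : ℕ, k0 < k → Real.exp (θ * k) * z ^ 2 ≤ z ^ k) (hl0 : 0 ≤ l) (hl1 : l ≤ 1)
    (sm : ℕ) :
    ∑ ω : Ed n → Bool, wt p ω * (if Good ℓ θ z sm ω then 0 else 1) ≤
      (sm + 1) * (2 ^ (n * sm) *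
        Real.exp (l ^ 2 * n ^ 2 - l * (z ^ 2 / (2 * Real.exp 1 * Real.exp (M * k0 ^ 2))))) := by
  have h1 : ∀ e, p e ≤ 1 := fun e => by linarith [hℓ e, Real.exp_pos (-ℓ e)]
  set b := Real.exp (l ^ 2 * n ^ 2 - l * (z ^ 2 / (2 * Real.exp 1 * Real.exp (M * k0 ^ 2))))
    with hb
  have hb0 : 0 ≤ b := (Real.exp_pos _).le
  have i1 : ∀ ω : Ed n → Bool, (if Good ℓ θ z sm ω then (0 : ℝ) else 1) ≤
      ∑ s ∈ range (sm + 1), ∑ Q : Fin s → Finset (Fin n), (if Hyp ℓ θ z Q then
        (if ∀ T ∈ Fintype.piFinset Q, ¬ Ind ω (univ.image T) then 1 else 0) else 0) := by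
    intro ω
    have nn : ∀ s : ℕ, ∀ Q : Fin s → Finset (Fin n), (0 : ℝ) ≤ (if Hyp ℓ θ z Q then
        (if ∀ T ∈ Fintype.piFinset Q, ¬ Ind ω (univ.image T) then 1 else 0) else 0) := by
      intro s Q; split_ifs <;> norm_num
    split_ifs with h
    · exact Finset.sum_nonneg fun s _ => Finset.sum_nonneg fun Q _ => nn s Q
    · simp only [Good, not_forall, not_exists, not_and] at h
      obtain ⟨s, hs, Q, hQ, hT⟩ := h
      refine le_trans ?_ (Finset.single_le_sum (f := fun s => ∑ Q : Fin s → Finset (Fin n),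
        (if Hyp ℓ θ z Q then (if ∀ T ∈ Fintype.piFinset Q, ¬ Ind ω (univ.image T) then (1 : ℝ)
          else 0) else 0)) (fun s _ => Finset.sum_nonneg fun Q _ => nn s Q)
        (Finset.mem_range.mpr (Nat.lt_succ_of_le hs)))
      refine le_trans ?_ (Finset.single_le_sum (fun Q _ => nn s Q) (Finset.mem_univ Q))
      rw [if_pos hQ, if_pos hT]
  refine le_trans (Finset.sum_le_sum fun ω _ =>
    mul_le_mul_of_nonneg_left (i1 ω) (wt_nonneg h0 h1 ω)) ?_
  simp only [Finset.mul_sum]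
  rw [Finset.sum_comm]
  have i2 : ∀ s ∈ range (sm + 1), ∑ ω : Ed n → Bool, ∑ Q : Fin s → Finset (Fin n),
      wt p ω * (if Hyp ℓ θ z Q then
        (if ∀ T ∈ Fintype.piFinset Q, ¬ Ind ω (univ.image T) then 1 else 0) else 0) ≤
      2 ^ (n * sm) * b := by
    intro s hs
    rw [Finset.sum_comm]
    have i3 : ∀ Q ∈ (univ : Finset (Fin s → Finset (Fin n))), ∑ ω : Ed n → Bool,
        wt p ω * (if Hyp ℓ θ z Q then
        (if ∀ T ∈ Fintype.piFinset Q, ¬ Ind ω (univ.image T) then 1 else 0) else 0) ≤ b := by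
      intro Q _
      by_cases hQ : Hyp ℓ θ z Q
      · simp only [if_pos hQ]
        convert transv p ℓ h0 hℓ hM0 hM hz hk hl0 hl1 Q hQ
      · simp [if_neg hQ, hb0]
    refine (Finset.sum_le_card_nsmul _ _ _ i3).trans ?_
    rw [nsmul_eq_mul]
    refine mul_le_mul_of_nonneg_right ?_ hb0
    simp only [card_univ, Fintype.card_pi, Fintype.card_finset, Fintype.card_fin, prod_const]
    push_cast
    rw [← pow_mul]
    exact pow_le_pow_right₀ (by norm_num)
      (Nat.mul_le_mul_left _ (Nat.lt_succ_iff.mp (Finset.mem_range.mp hs)))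
  refine (Finset.sum_le_card_nsmul _ _ _ i2).trans ?_
  simp

open Classical in
/-- first moment bound -/
lemma first_moment (p ℓ : Ed n → ℝ) (h0 : ∀ e, 0 ≤ p e) (hℓ : ∀ e, 1 - p e = Real.exp (-ℓ e))
    (θ : ℝ) :
    ∑ ω : Ed n → Bool, wt p ω *
      (if ∀ S, Ind ω S → ls ℓ S ≤ θ * S.card then 0 else 1) ≤
      Real.exp (n * Real.exp (-θ)) - 1 := by
  have h1 : ∀ e, p e ≤ 1 := fun e => by linarith [hℓ e, Real.exp_pos (-ℓ e)]
  have i1 : ∀ ω : Ed n → Bool, (if ∀ S, Ind ω S → ls ℓ S ≤ θ * S.card then (0 : ℝ) else 1) ≤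
      ∑ S : Finset (Fin n), (if θ * S.card < ls ℓ S then
        (if ∀ e ∈ ES S, ω e = false then 1 else 0) else 0) := by
    intro ω
    have nn : ∀ S : Finset (Fin n), (0 : ℝ) ≤ (if θ * S.card < ls ℓ S then
        (if ∀ e ∈ ES S, ω e = false then 1 else 0) else 0) := by
      intro S; split_ifs <;> norm_num
    split_ifs with h
    · exact Finset.sum_nonneg fun S _ => nn S
    · push Not at h
      obtain ⟨S, hS, hS2⟩ := h
      refine le_trans ?_ (Finset.single_le_sum (fun S _ => nn S) (Finset.mem_univ S))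
      have hS' : ∀ e ∈ ES S, ω e = false := hS
      rw [if_pos hS2, if_pos hS']
  refine le_trans (Finset.sum_le_sum fun ω _ =>
    mul_le_mul_of_nonneg_left (i1 ω) (wt_nonneg h0 h1 ω)) ?_
  simp only [Finset.mul_sum]
  rw [Finset.sum_comm]
  have i2 : ∀ S ∈ (univ : Finset (Finset (Fin n))), ∑ ω : Ed n → Bool, wt p ω *
      (if θ * S.card < ls ℓ S then (if ∀ e ∈ ES S, ω e = false then 1 else 0) else 0) ≤
      Real.exp (-θ) ^ S.card - (if S = ∅ then 1 else 0) := by
    intro S _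
    by_cases hS : θ * S.card < ls ℓ S
    · simp only [if_pos hS]
      have hne : S ≠ ∅ := by
        rintro rfl
        simp [ls, ES] at hS
      rw [if_neg hne, sub_zero, sum_wt_false, Finset.prod_congr rfl fun e _ => hℓ e,
        ← Real.exp_sum, Finset.sum_neg_distrib, ← Real.exp_nat_mul]
      refine Real.exp_le_exp.mpr ?_
      unfold ls at hS
      linarith
    · simp only [if_neg hS, mul_zero, Finset.sum_const_zero]
      split_ifs with h
      · simp [h]
      · simp only [sub_zero]; positivity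
  refine (Finset.sum_le_sum i2).trans ?_
  rw [Finset.sum_sub_distrib, Finset.sum_ite_eq']
  simp only [mem_univ, if_true]
  have := Fintype.sum_pow_mul_eq_add_pow (Fin n) (Real.exp (-θ)) 1
  simp only [one_pow, mul_one, Fintype.card_fin] at this
  rw [this, Real.exp_nat_mul]
  gcongr
  exact Real.add_one_le_exp _

/-- multi-affine extension -/
lemma multi_affine {V : Type} [Fintype V] [DecidableEq V] (A : V → V → ℝ) (θ : ℝ) (I : Finset V)
    (h : ∀ S ⊆ I, ∑ u ∈ S, ∑ v ∈ S, (if u = v then 0 else A u v) ≤ θ * S.card)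
    (t : V → ℝ) (t0 : ∀ u, 0 ≤ t u) (t1 : ∀ u, t u ≤ 1) :
    ∑ u ∈ I, ∑ v ∈ I, (if u = v then 0 else t u * t v * A u v) ≤ θ * ∑ u ∈ I, t u := by
  have q0 : ∀ u, 0 ≤ 1 - t u := fun u => by linarith [t1 u]
  have q1 : ∀ u, 1 - t u ≤ 1 := fun u => by linarith [t0 u]
  have i1 : ∀ ω : V → Bool, ∑ u ∈ I, ∑ v ∈ I, (if u = v then 0 else A u v) *
      (if ∀ e ∈ ({u, v} : Finset V), ω e = false then 1 else 0) ≤
      θ * ∑ u ∈ I, (if ∀ e ∈ ({u} : Finset V), ω e = false then 1 else 0) := by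
    intro ω
    have := h (I.filter (fun u => ω u = false)) (Finset.filter_subset _ _)
    rw [Finset.card_filter, Finset.sum_filter] at this
    push_cast at this
    convert this using 2 with u _ _ u
    · by_cases hu : ω u = false
      · rw [if_pos hu, Finset.sum_filter]
        refine Finset.sum_congr rfl fun v _ => ?_
        by_cases hv : ω v = false <;> simp [hu, hv]
      · simp [hu]
    · simp
  have i2 := Finset.sum_le_sum fun ω (_ : ω ∈ (univ : Finset (V → Bool))) =>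
    mul_le_mul_of_nonneg_left (i1 ω) (wt_nonneg (p := fun u => 1 - t u) q0 q1 ω)
  refine le_trans (le_of_eq (Eq.symm ?_)) (i2.trans (le_of_eq ?_))
  · simp only [Finset.mul_sum]
    rw [Finset.sum_comm]
    refine Finset.sum_congr rfl fun u _ => ?_
    rw [Finset.sum_comm]
    refine Finset.sum_congr rfl fun v _ => ?_
    simp only [mul_left_comm _ (if u = v then 0 else A u v)]
    rw [← Finset.mul_sum, sum_wt_false]
    split_ifs with huv
    · simp
    · rw [Finset.prod_pair huv]; ring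
  · simp only [mul_left_comm _ θ]
    rw [← Finset.mul_sum]
    congr 1
    simp only [Finset.mul_sum]
    rw [Finset.sum_comm]
    refine Finset.sum_congr rfl fun u _ => ?_
    rw [sum_wt_false]
    simp

lemma two_ls (L : Fin n → Fin n → ℝ) (hL : ∀ u v, L u v = L v u) (S : Finset (Fin n)) :
    ∑ u ∈ S, ∑ v ∈ S, (if u = v then 0 else L u v) = 2 * ls (fun e => L e.1.1 e.1.2) S := by
  have e1 : ls (fun e : Ed n => L e.1.1 e.1.2) S =
      ∑ u ∈ S, ∑ v ∈ S, (if u < v then L u v else 0) := by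
    rw [← Finset.sum_product', ← Finset.sum_filter]
    unfold ls
    refine Finset.sum_bij (fun e _ => e.1) ?_ ?_ ?_ ?_
    · intro e he
      simp only [ES, mem_filter, mem_univ, true_and] at he
      simp [he.1, he.2, e.2]
    · intro e _ e' _ h; exact Subtype.ext h
    · intro x hx
      simp only [mem_filter, mem_product] at hx
      exact ⟨⟨x, hx.2⟩, by simp [ES, hx.1.1, hx.1.2], rfl⟩
    · intro e _; rfl
  have e2 : ls (fun e : Ed n => L e.1.1 e.1.2) S =
      ∑ u ∈ S, ∑ v ∈ S, (if v < u then L u v else 0) := by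
    rw [e1, Finset.sum_comm]
    simp only [hL]
  rw [two_mul]
  nth_rewrite 1 [e1]
  rw [e2, ← Finset.sum_add_distrib]
  refine Finset.sum_congr rfl fun u _ => ?_
  rw [← Finset.sum_add_distrib]
  refine Finset.sum_congr rfl fun v _ => ?_
  rcases lt_trichotomy u v with h | h | h
  · simp [h, h.ne, h.not_gt]
  · simp [h]
  · simp [h, h.ne', h.not_gt]

end Pool.Agent.H.MP_eaf82e_pr
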