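import Pool.Agent.H.MP_eaf82e_pr.B

set_option autoImplicit false

namespace Pool.Agent.H.MP_eaf82e_pr

open Finset

variable {n : ℕ}

def Cov (ω : Ed n → Bool) (U : Finset (Fin n)) (k : ℕ) : Prop :=
  ∃ c : Fin n → ℕ, (∀ v ∈ U, c v < k) ∧
    ∀ e : Ed n, e.1.1 ∈ U → e.1.2 ∈ U → c e.1.1 = c e.1.2 → ω e = false

lemma Cov.mono {ω : Ed n → Bool} {U U' : Finset (Fin n)} {k : ℕ} (h : Cov ω U k)
    (hU : U' ⊆ U) : Cov ω U' k := by
  obtain ⟨c, h1, h2⟩ := h
  exact ⟨c, fun v hv => h1 v (hU hv), fun e a b => h2 e (hU a) (hU b)⟩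

lemma Cov.union {ω : Ed n → Bool} {U U' : Finset (Fin n)} {k k' : ℕ} (h : Cov ω U k)
    (h' : Cov ω U' k') : Cov ω (U ∪ U') (k + k') := by
  obtain ⟨c, h1, h2⟩ := h
  obtain ⟨c', h1', h2'⟩ := h'
  refine ⟨fun v => if v ∈ U then c v else k + c' v, fun v hv => ?_, fun e a b hc => ?_⟩
  · by_cases hU : v ∈ U
    · simp only [if_pos hU]; have := h1 v hU; omega
    · simp only [if_neg hU]
      have := h1' v ((Finset.mem_union.mp hv).resolve_left hU); omega
  · by_cases ha : e.1.1 ∈ U <;> by_cases hb : e.1.2 ∈ U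
    · simp only [if_pos ha, if_pos hb] at hc; exact h2 e ha hb hc
    · simp only [if_pos ha, if_neg hb] at hc; have := h1 _ ha; omega
    · simp only [if_neg ha, if_pos hb] at hc; have := h1 _ hb; omega
    · simp only [if_neg ha, if_neg hb] at hc
      exact h2' e ((Finset.mem_union.mp a).resolve_left ha)
        ((Finset.mem_union.mp b).resolve_left hb) (by omega)

lemma Ind.cov {ω : Ed n → Bool} {S : Finset (Fin n)} (h : Ind ω S) : Cov ω S 1 :=
  ⟨fun _ => 0, fun _ _ => one_pos, fun e a b _ => h e (by simp [ES, a, b])⟩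

lemma cov_empty (ω : Ed n → Bool) : Cov ω ∅ 0 := ⟨fun _ => 0, by simp, by simp⟩

lemma cov_card (ω : Ed n → Bool) (U : Finset (Fin n)) : Cov ω U U.card := by
  induction U using Finset.induction_on with
  | empty => exact cov_empty ω
  | insert v U hv ih =>
    have h1 : Ind ω {v} := by
      intro e he
      simp only [ES, mem_filter, mem_univ, true_and, mem_singleton] at he
      exact absurd (he.1.trans he.2.symm) e.2.ne
    rw [Finset.card_insert_of_notMem hv, Finset.insert_eq, Finset.union_comm]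
    exact ih.union h1.cov

lemma cov_biUnion {K : Type} [DecidableEq K] (ω : Ed n → Bool) (U : K → Finset (Fin n))
    (k : K → ℕ) (h : ∀ i, Cov ω (U i) (k i)) (A : Finset K) :
    Cov ω (A.biUnion U) (∑ i ∈ A, k i) := by
  induction A using Finset.induction_on with
  | empty => exact cov_empty ω
  | insert i A hi ih =>
    rw [Finset.biUnion_insert, Finset.sum_insert hi]
    exact (h i).union ih

lemma greedy (ω : Ed n → Bool) {s m j0 : ℕ} (P : Fin s → Finset (Fin n))
    (hd : ∀ a b, a ≠ b → Disjoint (P a) (P b)) (hc : ∀ a, (P a).card = m)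
    (H : ∀ j, j0 ≤ j → ∀ Q : Fin s → Finset (Fin n), (∀ a, Q a ⊆ P a) → (∀ a, (Q a).card = j) →
      ∃ T ∈ Fintype.piFinset Q, Ind ω (univ.image T)) :
    ∀ d, d + j0 ≤ m → ∃ Q : Fin s → Finset (Fin n), (∀ a, Q a ⊆ P a) ∧
      (∀ a, (Q a).card + d = m) ∧ ∃ U : Finset (Fin n), (∀ a, Disjoint U (Q a)) ∧
      U ⊆ univ.biUnion P ∧ U.card = d * s ∧ Cov ω U d := by
  intro d
  induction d with
  | zero =>
    intro _
    exact ⟨P, fun _ => Subset.refl _, by simpa using hc, ∅, by simp, by simp, by simp,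
      cov_empty ω⟩
  | succ d ih =>
    intro hdm
    obtain ⟨Q, hQ1, hQ2, U, hU1, hU2, hU3, hU4⟩ := ih (by omega)
    have hdQ : ∀ a b, a ≠ b → Disjoint (Q a) (Q b) := fun a b h =>
      Finset.disjoint_of_subset_left (hQ1 a) (Finset.disjoint_of_subset_right (hQ1 b) (hd a b h))
    obtain ⟨T, hT, hI⟩ := H (m - d) (by omega) Q hQ1 fun a => by have := hQ2 a; omega
    have hT' := Fintype.mem_piFinset.mp hT
    refine ⟨fun a => (Q a).erase (T a), fun a => (Finset.erase_subset _ _).trans (hQ1 a),
      fun a => ?_, U ∪ univ.image T, fun a => ?_, ?_, ?_, hU4.union hI.cov⟩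
    · have := Finset.card_erase_add_one (hT' a)
      have := hQ2 a
      show ((Q a).erase (T a)).card + (d + 1) = m
      omega
    · rw [Finset.disjoint_union_left]
      refine ⟨Finset.disjoint_of_subset_right (Finset.erase_subset _ _) (hU1 a), ?_⟩
      rw [Finset.disjoint_left]
      intro v hv hv2
      obtain ⟨b, -, rfl⟩ := Finset.mem_image.mp hv
      obtain ⟨h1, h2⟩ := Finset.mem_erase.mp hv2
      by_cases hab : b = a
      · exact h1 (by rw [hab])
      · exact Finset.disjoint_left.mp (hdQ b a hab) (hT' b) h2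
    · refine Finset.union_subset hU2 fun v hv => ?_
      obtain ⟨b, -, rfl⟩ := Finset.mem_image.mp hv
      exact Finset.mem_biUnion.mpr ⟨b, mem_univ _, hQ1 b (hT' b)⟩
    · rw [Finset.card_union_of_disjoint, hU3, transv_card hdQ hT]
      · ring
      · rw [Finset.disjoint_right]
        intro v hv
        obtain ⟨b, -, rfl⟩ := Finset.mem_image.mp hv
        exact Finset.disjoint_right.mp (hU1 b) (hT' b)

lemma crude (ω : Ed n → Bool) {s u0 : ℕ} (hs : 0 < s)
    (H : ∀ U : Finset (Fin n), u0 ≤ U.card → ∃ S ⊆ U, S.card = s ∧ Ind ω S)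
    (U : Finset (Fin n)) : ∃ k : ℕ, Cov ω U k ∧ (k : ℝ) ≤ U.card / s + u0 := by
  induction U using Finset.strongInduction with
  | H U ih =>
    have hs' : (0 : ℝ) < s := by exact_mod_cast hs
    by_cases hU : u0 ≤ U.card
    · obtain ⟨S, hS1, hS2, hS3⟩ := H U hU
      have hne : S.Nonempty := Finset.card_pos.mp (by omega)
      obtain ⟨k, hk1, hk2⟩ := ih (U \ S) (Finset.sdiff_ssubset hS1 hne)
      refine ⟨k + 1, (hk1.union hS3.cov).mono (by rw [Finset.sdiff_union_of_subset hS1]), ?_⟩
      have : ((U \ S).card : ℝ) + s = U.card := by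
        rw [← hS2]; exact_mod_cast Finset.card_sdiff_add_card_eq_card hS1
      rw [← this, add_div, div_self hs'.ne']
      push_cast
      linarith
    · refine ⟨U.card, cov_card ω U, ?_⟩
      have : (U.card : ℝ) ≤ u0 := by exact_mod_cast (not_le.mp hU).le
      have : (0 : ℝ) ≤ U.card / s := by positivity
      linarith

lemma carve {J C : Type} [Fintype J] [DecidableEq J] [DecidableEq C] (cell : J → C)
    (size : J → ℕ) (Vc : C → Finset (Fin n)) (hV : ∀ c c', c ≠ c' → Disjoint (Vc c) (Vc c'))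
    (h : ∀ c, ∑ j ∈ univ.filter (fun j => cell j = c), size j ≤ (Vc c).card) :
    ∃ P : J → Finset (Fin n), (∀ j, P j ⊆ Vc (cell j)) ∧ (∀ j, (P j).card = size j) ∧
      ∀ j j', j ≠ j' → Disjoint (P j) (P j') := by
  have key : ∀ A : Finset J, ∃ P : J → Finset (Fin n), (∀ j ∈ A, P j ⊆ Vc (cell j)) ∧
      (∀ j ∈ A, (P j).card = size j) ∧ ∀ j ∈ A, ∀ j' ∈ A, j ≠ j' → Disjoint (P j) (P j') := by
    intro A
    induction A using Finset.induction_on with
    | empty => exact ⟨fun _ => ∅, by simp, by simp, by simp⟩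
    | insert i A hi ih =>
      obtain ⟨P, h1, h2, h3⟩ := ih
      set B := A.filter (fun j => cell j = cell i) with hB
      have hc1 : (B.biUnion P).card ≤ ∑ j ∈ B, size j := by
        refine Finset.card_biUnion_le.trans (le_of_eq ?_)
        exact Finset.sum_congr rfl fun j hj => h2 j (Finset.mem_filter.mp hj).1
      have hc2 : size i + ∑ j ∈ B, size j ≤ (Vc (cell i)).card := by
        refine le_trans ?_ (h (cell i))
        rw [← Finset.sum_insert (fun hh => hi (Finset.mem_filter.mp hh).1)]
        refine Finset.sum_le_sum_of_subset fun j hj => ?_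
        rcases Finset.mem_insert.mp hj with rfl | hj
        · simp
        · simpa using (Finset.mem_filter.mp hj).2
      have hc3 : size i ≤ (Vc (cell i) \ B.biUnion P).card := by
        have := Finset.le_card_sdiff (B.biUnion P) (Vc (cell i))
        omega
      obtain ⟨S, hS1, hS2⟩ := Finset.exists_subset_card_eq hc3
      have hne : ∀ j ∈ A, j ≠ i := fun j hj hh => hi (hh ▸ hj)
      have hdis : ∀ j ∈ A, Disjoint S (P j) := by
        intro j hj
        rw [Finset.disjoint_left]
        intro v hv hv2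
        obtain ⟨g1, g2⟩ := Finset.mem_sdiff.mp (hS1 hv)
        by_cases hcell : cell j = cell i
        · exact g2 (Finset.mem_biUnion.mpr ⟨j, Finset.mem_filter.mpr ⟨hj, hcell⟩, hv2⟩)
        · exact Finset.disjoint_left.mp (hV _ _ hcell) (h1 j hj hv2) g1
      refine ⟨Function.update P i S, fun j hj => ?_, fun j hj => ?_, fun j hj j' hj' hjj => ?_⟩
      · rcases Finset.mem_insert.mp hj with rfl | hj
        · rw [Function.update_self]; exact hS1.trans Finset.sdiff_subset
        · rw [Function.update_of_ne (hne j hj)]; exact h1 j hj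
      · rcases Finset.mem_insert.mp hj with rfl | hj
        · rw [Function.update_self]; exact hS2
        · rw [Function.update_of_ne (hne j hj)]; exact h2 j hj
      · rcases Finset.mem_insert.mp hj with rfl | hj1
        · rcases Finset.mem_insert.mp hj' with rfl | hj2
          · exact absurd rfl hjj
          · rw [Function.update_self, Function.update_of_ne (hne j' hj2)]; exact hdis j' hj2
        · rcases Finset.mem_insert.mp hj' with rfl | hj2
          · rw [Function.update_self, Function.update_of_ne (hne j hj1)]; exact (hdis j hj1).symm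
          · rw [Function.update_of_ne (hne j hj1), Function.update_of_ne (hne j' hj2)]
            exact h3 j hj1 j' hj2 hjj
  obtain ⟨P, h1, h2, h3⟩ := key univ
  exact ⟨P, fun j => h1 j (mem_univ _), fun j => h2 j (mem_univ _),
    fun j j' => h3 j (mem_univ _) j' (mem_univ _)⟩

lemma fib {A C : Type} [Fintype C] [DecidableEq C] (R : Finset A) (cl : A → C) (f : C → ℝ) :
    ∑ a ∈ R, f (cl a) = ∑ c, ((R.filter (fun a => cl a = c)).card : ℝ) * f c := by
  rw [← Finset.sum_fiberwise R cl]
  refine Finset.sum_congr rfl fun c _ => ?_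
  rw [Finset.sum_congr rfl (g := fun _ => f c) fun a ha => by rw [(Finset.mem_filter.mp ha).2]]
  simp

lemma pair_count {s j : ℕ} (Q : Fin s → Finset (Fin n)) (hc : ∀ a, (Q a).card = j)
    {a b : Fin s} (hab : a ≠ b) (g : Fin n → Fin n → ℝ) :
    (∑ T ∈ Fintype.piFinset Q, g (T a) (T b)) * (j : ℝ) ^ 2 =
      (j : ℝ) ^ s * ∑ u ∈ Q a, ∑ v ∈ Q b, g u v := by
  have h1 : ∀ T ∈ Fintype.piFinset Q, g (T a) (T b) = ∑ u ∈ Q a, ∑ v ∈ Q b, g u v *
      ∏ c, ((if c = a then (if T c = u then 1 else 0) else 1) *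
        (if c = b then (if T c = v then (1 : ℝ) else 0) else 1)) := by
    intro T hT
    have hT' := Fintype.mem_piFinset.mp hT
    simp only [Finset.prod_mul_distrib, Finset.prod_ite_eq', mem_univ, if_true]
    rw [Finset.sum_eq_single_of_mem (T a) (hT' a), Finset.sum_eq_single_of_mem (T b) (hT' b)]
    · simp
    · intro v _ hv; simp [hv.symm]
    · intro u _ hu; simp [hu.symm]
  rw [Finset.sum_congr rfl h1, Finset.sum_comm, Finset.sum_mul, Finset.mul_sum]
  refine Finset.sum_congr rfl fun u hu => ?_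
  rw [Finset.sum_comm, Finset.sum_mul, Finset.mul_sum]
  refine Finset.sum_congr rfl fun v hv => ?_
  rw [← Finset.mul_sum, ← Finset.prod_univ_sum Q (fun c x =>
    (if c = a then (if x = u then 1 else 0) else 1) *
      (if c = b then (if x = v then (1 : ℝ) else 0) else 1))]
  have h2 : ∀ c, (∑ x ∈ Q c, (if c = a then (if x = u then 1 else 0) else 1) *
      (if c = b then (if x = v then (1 : ℝ) else 0) else 1)) *
      ((if c = a then (j : ℝ) else 1) * (if c = b then (j : ℝ) else 1)) = j := by
    intro c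
    by_cases ha : c = a
    · subst ha
      simp [hab, hu]
    · by_cases hb : c = b
      · subst hb
        simp [ha, hv]
      · simp [ha, hb, hc]
  have h3 : (j : ℝ) ^ 2 = ∏ c : Fin s,
      ((if c = a then (j : ℝ) else 1) * (if c = b then (j : ℝ) else 1)) := by
    rw [Finset.prod_mul_distrib, Finset.prod_ite_eq', Finset.prod_ite_eq']
    simp [sq]
  rw [mul_assoc, h3, ← Finset.prod_mul_distrib]
  simp only [h2]
  simp [mul_comm]

lemma goodfrac {C : Type} [Fintype C] [DecidableEq C] (κ : Fin n → C)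
    (L : Fin n → Fin n → ℝ) (hL : ∀ u v, L u v = L v u) {M : ℝ} (hM0 : 0 ≤ M)
    (hM : ∀ u v, L u v ≤ M) (Lb : C → C → ℝ) (hLb : ∀ c c', 0 ≤ Lb c c')
    (w : C → ℝ) {y σ β ξ θ : ℝ}
    (hw : ∀ t : C → ℝ, (∀ c, 0 ≤ t c) → (∀ c, t c ≤ w c) →
      ∑ c, ∑ c', t c * t c' * Lb c c' ≤ y * ∑ c, t c)
    (hσ : 0 < σ) (hβ : 0 < β) (hξ : 0 < ξ) (hMy : M * ξ ≤ y) (hθ : (y + β / ξ) * σ ≤ 2 * θ)
    {s j : ℕ} (cl : Fin s → C) (hcl : ∀ c, ((univ.filter (fun a => cl a = c)).card : ℝ) ≤ w c * σ)
    (Q : Fin s → Finset (Fin n)) (hd : ∀ a b, a ≠ b → Disjoint (Q a) (Q b))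
    (hc : ∀ a, (Q a).card = j) (hj : 0 < j) (hQ : ∀ a, ∀ v ∈ Q a, κ v = cl a)
    (hE : ∑ u, ∑ v, (if u = v then 0 else |L u v - Lb (κ u) (κ v)|) ≤ β * σ ^ 2 * j ^ 2 / 2) :
    (j : ℝ) ^ s ≤ 2 * (gd (fun e => L e.1.1 e.1.2) θ Q).card := by
  classical
  set E : Fin n → Fin n → ℝ := fun u v => if u = v then 0 else |L u v - Lb (κ u) (κ v)| with hEd
  have hE0 : ∀ u v, 0 ≤ E u v := fun u v => by
    simp only [hEd]; split_ifs
    · exact le_rfl
    · exact abs_nonneg _
  let err : (Fin s → Fin n) → ℝ := fun T => ∑ a, ∑ b, E (T a) (T b)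
  have hj' : (0 : ℝ) < j := by exact_mod_cast hj
  have hpw : ((univ : Finset (Fin s)) : Set (Fin s)).PairwiseDisjoint Q :=
    fun a _ b _ h => hd a b h
  have s1 : (∑ T ∈ Fintype.piFinset Q, err T) * (j : ℝ) ^ 2 ≤
      (j : ℝ) ^ s * (β * σ ^ 2 * j ^ 2 / 2) := by
    refine le_trans ?_ (mul_le_mul_of_nonneg_left hE (by positivity))
    have e1 : ∑ a, ∑ b, ∑ u ∈ Q a, ∑ v ∈ Q b, E u v ≤ ∑ u, ∑ v, E u v := by
      have e2 : ∀ a, ∑ b, ∑ u ∈ Q a, ∑ v ∈ Q b, E u v ≤ ∑ u ∈ Q a, ∑ v, E u v := by
        intro a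
        rw [Finset.sum_comm]
        refine Finset.sum_le_sum fun u _ => ?_
        rw [← Finset.sum_biUnion hpw]
        exact Finset.sum_le_sum_of_subset_of_nonneg (Finset.subset_univ _) fun v _ _ => hE0 u v
      refine (Finset.sum_le_sum fun a _ => e2 a).trans ?_
      rw [← Finset.sum_biUnion hpw]
      exact Finset.sum_le_sum_of_subset_of_nonneg (Finset.subset_univ _) fun u _ _ =>
        Finset.sum_nonneg fun v _ => hE0 u v
    refine le_trans ?_ (mul_le_mul_of_nonneg_left e1 (by positivity))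
    simp only [err]
    rw [Finset.sum_comm, Finset.sum_mul, Finset.mul_sum]
    refine Finset.sum_le_sum fun a _ => ?_
    rw [Finset.sum_comm, Finset.sum_mul, Finset.mul_sum]
    refine Finset.sum_le_sum fun b _ => ?_
    by_cases hab : a = b
    · subst hab
      have : ∀ T : Fin s → Fin n, E (T a) (T a) = 0 := fun T => by simp [hEd]
      simp only [this, Finset.sum_const_zero, zero_mul]
      exact mul_nonneg (by positivity)
        (Finset.sum_nonneg fun u _ => Finset.sum_nonneg fun v _ => hE0 u v)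
    · exact (pair_count Q hc hab E).le
  have s2 : ∑ T ∈ Fintype.piFinset Q, err T ≤ (j : ℝ) ^ s * (β * σ ^ 2) / 2 := by
    refine le_of_mul_le_mul_right (s1.trans (le_of_eq (by ring))) (pow_pos hj' 2)
  have herr0 : ∀ T, 0 ≤ err T := fun T =>
    Finset.sum_nonneg fun a _ => Finset.sum_nonneg fun b _ => hE0 _ _
  have s3 : (((Fintype.piFinset Q).filter (fun T => ¬ err T ≤ β * σ ^ 2)).card : ℝ) ≤
      (j : ℝ) ^ s / 2 := by
    have h1 := Finset.card_nsmul_le_sum ((Fintype.piFinset Q).filter
      (fun T => ¬ err T ≤ β * σ ^ 2)) err (β * σ ^ 2)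
      fun T hT => (not_le.mp (Finset.mem_filter.mp hT).2).le
    have h2 := Finset.sum_le_sum_of_subset_of_nonneg (f := err)
      (Finset.filter_subset (fun T => ¬ err T ≤ β * σ ^ 2) (Fintype.piFinset Q))
      fun T _ _ => herr0 T
    rw [nsmul_eq_mul] at h1
    refine le_of_mul_le_mul_right (h1.trans (h2.trans (s2.trans (le_of_eq (by ring)))))
      (show 0 < β * σ ^ 2 by positivity)
  have s4 : (((Fintype.piFinset Q).filter (fun T => err T ≤ β * σ ^ 2)).card : ℝ) +
      (((Fintype.piFinset Q).filter (fun T => ¬ err T ≤ β * σ ^ 2)).card : ℝ) = (j : ℝ) ^ s := by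
    have := Finset.card_filter_add_card_filter_not (s := Fintype.piFinset Q)
      (fun T => err T ≤ β * σ ^ 2)
    rw [Fintype.card_piFinset] at this
    simp only [hc, prod_const, card_univ, Fintype.card_fin] at this
    exact_mod_cast this
  have s5 : (Fintype.piFinset Q).filter (fun T => err T ≤ β * σ ^ 2) ⊆
      gd (fun e => L e.1.1 e.1.2) θ Q := by
    intro T hT
    obtain ⟨hT1, hT2⟩ := Finset.mem_filter.mp hT
    have hT' := Fintype.mem_piFinset.mp hT1
    refine mem_gd.mpr ⟨hT1, fun S hS => ?_⟩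
    have hinj : Function.Injective T := fun a b h => transv_inj hd hT1 hT1 h
    set R := univ.filter (fun a => T a ∈ S) with hR
    have hSR : S = R.image T := by
      ext v
      constructor
      · intro hv
        obtain ⟨a, -, rfl⟩ := Finset.mem_image.mp (hS hv)
        exact Finset.mem_image.mpr ⟨a, by simpa [hR] using hv, rfl⟩
      · intro hv
        obtain ⟨a, ha, rfl⟩ := Finset.mem_image.mp hv
        simpa [hR] using ha
    have hcard : (S.card : ℝ) = R.card := by
      rw [hSR, Finset.card_image_of_injective _ hinj]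
    have hR0 : (0 : ℝ) ≤ R.card := Nat.cast_nonneg _
    have hbx : 0 ≤ β / ξ := by positivity
    have g0 : 2 * θ * R.card ≥ (y + β / ξ) * σ * R.card := mul_le_mul_of_nonneg_right hθ hR0
    have t1 := two_ls L hL S
    rw [hcard]
    by_cases hcase : (R.card : ℝ) ≤ ξ * σ
    · have h1 : ∑ u ∈ S, ∑ v ∈ S, (if u = v then 0 else L u v) ≤ S.card * (S.card * M) := by
        have : ∀ u ∈ S, ∑ v ∈ S, (if u = v then 0 else L u v) ≤ S.card * M := by
          intro u _
          have := Finset.sum_le_card_nsmul S (fun v => if u = v then 0 else L u v) M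
            fun v _ => by
              split_ifs
              · exact hM0
              · exact hM u v
          simpa using this
        simpa using Finset.sum_le_card_nsmul S _ _ this
      rw [hcard] at h1
      have h2 : R.card * M ≤ y * σ := by
        calc (R.card : ℝ) * M ≤ ξ * σ * M := mul_le_mul_of_nonneg_right hcase hM0
          _ = M * ξ * σ := by ring
          _ ≤ _ := mul_le_mul_of_nonneg_right hMy hσ.le
      have h3 := mul_le_mul_of_nonneg_left h2 hR0
      have h4 : 0 ≤ β / ξ * σ * R.card := mul_nonneg (mul_nonneg hbx hσ.le) hR0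
      nlinarith
    · have h1 : ∑ u ∈ S, ∑ v ∈ S, (if u = v then 0 else L u v) ≤
          ∑ a ∈ R, ∑ b ∈ R, Lb (cl a) (cl b) + err T := by
        rw [hSR, Finset.sum_image fun a _ b _ h => hinj h]
        calc _ ≤ ∑ a ∈ R, (∑ b ∈ R, Lb (cl a) (cl b) + ∑ b, E (T a) (T b)) := by
              refine Finset.sum_le_sum fun a _ => ?_
              rw [Finset.sum_image fun a _ b _ h => hinj h]
              calc _ ≤ ∑ b ∈ R, (Lb (cl a) (cl b) + E (T a) (T b)) := by
                    refine Finset.sum_le_sum fun b _ => ?_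
                    simp only [hEd]
                    split_ifs
                    · simpa using hLb _ _
                    · rw [hQ a _ (hT' a), hQ b _ (hT' b)]
                      linarith [le_abs_self (L (T a) (T b) - Lb (cl a) (cl b))]
                _ ≤ _ := by
                    rw [Finset.sum_add_distrib]
                    exact add_le_add le_rfl (Finset.sum_le_sum_of_subset_of_nonneg
                      (Finset.subset_univ _) fun b _ _ => hE0 _ _)
          _ ≤ _ := by
              rw [Finset.sum_add_distrib]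
              exact add_le_add le_rfl (Finset.sum_le_sum_of_subset_of_nonneg
                (Finset.subset_univ _) fun a _ _ => Finset.sum_nonneg fun b _ => hE0 _ _)
      set N : C → ℝ := fun c => ((R.filter (fun a => cl a = c)).card : ℝ) with hN
      have h2 : ∑ a ∈ R, ∑ b ∈ R, Lb (cl a) (cl b) =
          σ ^ 2 * ∑ c, ∑ c', N c / σ * (N c' / σ) * Lb c c' := by
        rw [fib R cl (fun c => ∑ b ∈ R, Lb c (cl b)), Finset.mul_sum]
        refine Finset.sum_congr rfl fun c _ => ?_
        rw [fib R cl (fun c' => Lb c c'), Finset.mul_sum, Finset.mul_sum]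
        refine Finset.sum_congr rfl fun c' _ => ?_
        show N c * (N c' * Lb c c') = _
        generalize N c = a1
        generalize N c' = a2
        field_simp
      have h3 := hw (fun c => N c / σ) (fun c => div_nonneg (Nat.cast_nonneg _) hσ.le) (fun c => by
        rw [div_le_iff₀ hσ]
        refine le_trans ?_ (hcl c)
        exact Nat.cast_le.mpr (Finset.card_le_card
          (Finset.filter_subset_filter _ (Finset.subset_univ _))))
      have h4 : ∑ c, N c / σ = R.card / σ := by
        rw [← Finset.sum_div]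
        congr 1
        have := fib R cl (fun _ => 1)
        simp only [sum_const, nsmul_eq_mul, mul_one] at this
        exact this.symm
      rw [h4] at h3
      have h5 : σ ^ 2 * (y * (R.card / σ)) = y * σ * R.card := by
        generalize (R.card : ℝ) = a1
        field_simp
      have h6 := mul_le_mul_of_nonneg_left h3 (sq_nonneg σ)
      have h7 : β * σ ^ 2 ≤ β / ξ * σ * R.card := by
        have : β * σ ^ 2 = β / ξ * σ * (ξ * σ) := by field_simp
        rw [this]
        exact mul_le_mul_of_nonneg_left (not_le.mp hcase).le (by positivity)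
      nlinarith
  have s6 : (((Fintype.piFinset Q).filter (fun T => err T ≤ β * σ ^ 2)).card : ℝ) ≤
      (gd (fun e => L e.1.1 e.1.2) θ Q).card := Nat.cast_le.mpr (Finset.card_le_card s5)
  linarith

lemma positions {C : Type} [Fintype C] [DecidableEq C] (w : C → ℝ) (hw0 : ∀ c, 0 ≤ w c)
    (hw1 : ∑ c, w c = 1) {σ : ℝ} (hσ : 0 < σ) :
    ∃ s : ℕ, ∃ cl : Fin s → C, (∀ c, ((univ.filter (fun a => cl a = c)).card : ℝ) ≤ w c * σ) ∧
      σ - Fintype.card C ≤ s ∧ (s : ℝ) ≤ σ := by
  let k : C → ℕ := fun c => ⌊w c * σ⌋₊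
  let e := (Fintype.equivFin (Σ c, Fin (k c))).symm
  have hs : (Fintype.card (Σ c, Fin (k c)) : ℝ) = ∑ c, (k c : ℝ) := by simp
  have hk : ∀ c, (k c : ℝ) ≤ w c * σ := fun c => Nat.floor_le (mul_nonneg (hw0 c) hσ.le)
  have hsum : ∑ c, w c * σ = σ := by rw [← Finset.sum_mul, hw1, one_mul]
  refine ⟨_, fun a => (e a).1, fun c => ?_, ?_, ?_⟩
  · refine le_trans (Nat.cast_le.mpr ?_) (hk c)
    rw [← Finset.card_range (k c)]
    have inj : ∀ x y : Σ c, Fin (k c), x.1 = y.1 → (x.2 : ℕ) = y.2 → x = y := by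
      rintro ⟨a, i⟩ ⟨b, j⟩ h1 h2
      dsimp only at h1 h2
      subst h1
      rw [Fin.ext h2]
    refine Finset.card_le_card_of_injOn (fun a => ((e a).2 : ℕ)) (fun a ha => ?_) ?_
    · have h1 : (e a).1 = c := by simpa using ha
      simp only [coe_range, Set.mem_Iio]
      rw [← h1]
      exact (e a).2.2
    · intro a ha b hb h
      have h1 : (e a).1 = c := by simpa using ha
      have h2 : (e b).1 = c := by simpa using hb
      exact e.injective (inj _ _ (h1.trans h2.symm) h)
  · rw [hs]
    have : ∑ c, (w c * σ - 1) ≤ ∑ c, (k c : ℝ) :=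
      Finset.sum_le_sum fun c _ => (Nat.sub_one_lt_floor _).le
    rw [Finset.sum_sub_distrib, hsum] at this
    simpa using this
  · rw [hs, ← hsum]
    exact Finset.sum_le_sum fun c _ => hk c

end Pool.Agent.H.MP_eaf82e_pr
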