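import Pool.Agent.H.MP_eaf82e_pr.C

set_option autoImplicit false

namespace Pool.Agent.H.MP_eaf82e_pr

open Finset

variable {n : ℕ}

lemma crude_of_good (ℓ : Ed n → ℝ) {M θ z : ℝ} (hM0 : 0 ≤ M) (hM : ∀ e, ℓ e ≤ M) (hz : 1 ≤ z)
    {sm s : ℕ} (ω : Ed n → Bool) (hG : Good ℓ θ z sm ω) (hs2 : 2 ≤ s) (hsm : s ≤ sm)
    (hMs : M * s ≤ θ) (U : Finset (Fin n)) :
    ∃ k : ℕ, Cov ω U k ∧ (k : ℝ) ≤ U.card / s + s * (s * z + 1) := by
  have hs0 : (0 : ℝ) ≤ s * z := by positivity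
  obtain ⟨k, hk1, hk2⟩ := crude ω (s := s) (u0 := s * ⌈s * z⌉₊) (by omega) (fun U hU => by
    obtain ⟨Q, hQ1, hQ2, hQ3⟩ := carve (J := Fin s) (C := Unit) (fun _ => ())
      (fun _ => ⌈s * z⌉₊) (fun _ => U) (fun c c' h => absurd rfl h) (fun c => by simpa using hU)
    obtain ⟨T, hT, hI⟩ := hG s hsm Q ⟨hs2, hQ3, ⌈s * z⌉₊, Nat.le_ceil _, hQ2, by
      have : gd ℓ θ Q = Fintype.piFinset Q := by
        ext T
        rw [mem_gd]
        refine ⟨fun h => h.1, fun h => ⟨h, fun S hS => (ls_le hM0 hM S).trans ?_⟩⟩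
        have h1 : (S.card : ℝ) ≤ s := by
          have := Finset.card_le_card hS
          rw [transv_card hQ3 h] at this
          exact_mod_cast this
        have h0 : (0 : ℝ) ≤ S.card := Nat.cast_nonneg _
        calc M * (S.card : ℝ) ^ 2 = M * S.card * S.card := by ring
          _ ≤ M * s * S.card := by gcongr
          _ ≤ _ := mul_le_mul_of_nonneg_right hMs h0
      rw [this, Fintype.card_piFinset]
      simp only [hQ2, prod_const, card_univ, Fintype.card_fin]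
      push_cast
      have : (0 : ℝ) ≤ (⌈s * z⌉₊ : ℝ) ^ s := by positivity
      linarith⟩
    refine ⟨_, fun v hv => ?_, transv_card hQ3 hT, hI⟩
    obtain ⟨a, -, rfl⟩ := Finset.mem_image.mp hv
    exact hQ1 a (Fintype.mem_piFinset.mp hT a)) U
  refine ⟨k, hk1, hk2.trans ?_⟩
  push_cast
  have := (Nat.ceil_lt_add_one hs0).le
  gcongr

lemma chi_upper {C K : Type} [Fintype C] [DecidableEq C] [Fintype K] [DecidableEq K]
    (κ : Fin n → C) (L : Fin n → Fin n → ℝ) (hL : ∀ u v, L u v = L v u) {M : ℝ} (hM0 : 0 ≤ M)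
    (hM : ∀ u v, L u v ≤ M) (Lb : C → C → ℝ) (hLb : ∀ c c', 0 ≤ Lb c c')
    (α y σ : K → ℝ) (w : K → C → ℝ) (hα0 : ∀ i, 0 ≤ α i) (hα1 : ∑ i, α i = 1)
    (hw0 : ∀ i c, 0 ≤ w i c) (hw1 : ∀ i, ∑ c, w i c = 1)
    (hw : ∀ i, ∀ t : C → ℝ, (∀ c, 0 ≤ t c) → (∀ c, t c ≤ w i c) →
      ∑ c, ∑ c', t c * t c' * Lb c c' ≤ y i * ∑ c, t c)
    {β ξ θ δ z : ℝ} {sm s' : ℕ} (hβ : 0 < β) (hξ : 0 < ξ) (hδ0 : 0 < δ) (hδ : δ ≤ 1 / 4)
    (hz : 1 ≤ z) (hσ : ∀ i, 4 ≤ σ i) (hσ2 : ∀ i, σ i ≤ sm)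
    (hσ3 : ∀ i, (Fintype.card C : ℝ) ≤ δ * σ i)
    (hMy : ∀ i, M * ξ ≤ y i) (hθ : ∀ i, (y i + β / ξ) * σ i ≤ 2 * θ)
    (hcnt : ∀ c, (1 - δ) * n * ∑ i, α i * w i c ≤ (univ.filter (fun v => κ v = c)).card)
    (hμ : ∀ i, σ i * z ≤ δ * ((1 - δ) * α i * n / σ i))
    (hE : ∀ i, ∑ u, ∑ v, (if u = v then 0 else |L u v - Lb (κ u) (κ v)|) ≤
      β * σ i ^ 2 * (δ * ((1 - δ) * α i * n / σ i)) ^ 2 / 2)
    (hs2 : 2 ≤ s') (hsm : s' ≤ sm) (hMs : M * s' ≤ θ)
    (ω : Ed n → Bool) (hG : Good (fun e => L e.1.1 e.1.2) θ z sm ω) :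
    ∃ k : ℕ, Cov ω univ k ∧
      (k : ℝ) ≤ ∑ i, α i * n / σ i + 5 * δ * n / s' + s' * (s' * z + 1) := by
  have hσ0 : ∀ i, 0 < σ i := fun i => by linarith [hσ i]
  choose s cl hcl hs1 hs3 using fun i => positions (w i) (hw0 i) (hw1 i) (hσ0 i)
  set μ : K → ℝ := fun i => (1 - δ) * α i * n / σ i with hμd
  have hμ' : ∀ i, σ i * z ≤ δ * μ i := hμ
  have hμ1 : ∀ i, 1 ≤ δ * μ i := fun i => le_trans (by nlinarith [hσ i]) (hμ' i)
  have hμ0 : ∀ i, 0 ≤ μ i := fun i => by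
    by_contra h
    nlinarith [hμ1 i, not_le.mp h]
  let m : K → ℕ := fun i => ⌊μ i⌋₊
  let j : K → ℕ := fun i => ⌈δ * μ i⌉₊
  have hm1 : ∀ i, (m i : ℝ) ≤ μ i := fun i => Nat.floor_le (hμ0 i)
  have hm2 : ∀ i, μ i - 1 ≤ m i := fun i => (Nat.sub_one_lt_floor _).le
  have hj1 : ∀ i, δ * μ i ≤ j i := fun i => Nat.le_ceil _
  have hj2 : ∀ i, (j i : ℝ) ≤ δ * μ i + 1 := fun i =>
    (Nat.ceil_lt_add_one (mul_nonneg hδ0.le (hμ0 i))).le
  have hjm : ∀ i, j i ≤ m i := fun i => by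
    have : (j i : ℝ) ≤ m i := by nlinarith [hj2 i, hm2 i, hμ1 i, hμ0 i]
    exact_mod_cast this
  obtain ⟨P, hP1, hP2, hP3⟩ := carve (J := Σ i, Fin (s i)) (fun x => cl x.1 x.2) (fun x => m x.1)
    (fun c => univ.filter (fun v => κ v = c))
    (fun c c' h => Finset.disjoint_left.mpr fun v h1 h2 =>
      h ((Finset.mem_filter.mp h1).2.symm.trans (Finset.mem_filter.mp h2).2))
    (fun c => by
      have : ((∑ x ∈ univ.filter (fun x : Σ i, Fin (s i) => cl x.1 x.2 = c), m x.1 : ℕ) : ℝ) ≤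
          (univ.filter (fun v => κ v = c)).card := by
        refine le_trans ?_ (hcnt c)
        rw [Finset.sum_filter, Fintype.sum_sigma, Finset.mul_sum]
        push_cast
        refine Finset.sum_le_sum fun i _ => ?_
        rw [← Finset.sum_filter, Finset.sum_const, nsmul_eq_mul]
        calc _ ≤ (w i c * σ i) * μ i :=
              mul_le_mul (hcl i c) (hm1 i) (Nat.cast_nonneg _) (mul_nonneg (hw0 i c) (hσ0 i).le)
          _ = _ := by
              have := (hσ0 i).ne'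
              simp only [hμd]
              field_simp
      exact_mod_cast this)
  have hs4 : ∀ i, (1 - δ) * σ i ≤ s i := fun i => by linarith [hs1 i, hσ3 i]
  have hgr : ∀ i, ∃ U : Finset (Fin n), U ⊆ univ.biUnion (fun a => P ⟨i, a⟩) ∧
      U.card = (m i - j i) * s i ∧ Cov ω U (m i - j i) := by
    intro i
    have hdi : ∀ a b : Fin (s i), a ≠ b → Disjoint (P ⟨i, a⟩) (P ⟨i, b⟩) := fun a b h =>
      hP3 _ _ fun hh => h (by simpa using hh)
    obtain ⟨Q, -, -, U, -, h2, h3, h4⟩ := greedy ω (m := m i) (j0 := j i) (fun a => P ⟨i, a⟩) hdi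
      (fun a => hP2 _) (fun j' hj' Q hQ1 hQ2 => by
        have hjj : (j i : ℝ) ≤ j' := by exact_mod_cast hj'
        have hdQ : ∀ a b, a ≠ b → Disjoint (Q a) (Q b) := fun a b h =>
          Finset.disjoint_of_subset_left (hQ1 a)
            (Finset.disjoint_of_subset_right (hQ1 b) (hdi a b h))
        refine hG (s i) ?_ Q ⟨?_, hdQ, j', ?_, hQ2, ?_⟩
        · have : (s i : ℝ) ≤ sm := (hs3 i).trans (hσ2 i)
          exact_mod_cast this
        · have : (2 : ℝ) ≤ s i := by nlinarith [hs4 i, hσ i]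
          exact_mod_cast this
        · calc (s i : ℝ) * z ≤ σ i * z := mul_le_mul_of_nonneg_right (hs3 i) (by linarith)
            _ ≤ _ := (hμ' i).trans ((hj1 i).trans hjj)
        · have hj0 : 0 < j' := by
            have : (0 : ℝ) < j' := by linarith [hμ1 i, hj1 i]
            exact_mod_cast this
          refine goodfrac κ L hL hM0 hM Lb hLb (w i) (hw i) (hσ0 i) hβ hξ (hMy i) (hθ i) (cl i)
            (hcl i) Q hdQ hQ2 hj0 (fun a v hv => (Finset.mem_filter.mp (hP1 _ (hQ1 a hv))).2)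
            ((hE i).trans ?_)
          have h1 : δ * μ i ≤ j' := (hj1 i).trans hjj
          have h0 : 0 ≤ δ * μ i := by linarith [hμ1 i]
          change β * σ i ^ 2 * (δ * μ i) ^ 2 / 2 ≤ _
          gcongr) (m i - j i) (by have := hjm i; omega)
    exact ⟨U, h2, h3, h4⟩
  choose U hU1 hU2 hU3 using hgr
  have hUd : ((univ : Finset K) : Set K).PairwiseDisjoint U := by
    intro i _ i' _ h
    refine Finset.disjoint_left.mpr fun v h1 h2 => ?_
    obtain ⟨a, -, ha⟩ := Finset.mem_biUnion.mp (hU1 i h1)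
    obtain ⟨b, -, hb⟩ := Finset.mem_biUnion.mp (hU1 i' h2)
    exact Finset.disjoint_left.mp (hP3 ⟨i, a⟩ ⟨i', b⟩ fun hh => h (congrArg Sigma.fst hh)) ha hb
  have hcard : (1 - 5 * δ) * n ≤ (univ.biUnion U).card := by
    rw [Finset.card_biUnion hUd]
    push_cast
    calc (1 - 5 * δ) * n = ∑ i, (1 - 5 * δ) * (α i * n) := by
          rw [← Finset.mul_sum, ← Finset.sum_mul, hα1, one_mul]
      _ ≤ _ := Finset.sum_le_sum fun i _ => by
          rw [hU2 i]
          push_cast [Nat.cast_sub (hjm i)]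
          have h1 : (1 - 3 * δ) * μ i ≤ m i - j i := by nlinarith [hj2 i, hm2 i, hμ1 i]
          have h2 : μ i * σ i = (1 - δ) * (α i * n) := by
            have := (hσ0 i).ne'
            simp only [hμd]
            field_simp
          have h3 : 0 ≤ α i * n := mul_nonneg (hα0 i) (Nat.cast_nonneg _)
          calc (1 - 5 * δ) * (α i * n) ≤ ((1 - 3 * δ) * (1 - δ) * (1 - δ)) * (α i * n) := by
                refine mul_le_mul_of_nonneg_right ?_ h3
                nlinarith [mul_nonneg (sq_nonneg δ) (show 0 ≤ 7 - 3 * δ by linarith)]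
            _ = ((1 - 3 * δ) * μ i) * ((1 - δ) * σ i) := by
                linear_combination (-(1 - 3 * δ) * (1 - δ)) * h2
            _ ≤ _ := mul_le_mul h1 (hs4 i) (mul_nonneg (by linarith) (hσ0 i).le)
                (le_trans (mul_nonneg (by linarith) (hμ0 i)) h1)
  obtain ⟨k, hk1, hk2⟩ := crude_of_good (fun e => L e.1.1 e.1.2) hM0 (fun e => hM _ _) hz ω hG
    hs2 hsm hMs (univ \ univ.biUnion U)
  refine ⟨_, ((cov_biUnion ω U _ hU3 univ).union hk1).mono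
    (by rw [Finset.union_sdiff_of_subset (Finset.subset_univ _)]), ?_⟩
  have h1 : ((univ \ univ.biUnion U).card : ℝ) ≤ 5 * δ * n := by
    have := Finset.card_sdiff_add_card_eq_card (Finset.subset_univ (univ.biUnion U))
    rw [Finset.card_univ, Fintype.card_fin] at this
    have h2 : ((univ \ univ.biUnion U).card : ℝ) + (univ.biUnion U).card = n := by
      exact_mod_cast this
    linarith
  have h2 : ((∑ i, (m i - j i) : ℕ) : ℝ) ≤ ∑ i, α i * n / σ i := by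
    push_cast
    refine Finset.sum_le_sum fun i _ => ?_
    have h3 : ((m i - j i : ℕ) : ℝ) ≤ m i := Nat.cast_le.mpr (Nat.sub_le _ _)
    refine h3.trans ((hm1 i).trans ?_)
    have h4 : 0 ≤ α i * n := mul_nonneg (hα0 i) (Nat.cast_nonneg _)
    simp only [hμd]
    refine div_le_div_of_nonneg_right ?_ (hσ0 i).le
    nlinarith
  have h3 : ((univ \ univ.biUnion U).card : ℝ) / s' ≤ 5 * δ * n / s' :=
    div_le_div_of_nonneg_right h1 (Nat.cast_nonneg _)
  rw [Nat.cast_add]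
  linarith

end Pool.Agent.H.MP_eaf82e_pr
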