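import Mathlib

set_option autoImplicit false

namespace Pool.Agent.H.MP_eaf82e_pr

open MeasureTheory Set

noncomputable def lam : Measure ℝ := volume.restrict (Icc (0 : ℝ) 1)

instance : IsProbabilityMeasure lam := ⟨by simp [lam]⟩

instance : NullSingletonClass lam := by unfold lam; infer_instance

noncomputable def sm (a : ℝ) (μ : Measure ℝ) : Measure ℝ := ENNReal.ofReal a • μ

instance (a : ℝ) (μ : Measure ℝ) [IsFiniteMeasure μ] : IsFiniteMeasure (sm a μ) :=
  ⟨by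
    simp only [sm, Measure.smul_apply, smul_eq_mul]
    exact ENNReal.mul_lt_top ENNReal.ofReal_lt_top (measure_lt_top _ _)⟩

lemma sm_real {a : ℝ} (ha : 0 ≤ a) (μ : Measure ℝ) (S : Set ℝ) :
    (sm a μ).real S = a * μ.real S := by
  simp [sm, Measure.real, ENNReal.toReal_ofReal ha]

lemma sm_restrict (a : ℝ) (μ : Measure ℝ) (S : Set ℝ) :
    (sm a μ).restrict S = sm a (μ.restrict S) := by
  simp [sm]

def BM (F : ℝ × ℝ → ℝ) : Prop := Measurable F ∧ ∃ M, ∀ z, |F z| ≤ M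

lemma BM.int {F : ℝ × ℝ → ℝ} (h : BM F) (ρ : Measure (ℝ × ℝ)) [IsFiniteMeasure ρ] :
    Integrable F ρ := by
  obtain ⟨h1, M, h2⟩ := h
  exact Integrable.of_bound h1.aestronglyMeasurable M (ae_of_all _ h2)

lemma BM.of_bounds {F : ℝ × ℝ → ℝ} (h : Measurable F) {M : ℝ} (h0 : ∀ z, 0 ≤ F z)
    (h1 : ∀ z, F z ≤ M) : BM F :=
  ⟨h, M, fun z => by rw [abs_of_nonneg (h0 z)]; exact h1 z⟩

lemma BM.step {r : ℕ} {c : ℝ → Fin r} (hc : Measurable c) (G : Fin r → Fin r → ℝ) :
    BM (fun z => G (c z.1) (c z.2)) := by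
  refine ⟨(measurable_of_countable (Function.uncurry G)).comp
    ((hc.comp measurable_fst).prodMk (hc.comp measurable_snd)),
    ∑ a, ∑ b, |G a b|, fun z => ?_⟩
  refine le_trans ?_ (Finset.single_le_sum (f := fun a => ∑ b, |G a b|)
    (fun a _ => Finset.sum_nonneg fun b _ => abs_nonneg _) (Finset.mem_univ (c z.1)))
  exact Finset.single_le_sum (f := fun b => |G (c z.1) b|) (fun b _ => abs_nonneg _)
    (Finset.mem_univ _)

lemma BM.add {F G : ℝ × ℝ → ℝ} (h : BM F) (h' : BM G) : BM (fun z => F z + G z) := by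
  obtain ⟨h1, M, h2⟩ := h
  obtain ⟨h3, M', h4⟩ := h'
  exact ⟨h1.add h3, M + M', fun z => (abs_add_le _ _).trans (add_le_add (h2 z) (h4 z))⟩

lemma BM.abs_sub {F G : ℝ × ℝ → ℝ} (h : BM F) (h' : BM G) : BM (fun z => |F z - G z|) := by
  obtain ⟨h1, M, h2⟩ := h
  obtain ⟨h3, M', h4⟩ := h'
  exact ⟨(h1.sub h3).abs, M + M', fun z => by
    rw [abs_abs]; exact (_root_.abs_sub _ _).trans (add_le_add (h2 z) (h4 z))⟩

noncomputable def B (F : ℝ × ℝ → ℝ) (μ ν : Measure ℝ) : ℝ := ∫ z, F z ∂(μ.prod ν)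

section
variable {F G : ℝ × ℝ → ℝ} {μ ν : Measure ℝ} [IsFiniteMeasure μ] [IsFiniteMeasure ν]

lemma B_mono (hF : BM F) (hG : BM G) (h : ∀ z, F z ≤ G z) : B F μ ν ≤ B G μ ν :=
  integral_mono (hF.int _) (hG.int _) h

lemma B_add (hF : BM F) (hG : BM G) : B (fun z => F z + G z) μ ν = B F μ ν + B G μ ν :=
  integral_add (hF.int _) (hG.int _)

omit [IsFiniteMeasure μ] [IsFiniteMeasure ν] in
lemma B_nonneg (h : ∀ z, 0 ≤ F z) : 0 ≤ B F μ ν := integral_nonneg h

lemma B_const (a : ℝ) : B (fun _ => a) μ ν = a * μ.real univ * ν.real univ := by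
  unfold B
  rw [integral_const, ← univ_prod_univ, measureReal_prod_prod, smul_eq_mul]
  ring

lemma BM.const (a : ℝ) : BM (fun _ => a) := ⟨measurable_const, |a|, fun _ => le_rfl⟩

lemma B_le_const (hF : BM F) {M : ℝ} (h : ∀ z, F z ≤ M) :
    B F μ ν ≤ M * μ.real univ * ν.real univ := by
  rw [← B_const]; exact B_mono hF (BM.const M) h

lemma B_ge_const (hF : BM F) {M : ℝ} (h : ∀ z, M ≤ F z) :
    M * μ.real univ * ν.real univ ≤ B F μ ν := by
  rw [← B_const]; exact B_mono (BM.const M) hF h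

omit [IsFiniteMeasure μ] in
lemma B_mono_meas (hF : BM F) (h0 : ∀ z, 0 ≤ F z) {μ' ν' : Measure ℝ} [IsFiniteMeasure μ']
    [IsFiniteMeasure ν'] (h1 : μ ≤ μ') (h2 : ν ≤ ν') : B F μ ν ≤ B F μ' ν' :=
  integral_mono_measure (Measure.prod_mono h1 h2) (ae_of_all _ h0) (hF.int _)

omit [IsFiniteMeasure μ] in
lemma B_sm {a b : ℝ} (ha : 0 ≤ a) (hb : 0 ≤ b) : B F (sm a μ) (sm b ν) = a * b * B F μ ν := by
  unfold B sm
  rw [Measure.prod_smul_left, Measure.prod_smul_right, integral_smul_measure,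
    integral_smul_measure, ENNReal.toReal_ofReal ha, ENNReal.toReal_ofReal hb]
  simp [mul_assoc]

lemma B_step {r : ℕ} {c : ℝ → Fin r} (hc : Measurable c) (G : Fin r → Fin r → ℝ) :
    B (fun z => G (c z.1) (c z.2)) μ ν =
      ∑ a, ∑ b, μ.real (c ⁻¹' {a}) * ν.real (c ⁻¹' {b}) * G a b := by
  have hm : ∀ a, MeasurableSet (c ⁻¹' {a}) := fun a => hc (measurableSet_singleton a)
  have h1 : (fun z : ℝ × ℝ => G (c z.1) (c z.2)) = fun z => ∑ a, ∑ b,
      ((c ⁻¹' {a}) ×ˢ (c ⁻¹' {b})).indicator (fun _ => G a b) z := by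
    funext z
    rw [Finset.sum_eq_single (c z.1), Finset.sum_eq_single (c z.2)]
    · rw [indicator_of_mem]; exact ⟨rfl, rfl⟩
    · intro b _ hb
      rw [indicator_of_notMem]; exact fun h => hb h.2.symm
    · simp
    · intro a _ ha
      refine Finset.sum_eq_zero fun b _ => ?_
      rw [indicator_of_notMem]; exact fun h => ha h.1.symm
    · simp
  have hi : ∀ a b, Integrable (((c ⁻¹' {a}) ×ˢ (c ⁻¹' {b})).indicator (fun _ => G a b))
      (μ.prod ν) := fun a b => (integrable_const _).indicator ((hm a).prod (hm b))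
  unfold B
  rw [h1, integral_finsetSum _ fun a _ => integrable_finsetSum _ fun b _ => hi a b]
  refine Finset.sum_congr rfl fun a _ => ?_
  rw [integral_finsetSum _ fun b _ => hi a b]
  refine Finset.sum_congr rfl fun b _ => ?_
  rw [integral_indicator_const _ ((hm a).prod (hm b)), measureReal_prod_prod, smul_eq_mul]

end

instance {K : Type} (A : Finset K) (μ : K → Measure ℝ) [∀ i, IsFiniteMeasure (μ i)] :
    IsFiniteMeasure (∑ i ∈ A, μ i) :=
  ⟨by
    rw [Measure.finsetSum_apply]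
    exact ENNReal.sum_lt_top.mpr fun i _ => measure_lt_top _ _⟩

lemma B_sum {F : ℝ × ℝ → ℝ} (hF : BM F) {K K' : Type} (A : Finset K) (A' : Finset K')
    (μ : K → Measure ℝ) (ν : K' → Measure ℝ) [∀ i, IsFiniteMeasure (μ i)]
    [∀ i, IsFiniteMeasure (ν i)] :
    B F (∑ i ∈ A, μ i) (∑ j ∈ A', ν j) = ∑ i ∈ A, ∑ j ∈ A', B F (μ i) (ν j) := by
  classical
  have h1 : ∀ (ρ : Measure ℝ) [IsFiniteMeasure ρ],
      (∑ i ∈ A, μ i).prod ρ = ∑ i ∈ A, (μ i).prod ρ := by
    intro ρ _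
    induction A using Finset.induction_on with
    | empty => simp
    | insert i A hi ih => rw [Finset.sum_insert hi, Finset.sum_insert hi, Measure.add_prod, ih]
  have h2 : ∀ (ρ : Measure ℝ) [IsFiniteMeasure ρ],
      ρ.prod (∑ j ∈ A', ν j) = ∑ j ∈ A', ρ.prod (ν j) := by
    intro ρ _
    induction A' using Finset.induction_on with
    | empty => simp
    | insert i A hi ih => rw [Finset.sum_insert hi, Finset.sum_insert hi, Measure.prod_add, ih]
  unfold B
  rw [h1, integral_finsetSum_measure fun i _ => hF.int _]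
  refine Finset.sum_congr rfl fun i _ => ?_
  rw [h2, integral_finsetSum_measure fun i _ => hF.int _]

lemma sum_cells {r : ℕ} {c : ℝ → Fin r} (hc : Measurable c) (μ : Measure ℝ) :
    ∑ a, μ.restrict (c ⁻¹' {a}) = μ := by
  ext S hS
  rw [Measure.finsetSum_apply]
  simp only [Measure.restrict_apply hS]
  have := measure_biUnion_finset (μ := μ) (s := Finset.univ) (f := fun a => S ∩ c ⁻¹' {a})
    (fun a _ b _ h => Set.disjoint_left.mpr fun x h1 h2 => h (h1.2.symm.trans h2.2))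
    (fun a _ => hS.inter (hc (measurableSet_singleton a)))
  rw [← this]
  congr 1
  ext x
  simp

lemma sum_cells_real {r : ℕ} {c : ℝ → Fin r} (hc : Measurable c) (μ : Measure ℝ)
    [IsFiniteMeasure μ] : ∑ a, μ.real (c ⁻¹' {a}) = μ.real univ := by
  conv_rhs => rw [← sum_cells hc μ]
  rw [Measure.real, Measure.finsetSum_apply, ENNReal.toReal_sum fun a _ => measure_ne_top _ _]
  simp [Measure.real]

lemma step_approx {L : ℝ × ℝ → ℝ} (hL : Measurable L) {M : ℝ} (h0 : ∀ z, 0 ≤ L z)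
    (h1 : ∀ z, L z ≤ M) {η : ℝ} (hη : 0 < η) :
    ∃ (r : ℕ) (c : ℝ → Fin r) (Lb : Fin r → Fin r → ℝ), Measurable c ∧ (∀ a b, 0 ≤ Lb a b) ∧
      (∀ a b, Lb a b ≤ M) ∧ B (fun z => |L z - Lb (c z.1) (c z.2)|) lam lam ≤ η := by
  have hBM := BM.of_bounds hL h0 h1
  have hM0 : 0 ≤ M := (h0 0).trans (h1 0)
  obtain ⟨g, hg1, hg2⟩ := (hBM.int (lam.prod lam)).exists_boundedContinuous_integral_sub_le
    (half_pos hη)
  have hK : IsCompact (Icc (0 : ℝ) 1 ×ˢ Icc (0 : ℝ) 1) := isCompact_Icc.prod isCompact_Icc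
  have hu := hK.uniformContinuousOn_of_continuous g.continuous.continuousOn
  obtain ⟨d, hd, hd2⟩ := Metric.uniformContinuousOn_iff.mp hu (η / 2) (half_pos hη)
  obtain ⟨N, hN⟩ := exists_nat_one_div_lt hd
  let c : ℝ → Fin (N + 2) := fun x => ⟨min ⌊((N : ℝ) + 1) * x⌋₊ (N + 1), by omega⟩
  let rep : Fin (N + 2) → ℝ := fun a => (a : ℕ) / ((N : ℝ) + 1)
  have hN0 : (0 : ℝ) < N + 1 := by positivity
  have hc : Measurable c := by
    have : c = (fun k : ℕ => (⟨min k (N + 1), by omega⟩ : Fin (N + 2))) ∘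
        fun x : ℝ => ⌊((N : ℝ) + 1) * x⌋₊ := rfl
    rw [this]
    exact (measurable_of_countable _).comp (Nat.measurable_floor.comp (measurable_const_mul _))
  have hrep : ∀ a, rep a ∈ Icc (0 : ℝ) 1 := by
    intro a
    refine ⟨by positivity, (div_le_one hN0).mpr ?_⟩
    have : (a : ℕ) ≤ N + 1 := by omega
    exact_mod_cast this
  have hdist : ∀ x ∈ Icc (0 : ℝ) 1, dist x (rep (c x)) < d := by
    intro x hx
    have e0 : 0 ≤ ((N : ℝ) + 1) * x := mul_nonneg hN0.le hx.1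
    have e1 : ⌊((N : ℝ) + 1) * x⌋₊ ≤ N + 1 := by
      refine Nat.floor_le_of_le ?_
      push_cast
      nlinarith [hx.2]
    have e2 : rep (c x) = ⌊((N : ℝ) + 1) * x⌋₊ / ((N : ℝ) + 1) := by
      simp only [rep, c, min_eq_left e1]
    rw [e2, Real.dist_eq]
    refine lt_of_le_of_lt ?_ hN
    have e3 := Nat.floor_le e0
    have e4 := (Nat.lt_floor_add_one (((N : ℝ) + 1) * x)).le
    have e5 : x - ⌊((N : ℝ) + 1) * x⌋₊ / ((N : ℝ) + 1) =
        (((N : ℝ) + 1) * x - ⌊((N : ℝ) + 1) * x⌋₊) / ((N : ℝ) + 1) := by field_simp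
    rw [e5, abs_div, abs_of_pos hN0, abs_of_nonneg (by linarith)]
    exact div_le_div_of_nonneg_right (by linarith) hN0.le
  refine ⟨N + 2, c, fun a b => max 0 (min M (g (rep a, rep b))), hc, fun a b => le_max_left _ _,
    fun a b => max_le hM0 (min_le_left _ _), ?_⟩
  have hae : ∀ᵐ z ∂(lam.prod lam), z ∈ Icc (0 : ℝ) 1 ×ˢ Icc (0 : ℝ) 1 := by
    unfold lam
    rw [Measure.prod_restrict]
    exact ae_restrict_mem (measurableSet_Icc.prod measurableSet_Icc)
  have hi : Integrable (fun z => ‖L z - g z‖) (lam.prod lam) := ((hBM.int _).sub hg2).norm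
  calc _ ≤ ∫ z, (‖L z - g z‖ + η / 2) ∂(lam.prod lam) := by
        refine integral_mono_ae ((hBM.abs_sub (BM.step hc
          fun a b => max 0 (min M (g (rep a, rep b))))).int _) (hi.add (integrable_const _)) ?_
        filter_upwards [hae] with z hz
        have e1 := hd2 z hz (rep (c z.1), rep (c z.2)) ⟨hrep _, hrep _⟩
          (by rw [Prod.dist_eq]; exact max_lt (hdist _ hz.1) (hdist _ hz.2))
        rw [Real.dist_eq] at e1
        rw [Real.norm_eq_abs]
        have e2 : |L z - max 0 (min M (g (rep (c z.1), rep (c z.2))))| ≤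
            |L z - g (rep (c z.1), rep (c z.2))| := by
          have := h0 z
          have := h1 z
          generalize g (rep (c z.1), rep (c z.2)) = y
          rcases le_total y 0 with hy | hy
          · rw [min_eq_right (hy.trans hM0), max_eq_left hy, abs_of_nonneg (by linarith),
              abs_of_nonneg (by linarith)]
            linarith
          · rcases le_total y M with hy2 | hy2
            · rw [min_eq_right hy2, max_eq_right hy]
            · rw [min_eq_left hy2, max_eq_right hM0, abs_of_nonpos (by linarith),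
                abs_of_nonpos (by linarith)]
              linarith
        have e3 := abs_sub_le (L z) (g z) (g (rep (c z.1), rep (c z.2)))
        linarith
    _ ≤ η := by
        rw [integral_add hi (integrable_const _)]
        simp only [integral_const, probReal_univ, smul_eq_mul, one_mul]
        linarith

def Bd (L : ℝ × ℝ → ℝ) (ν : Measure ℝ) (y : ℝ) : Prop :=
  ∀ S, MeasurableSet S → B L (ν.restrict S) (ν.restrict S) ≤ y * ν.real S

noncomputable def phi (L : ℝ × ℝ → ℝ) (μ : Measure ℝ) : ℝ :=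
  sSup {r : ℝ | ∃ S : Set ℝ, MeasurableSet S ∧ 0 < μ S ∧
    r = (μ S).toReal⁻¹ * B L (μ.restrict S) (μ.restrict S)}

def decs (f : Measure ℝ → ℝ) : Set ℝ :=
  {t : ℝ | ∃ k : ℕ, ∃ ν : Fin k → Measure ℝ, ∃ α : Fin k → ℝ,
    (∀ i, IsProbabilityMeasure (ν i)) ∧ (∀ i, ν i (Set.Icc (0:ℝ) 1)ᶜ = 0) ∧
    (∀ i, 0 ≤ α i) ∧ ∑ i, α i = 1 ∧
    ∑ i, ENNReal.ofReal (α i) • ν i = volume.restrict (Set.Icc (0:ℝ) 1) ∧
    t = ∑ i, α i * f (ν i)}

noncomputable def Phi (L : ℝ × ℝ → ℝ) : ℝ := sInf (decs (phi L))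

lemma phi_le {L : ℝ × ℝ → ℝ} {ν : Measure ℝ} [IsFiniteMeasure ν] {y : ℝ} (h : Bd L ν y)
    (hy : 0 ≤ y) : phi L ν ≤ y := by
  refine Real.sSup_le ?_ hy
  rintro r ⟨S, hS, h0, rfl⟩
  have : 0 < (ν S).toReal := ENNReal.toReal_pos h0.ne' (measure_ne_top _ _)
  rw [inv_mul_le_iff₀ this, mul_comm]
  exact h S hS

lemma bd_const {L : ℝ × ℝ → ℝ} (hL : BM L) {M : ℝ} (hM : ∀ z, L z ≤ M) (hM0 : 0 ≤ M)
    (ν : Measure ℝ) [IsFiniteMeasure ν] : Bd L ν (M * ν.real univ) := by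
  intro S _
  refine (B_le_const hL hM).trans ?_
  simp only [measureReal_restrict_apply_univ]
  exact mul_le_mul_of_nonneg_right (mul_le_mul_of_nonneg_left
    (measureReal_mono (subset_univ _)) hM0) measureReal_nonneg

lemma bd_phi {L : ℝ × ℝ → ℝ} (hL : BM L) {M : ℝ} (hM : ∀ z, L z ≤ M) (hM0 : 0 ≤ M)
    (ν : Measure ℝ) [IsFiniteMeasure ν] : Bd L ν (phi L ν) := by
  intro S hS
  by_cases h0 : ν S = 0
  · rw [Measure.restrict_eq_zero.mpr h0]
    simp [B, Measure.real, h0]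
  · have hp : 0 < (ν S).toReal := ENNReal.toReal_pos h0 (measure_ne_top _ _)
    have : (ν S).toReal⁻¹ * B L (ν.restrict S) (ν.restrict S) ≤ phi L ν := by
      refine le_csSup ⟨M * ν.real univ, ?_⟩ ⟨S, hS, pos_iff_ne_zero.mpr h0, rfl⟩
      rintro r ⟨T, hT, h1, rfl⟩
      have : 0 < (ν T).toReal := ENNReal.toReal_pos h1.ne' (measure_ne_top _ _)
      rw [inv_mul_le_iff₀ this, mul_comm]
      exact bd_const hL hM hM0 ν T hT
    rwa [inv_mul_le_iff₀ hp, mul_comm] at this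

lemma le_phi {L : ℝ × ℝ → ℝ} (hL : BM L) {l M : ℝ} (hl : ∀ z, l ≤ L z) (hM : ∀ z, L z ≤ M)
    (hM0 : 0 ≤ M) (ν : Measure ℝ) [IsProbabilityMeasure ν] : l ≤ phi L ν := by
  have h1 := bd_phi hL hM hM0 ν univ MeasurableSet.univ
  have h2 := B_ge_const (μ := ν) (ν := ν) hL hl
  simp only [Measure.restrict_univ, probReal_univ, mul_one] at h1 h2
  exact h2.trans h1

lemma decs_nonempty (f : Measure ℝ → ℝ) : (decs f).Nonempty :=
  ⟨_, 1, fun _ => lam, fun _ => 1, fun _ => inferInstance, fun _ => by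
    simp [lam, Measure.restrict_apply measurableSet_Icc.compl], fun _ => zero_le_one, by simp,
    by simp [lam], rfl⟩

lemma decs_ge {L : ℝ × ℝ → ℝ} (hL : BM L) {l M : ℝ} (hl : ∀ z, l ≤ L z) (hM : ∀ z, L z ≤ M)
    (hM0 : 0 ≤ M) : ∀ t ∈ decs (phi L), l ≤ t := by
  rintro t ⟨k, ν, α, h1, -, h3, h4, -, rfl⟩
  calc l = ∑ i, α i * l := by rw [← Finset.sum_mul, h4, one_mul]
    _ ≤ _ := Finset.sum_le_sum fun i _ =>
        mul_le_mul_of_nonneg_left (le_phi hL hl hM hM0 (ν i)) (h3 i)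

lemma le_Phi {L : ℝ × ℝ → ℝ} (hL : BM L) {l M : ℝ} (hl : ∀ z, l ≤ L z) (hM : ∀ z, L z ≤ M)
    (hM0 : 0 ≤ M) : l ≤ Phi L :=
  le_csInf (decs_nonempty _) (decs_ge hL hl hM hM0)

lemma Phi_le {L : ℝ × ℝ → ℝ} (hL : BM L) {l M : ℝ} (hl : ∀ z, l ≤ L z) (hM : ∀ z, L z ≤ M)
    (hM0 : 0 ≤ M) {K : Type} [Fintype K] (ρ : K → Measure ℝ) [∀ i, IsFiniteMeasure (ρ i)]
    (hρ : ∑ i, ρ i = lam) (y : K → ℝ) (hy : ∀ i, 0 ≤ y i) (hb : ∀ i, Bd L (ρ i) (y i)) :
    Phi L ≤ ∑ i, y i := by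
  classical
  let α : K → ℝ := fun i => (ρ i).real univ
  let ν : K → Measure ℝ := fun i => if α i = 0 then lam else sm (α i)⁻¹ (ρ i)
  have hα0 : ∀ i, 0 ≤ α i := fun i => measureReal_nonneg
  have hz : ∀ i, α i = 0 → ρ i = 0 := fun i h => by
    rw [← Measure.measure_univ_eq_zero]
    exact (measureReal_eq_zero_iff (measure_ne_top _ _)).mp h
  have hlam : lam (Icc (0 : ℝ) 1)ᶜ = 0 := by
    simp [lam, Measure.restrict_apply measurableSet_Icc.compl]
  have hle : ∀ i, ρ i ≤ lam := fun i => by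
    rw [← hρ]
    exact Finset.single_le_sum (f := ρ) (fun j _ => Measure.zero_le _) (Finset.mem_univ i)
  have p1 : ∀ i, IsProbabilityMeasure (ν i) := fun i => by
    simp only [ν]
    split_ifs with h
    · infer_instance
    · rw [isProbabilityMeasure_iff_real, sm_real (inv_nonneg.mpr (hα0 i))]
      exact inv_mul_cancel₀ h
  have p2 : ∀ i, ν i (Icc (0 : ℝ) 1)ᶜ = 0 := fun i => by
    simp only [ν]
    split_ifs with h
    · exact hlam
    · have : ρ i (Icc (0 : ℝ) 1)ᶜ = 0 := le_antisymm (hlam ▸ hle i _) zero_le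
      simp [sm, this]
  have p3 : ∀ i, ENNReal.ofReal (α i) • ν i = ρ i := fun i => by
    simp only [ν]
    split_ifs with h
    · rw [h, hz i h]; simp
    · rw [sm, smul_smul, ← ENNReal.ofReal_mul (hα0 i), mul_inv_cancel₀ h]; simp
  have p4 : ∑ i, α i = 1 := by
    have : lam.real univ = 1 := probReal_univ
    rw [← this, ← hρ, Measure.real, Measure.finsetSum_apply,
      ENNReal.toReal_sum fun a _ => measure_ne_top _ _]
    rfl
  have p5 : ∀ i, α i * phi L (ν i) ≤ y i := fun i => by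
    by_cases h : α i = 0
    · rw [h, zero_mul]; exact hy i
    · have hp : 0 < α i := lt_of_le_of_ne (hα0 i) (Ne.symm h)
      have hi := inv_nonneg.mpr (hα0 i)
      have hB : Bd L (ν i) ((α i)⁻¹ * y i) := by
        intro S hS
        simp only [ν, if_neg h]
        rw [sm_restrict, B_sm hi hi, sm_real hi]
        have := mul_le_mul_of_nonneg_left (hb i S hS) (mul_nonneg hi hi)
        linarith
      have := p1 i
      have := phi_le hB (mul_nonneg hi (hy i))
      rwa [← le_inv_mul_iff₀ hp]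
  let e := (Fintype.equivFin K).symm
  refine le_trans (csInf_le ⟨l, decs_ge hL hl hM hM0⟩ (a := ∑ i, α i * phi L (ν i))
    ⟨_, fun j => ν (e j), fun j => α (e j), fun j => p1 _, fun j => p2 _, fun j => hα0 _, ?_, ?_,
      ?_⟩) (Finset.sum_le_sum fun i _ => p5 i)
  · rw [e.sum_comp α, p4]
  · rw [e.sum_comp (fun i => ENNReal.ofReal (α i) • ν i)]
    simp only [p3]
    exact hρ
  · exact (e.sum_comp (fun i => α i * phi L (ν i))).symm

lemma exists_mass (ρ : Measure ℝ) [IsFiniteMeasure ρ] [NullSingletonClass ρ] (h : ρ (Icc (0 : ℝ) 1)ᶜ = 0)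
    {t : ℝ} (t0 : 0 ≤ t) (t1 : t ≤ ρ.real univ) :
    ∃ T, MeasurableSet T ∧ ρ.real T = t := by
  have hc := (integrable_const (1 : ℝ) (μ := ρ)).continuous_primitive (-1)
  have e : ∀ b : ℝ, -1 ≤ b → ∫ _ in (-1 : ℝ)..b, (1 : ℝ) ∂ρ = ρ.real (Ioc (-1) b) := by
    intro b hb
    rw [intervalIntegral.integral_of_le hb]
    simp
  have e1 : ρ.real (Ioc (-1) 1) = ρ.real univ := by
    refine measureReal_congr ?_
    refine ae_eq_univ.mpr (measure_mono_null (compl_subset_compl.mpr ?_) h)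
    exact fun x hx => ⟨by linarith [hx.1], hx.2⟩
  obtain ⟨b, hb, hb2⟩ := intermediate_value_Icc (show (-1 : ℝ) ≤ 1 by norm_num) hc.continuousOn
    (show t ∈ Icc _ _ from ⟨by simpa using t0, by rw [e 1 (by norm_num), e1]; exact t1⟩)
  exact ⟨Ioc (-1) b, measurableSet_Ioc, by rw [← e b hb.1]; exact hb2⟩

lemma disc_form {L : ℝ × ℝ → ℝ} (hL : BM L) {l M : ℝ} (hl : ∀ z, l ≤ L z) (hM : ∀ z, L z ≤ M)
    (hM0 : 0 ≤ M) {r : ℕ} {c : ℝ → Fin r} (hc : Measurable c) (Lb : Fin r → Fin r → ℝ)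
    (hLb : ∀ a b, Lb a b ≤ M) {η α ξ : ℝ}
    (hE : B (fun z => |L z - Lb (c z.1) (c z.2)|) lam lam ≤ η) (hα : 0 < α) (hξ : 0 < ξ)
    (hMξ : M * ξ ≤ l) (ν : Measure ℝ) [IsProbabilityMeasure ν] (hν : sm α ν ≤ lam)
    (t : Fin r → ℝ) (t0 : ∀ a, 0 ≤ t a) (t1 : ∀ a, t a ≤ ν.real (c ⁻¹' {a})) :
    ∑ a, ∑ b, t a * t b * Lb a b ≤ (phi L ν + η / (α ^ 2 * ξ)) * ∑ a, t a := by
  have hm : ∀ a, MeasurableSet (c ⁻¹' {a}) := fun a => hc (measurableSet_singleton a)
  have hη : 0 ≤ η := (B_nonneg fun z => abs_nonneg _).trans hE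
  have hs0 : 0 ≤ ∑ a, t a := Finset.sum_nonneg fun a _ => t0 a
  have hq : 0 ≤ η / (α ^ 2 * ξ) := by positivity
  have hlp := le_phi hL hl hM hM0 ν
  by_cases hcase : ∑ a, t a ≤ ξ
  · calc _ ≤ ∑ a, ∑ b, t a * t b * M := Finset.sum_le_sum fun a _ => Finset.sum_le_sum fun b _ =>
          mul_le_mul_of_nonneg_left (hLb a b) (mul_nonneg (t0 a) (t0 b))
      _ = M * (∑ a, t a) * ∑ a, t a := by
          rw [mul_assoc, Finset.sum_mul_sum, Finset.mul_sum]
          refine Finset.sum_congr rfl fun a _ => ?_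
          rw [Finset.mul_sum]
          exact Finset.sum_congr rfl fun b _ => by ring
      _ ≤ _ := mul_le_mul_of_nonneg_right
          (by linarith [mul_le_mul_of_nonneg_left hcase hM0]) hs0
  have hac : ν ≪ lam := by
    refine Measure.AbsolutelyContinuous.mk fun S _ h0 => ?_
    have h1 : sm α ν S = 0 := le_antisymm (h0 ▸ hν S) zero_le
    simp only [sm, Measure.smul_apply, smul_eq_mul, mul_eq_zero, ENNReal.ofReal_eq_zero] at h1
    exact h1.resolve_left (not_le.mpr hα)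
  haveI : NullSingletonClass ν := ⟨fun x => hac (measure_singleton x)⟩
  have hsupp : ν (Icc (0 : ℝ) 1)ᶜ = 0 :=
    hac (by simp [lam, Measure.restrict_apply measurableSet_Icc.compl])
  have hex : ∀ a, ∃ T, MeasurableSet T ∧ (ν.restrict (c ⁻¹' {a})).real T = t a := fun a =>
    exists_mass _ (le_antisymm (hsupp ▸ Measure.restrict_le_self _) zero_le) (t0 a)
      (by rw [measureReal_restrict_apply_univ]; exact t1 a)
  choose T hT1 hT2 using hex
  let S : Set ℝ := ⋃ a, T a ∩ c ⁻¹' {a}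
  have hS : MeasurableSet S := MeasurableSet.iUnion fun a => (hT1 a).inter (hm a)
  have hSa : ∀ a, (ν.restrict S).real (c ⁻¹' {a}) = t a := by
    intro a
    rw [← hT2 a, measureReal_restrict_apply (hm a), measureReal_restrict_apply (hT1 a)]
    congr 1
    ext x
    simp only [S, mem_inter_iff, mem_preimage, mem_singleton_iff, mem_iUnion]
    constructor
    · rintro ⟨h1, b, h2, h3⟩
      exact ⟨by rw [← h1, h3]; exact h2, h1⟩
    · rintro ⟨h1, h2⟩
      exact ⟨h2, a, h1, h2⟩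
  have hSt : ν.real S = ∑ a, t a := by
    rw [← measureReal_restrict_apply_univ, ← sum_cells_real hc]
    simp only [hSa]
  have h1 := B_step (μ := ν.restrict S) (ν := ν.restrict S) hc Lb
  simp only [hSa] at h1
  have hEB := hL.abs_sub (BM.step hc Lb)
  have h2 : B (fun z => Lb (c z.1) (c z.2)) (ν.restrict S) (ν.restrict S) ≤
      B L (ν.restrict S) (ν.restrict S) +
      B (fun z => |L z - Lb (c z.1) (c z.2)|) (ν.restrict S) (ν.restrict S) := by
    rw [← B_add hL hEB]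
    exact B_mono (BM.step hc Lb) (hL.add hEB) fun z => by
      linarith [neg_abs_le (L z - Lb (c z.1) (c z.2))]
  have h3 := bd_phi hL hM hM0 ν S hS
  have h4 : α * α * B (fun z => |L z - Lb (c z.1) (c z.2)|) (ν.restrict S) (ν.restrict S) ≤ η := by
    rw [← B_sm hα.le hα.le]
    have : sm α (ν.restrict S) ≤ lam := by
      rw [← sm_restrict]; exact Measure.restrict_le_self.trans hν
    exact (B_mono_meas hEB (fun z => abs_nonneg _) this this).trans hE
  have h5 : B (fun z => |L z - Lb (c z.1) (c z.2)|) (ν.restrict S) (ν.restrict S) ≤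
      η / (α ^ 2 * ξ) * ∑ a, t a := by
    calc _ ≤ η / (α * α) := by rw [le_div_iff₀ (by positivity)]; linarith
      _ = η / (α ^ 2 * ξ) * ξ := by field_simp
      _ ≤ _ := mul_le_mul_of_nonneg_left (not_le.mp hcase).le hq
  rw [hSt] at h3
  rw [← h1, add_mul]
  linarith

end Pool.Agent.H.MP_eaf82e_pr
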