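import Pool.Agent.H.MP_eaf82e_pr.E
import Pool.Agent.H.MP_eaf82e_pr.D

set_option autoImplicit false

namespace Pool.Agent.H.MP_eaf82e_pr

open MeasureTheory Set ProbabilityTheory

noncomputable def mun (n : ℕ) : Measure (Fin n → ℝ) := Measure.pi fun _ => lam

instance (n : ℕ) : IsProbabilityMeasure (mun n) := by unfold mun; infer_instance

variable {n : ℕ}

lemma pair_map {u v : Fin n} (h : u ≠ v) :
    (mun n).map (fun x => (x u, x v)) = lam.prod lam := by
  have h1 : iIndepFun (fun (i : Fin n) (ω : Fin n → ℝ) => id (ω i)) (mun n) :=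
    iIndepFun_pi fun _ => aemeasurable_id
  have h2 := (h1.indepFun h).map_prod_eq_prod_map_map
    (measurable_pi_apply u).aemeasurable (measurable_pi_apply v).aemeasurable
  have h3 : ∀ w : Fin n, (mun n).map (fun x => x w) = lam := fun w =>
    (measurePreserving_eval (fun _ : Fin n => lam) w).map_eq
  rw [h3, h3] at h2
  exact h2

lemma BM.pair_int {F : ℝ × ℝ → ℝ} (hF : BM F) (u v : Fin n) :
    Integrable (fun x : Fin n → ℝ => F (x u, x v)) (mun n) := by
  obtain ⟨h1, M, h2⟩ := hF
  exact Integrable.of_bound (h1.comp ((measurable_pi_apply u).prodMk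
    (measurable_pi_apply v))).aestronglyMeasurable M (ae_of_all _ fun x => h2 _)

lemma pair_integral {F : ℝ × ℝ → ℝ} (hF : BM F) {u v : Fin n} (h : u ≠ v) :
    ∫ x, F (x u, x v) ∂(mun n) = B F lam lam := by
  unfold B
  rw [← pair_map h, integral_map ((measurable_pi_apply u).prodMk
    (measurable_pi_apply v)).aemeasurable hF.1.aestronglyMeasurable]

lemma off_int {F : ℝ × ℝ → ℝ} (hF : BM F) (u v : Fin n) :
    Integrable (fun x : Fin n → ℝ => if u = v then 0 else F (x u, x v)) (mun n) := by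
  split_ifs
  · exact integrable_const _
  · exact hF.pair_int u v

lemma off_markov {F : ℝ × ℝ → ℝ} (hF : BM F) (h0 : ∀ z, 0 ≤ F z) {t : ℝ} (ht : 0 < t) :
    (mun n).real {x | t ≤ ∑ u, ∑ v, (if u = v then 0 else F (x u, x v))} ≤
      n ^ 2 * B F lam lam / t := by
  rw [le_div_iff₀' ht]
  refine (mul_meas_ge_le_integral_of_nonneg (ae_of_all _ fun x => Finset.sum_nonneg fun u _ =>
    Finset.sum_nonneg fun v _ => by split_ifs; exacts [le_rfl, h0 _])
    (integrable_finsetSum _ fun u _ => integrable_finsetSum _ fun v _ => off_int hF u v) t).trans ?_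
  rw [integral_finsetSum _ fun u _ => integrable_finsetSum _ fun v _ => off_int hF u v]
  calc _ ≤ ∑ u : Fin n, ∑ v : Fin n, B F lam lam := by
        refine Finset.sum_le_sum fun u _ => ?_
        rw [integral_finsetSum _ fun v _ => off_int hF u v]
        refine Finset.sum_le_sum fun v _ => ?_
        split_ifs with h
        · simpa using B_nonneg h0
        · exact (pair_integral hF h).le
    _ = _ := by simp; ring

noncomputable def cnt (T : Set ℝ) (x : Fin n → ℝ) : ℝ := ∑ u, T.indicator 1 (x u)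

lemma cnt_sq {T : Set ℝ} (hT : MeasurableSet T) :
    Integrable (fun x : Fin n → ℝ => (cnt T x - n * lam.real T) ^ 2) (mun n) ∧
    ∫ x, (cnt T x - n * lam.real T) ^ 2 ∂(mun n) ≤ n := by
  let g : ℝ → ℝ := fun y => T.indicator 1 y - lam.real T
  have hg : Measurable g := (measurable_one.indicator hT).sub_const _
  have hp0 : 0 ≤ lam.real T := measureReal_nonneg
  have hp1 : lam.real T ≤ 1 := measureReal_le_one
  have hg1 : ∀ y, |g y| ≤ 1 := fun y => by
    simp only [g]
    by_cases h : y ∈ T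
    · rw [indicator_of_mem h, abs_le]; constructor <;> simp <;> linarith
    · rw [indicator_of_notMem h, abs_le]; constructor <;> linarith
  have hb : ∀ z : ℝ × ℝ, |g z.1 * g z.2| ≤ 1 := fun z => by
    rw [abs_mul]; exact mul_le_one₀ (hg1 _) (abs_nonneg _) (hg1 _)
  have hF : BM (fun z => g z.1 * g z.2) :=
    ⟨(hg.comp measurable_fst).mul (hg.comp measurable_snd), 1, hb⟩
  have hB : B (fun z => g z.1 * g z.2) lam lam = 0 := by
    unfold B
    rw [integral_prod_mul]
    have : ∫ y, g y ∂lam = 0 := by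
      simp only [g]
      rw [integral_sub ((integrable_const _).indicator hT) (integrable_const _),
        integral_indicator_one hT]
      simp
    rw [this, zero_mul]
  have e : ∀ x : Fin n → ℝ, (cnt T x - n * lam.real T) ^ 2 = ∑ u, ∑ v, g (x u) * g (x v) := by
    intro x
    rw [← Finset.sum_mul_sum, sq]
    simp [g, cnt, Finset.sum_sub_distrib]
  simp only [e]
  have hi : ∀ u v : Fin n, Integrable (fun x : Fin n → ℝ => g (x u) * g (x v)) (mun n) :=
    fun u v => hF.pair_int u v
  refine ⟨integrable_finsetSum _ fun u _ => integrable_finsetSum _ fun v _ => hi u v, ?_⟩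
  rw [integral_finsetSum _ fun u _ => integrable_finsetSum _ fun v _ => hi u v]
  calc _ ≤ ∑ u : Fin n, (1 : ℝ) := by
        refine Finset.sum_le_sum fun u _ => ?_
        rw [integral_finsetSum _ fun v _ => hi u v, Finset.sum_eq_single u]
        · calc _ ≤ ∫ _, (1 : ℝ) ∂(mun n) := integral_mono (hi u u) (integrable_const _)
                fun x => (le_abs_self _).trans (hb (x u, x u))
            _ = 1 := by simp
        · intro v _ hv
          exact (pair_integral hF hv.symm).trans hB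
        · simp
    _ = n := by simp

lemma cnt_low {T : Set ℝ} (hT : MeasurableSet T) {δ : ℝ} (hδ : 0 < δ) (hn : 0 < n) :
    (mun n).real {x | cnt T x < (1 - δ) * n * lam.real T} ≤ (δ ^ 2 * lam.real T ^ 2)⁻¹ / n := by
  have hn' : (0 : ℝ) < n := by exact_mod_cast hn
  rcases (measureReal_nonneg (μ := lam) (s := T)).eq_or_lt with h | h
  · have : {x : Fin n → ℝ | cnt T x < (1 - δ) * n * lam.real T} = ∅ := by
      ext x
      simp only [← h, mul_zero, mem_ofPred_eq, mem_empty_iff_false, iff_false, not_lt]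
      exact Finset.sum_nonneg fun u _ => indicator_nonneg (fun _ _ => zero_le_one) _
    rw [this, measureReal_empty]
    positivity
  obtain ⟨h1, h2⟩ := cnt_sq (n := n) hT
  have h3 := (mul_meas_ge_le_integral_of_nonneg (ae_of_all _ fun x => sq_nonneg _) h1
    ((δ * n * lam.real T) ^ 2)).trans h2
  have h4 : (mun n).real {x | cnt T x < (1 - δ) * n * lam.real T} ≤
      (mun n).real {x | (δ * n * lam.real T) ^ 2 ≤ (cnt T x - n * lam.real T) ^ 2} := by
    refine measureReal_mono fun x hx => ?_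
    simp only [mem_ofPred_eq] at hx ⊢
    rw [← neg_sq (cnt T x - _)]
    exact pow_le_pow_left₀ (by positivity) (by linarith) 2
  refine h4.trans ?_
  rw [← le_div_iff₀' (by positivity)] at h3
  refine h3.trans (le_of_eq ?_)
  field_simp

lemma int_cells {r : ℕ} {c : ℝ → Fin r} (hc : Measurable c) (G : (Fin n → Fin r) → ℝ) :
    ∫ x, G (fun u => c (x u)) ∂(mun n) =
      ∑ κ, (mun n).real ((fun x u => c (x u)) ⁻¹' {κ}) * G κ := by
  have hm : Measurable (fun (x : Fin n → ℝ) u => c (x u)) :=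
    measurable_pi_lambda _ fun u => hc.comp (measurable_pi_apply u)
  rw [← integral_map hm.aemeasurable (measurable_of_countable G).aestronglyMeasurable,
    integral_fintype Integrable.of_finite]
  refine Finset.sum_congr rfl fun κ _ => ?_
  rw [map_measureReal_apply hm (measurableSet_singleton κ), smul_eq_mul]

lemma bd_piece {L : ℝ × ℝ → ℝ} (hL : BM L) {M : ℝ} (hM : ∀ z, L z ≤ M)
    (hM0 : 0 ≤ M) {r : ℕ} {c : ℝ → Fin r} (hc : Measurable c) (Lb : Fin r → Fin r → ℝ)
    (κ : Fin n → Fin r) (A : Fin n → Fin n → ℝ) (I : Finset (Fin n)) (h : Fin r → ℝ)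
    (h0 : ∀ a, 0 ≤ h a) (h1 : ∀ a, h a ≤ (lam.real (c ⁻¹' {a}))⁻¹) {a θ : ℝ} (ha : 0 ≤ a)
    (hθ : 0 ≤ θ)
    (hA : ∀ S ⊆ I, ∑ u ∈ S, ∑ v ∈ S, (if u = v then 0 else A u v) ≤ θ * S.card)
    (hF : ∑ u, ∑ v, (if u = v then 0 else |A u v - Lb (κ u) (κ v)| +
      (lam.real (c ⁻¹' {κ u}))⁻¹ * (lam.real (c ⁻¹' {κ v}))⁻¹ *
        B (fun z => |L z - Lb (c z.1) (c z.2)|) (lam.restrict (c ⁻¹' {κ u}))
          (lam.restrict (c ⁻¹' {κ v}))) ≤ 1) :
    Bd L (∑ u ∈ I, sm (a * h (κ u)) (lam.restrict (c ⁻¹' {κ u}))) (a * (θ + 1 + M)) := by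
  intro S hS
  have hm : ∀ a, MeasurableSet (c ⁻¹' {a}) := fun a => hc (measurableSet_singleton a)
  set m : Fin r → Measure ℝ := fun b => (lam.restrict (c ⁻¹' {b})).restrict S with hmdef
  let t : Fin n → ℝ := fun u => h (κ u) * (m (κ u)).real univ
  have hmle : ∀ b, (m b).real univ ≤ lam.real (c ⁻¹' {b}) := fun b => by
    simp only [m]
    rw [measureReal_restrict_apply_univ, measureReal_restrict_apply hS]
    exact measureReal_mono inter_subset_right
  have t0 : ∀ u, 0 ≤ t u := fun u => mul_nonneg (h0 _) measureReal_nonneg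
  have t1 : ∀ u, t u ≤ 1 := fun u =>
    (mul_le_mul (h1 _) (hmle _) measureReal_nonneg (inv_nonneg.mpr measureReal_nonneg)).trans
      (inv_mul_le_one)
  have e1 : (∑ u ∈ I, sm (a * h (κ u)) (lam.restrict (c ⁻¹' {κ u}))).restrict S =
      ∑ u ∈ I, sm (a * h (κ u)) (m (κ u)) := by
    ext T hT
    simp only [Measure.restrict_apply hT, Measure.finsetSum_apply, m, sm, Measure.smul_apply,
      Measure.restrict_apply (hT.inter hS)]
  have e2 : (∑ u ∈ I, sm (a * h (κ u)) (m (κ u))).real univ = a * ∑ u ∈ I, t u := by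
    rw [Measure.real, Measure.finsetSum_apply, ENNReal.toReal_sum fun a _ => measure_ne_top _ _,
      Finset.mul_sum]
    refine Finset.sum_congr rfl fun u _ => ?_
    rw [← Measure.real, sm_real (mul_nonneg ha (h0 _)), mul_assoc]
  rw [← measureReal_restrict_apply_univ, e1, e2]
  have hτ : 0 ≤ ∑ u ∈ I, t u := Finset.sum_nonneg fun u _ => t0 u
  by_cases hcase : ∑ u ∈ I, t u ≤ 1
  · refine (B_le_const hL hM).trans ?_
    rw [e2]
    refine mul_le_mul_of_nonneg_right ?_ (mul_nonneg ha hτ)
    nlinarith [mul_le_mul_of_nonneg_left hcase (mul_nonneg ha hM0), mul_nonneg ha hθ]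
  rw [B_sum hL]
  set E : ℝ × ℝ → ℝ := fun z => |L z - Lb (c z.1) (c z.2)| with hE
  have hEB : BM E := hL.abs_sub (BM.step hc Lb)
  set Fv : Fin n → Fin n → ℝ := fun u v => if u = v then 0 else |A u v - Lb (κ u) (κ v)| +
      (lam.real (c ⁻¹' {κ u}))⁻¹ * (lam.real (c ⁻¹' {κ v}))⁻¹ *
        B E (lam.restrict (c ⁻¹' {κ u})) (lam.restrict (c ⁻¹' {κ v})) with hFv
  have hF0 : ∀ u v, 0 ≤ Fv u v := fun u v => by
    simp only [Fv]
    split_ifs
    · exact le_rfl
    · exact add_nonneg (abs_nonneg _) (mul_nonneg (mul_nonneg (inv_nonneg.mpr measureReal_nonneg)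
        (inv_nonneg.mpr measureReal_nonneg)) (B_nonneg fun z => abs_nonneg _))
  have key : ∀ u v, B L (sm (a * h (κ u)) (m (κ u))) (sm (a * h (κ v)) (m (κ v))) ≤
      a * a * ((if u = v then 0 else t u * t v * A u v) + Fv u v + if u = v then M * t u else 0) := by
    intro u v
    rw [B_sm (mul_nonneg ha (h0 _)) (mul_nonneg ha (h0 _)),
      show a * h (κ u) * (a * h (κ v)) * B L (m (κ u)) (m (κ v)) =
        a * a * (h (κ u) * h (κ v) * B L (m (κ u)) (m (κ v))) by ring]
    refine mul_le_mul_of_nonneg_left ?_ (mul_nonneg ha ha)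
    have hh := mul_nonneg (h0 (κ u)) (h0 (κ v))
    by_cases huv : u = v
    · subst huv
      simp only [Fv, if_true, zero_add]
      refine (mul_le_mul_of_nonneg_left (B_le_const hL hM) hh).trans ?_
      have := mul_le_mul_of_nonneg_left (t1 u) (mul_nonneg hM0 (t0 u))
      simp only [t] at this ⊢
      linarith
    simp only [Fv, if_neg huv, add_zero]
    have s1 : B L (m (κ u)) (m (κ v)) ≤ B (fun z => Lb (c z.1) (c z.2)) (m (κ u)) (m (κ v)) +
        B E (m (κ u)) (m (κ v)) := by
      rw [← B_add (BM.step hc Lb) hEB]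
      exact B_mono hL ((BM.step hc Lb).add hEB) fun z => by
        simp only [E]
        linarith [le_abs_self (L z - Lb (c z.1) (c z.2))]
    have hz : ∀ b b', b' ≠ b → (m b).real (c ⁻¹' {b'}) = 0 := fun b b' hb => by
      simp only [m]
      rw [measureReal_restrict_apply (hm _), measureReal_restrict_apply ((hm _).inter hS)]
      have : c ⁻¹' {b'} ∩ S ∩ c ⁻¹' {b} = ∅ := by
        ext x
        simp only [mem_inter_iff, mem_preimage, mem_singleton_iff, mem_empty_iff_false, iff_false]
        rintro ⟨⟨h1, -⟩, h2⟩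
        exact hb (h1.symm.trans h2)
      rw [this, measureReal_empty]
    have hone : ∀ b, (m b).real (c ⁻¹' {b}) = (m b).real univ := fun b => by
      rw [← sum_cells_real hc, Finset.sum_eq_single b (fun b' _ hb => hz b b' hb) (by simp)]
    have s2 : B (fun z => Lb (c z.1) (c z.2)) (m (κ u)) (m (κ v)) =
        (m (κ u)).real univ * (m (κ v)).real univ * Lb (κ u) (κ v) := by
      rw [B_step hc, Finset.sum_eq_single (κ u), Finset.sum_eq_single (κ v), hone, hone]
      · intro b _ hb; rw [hz _ _ hb]; simp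
      · simp
      · intro b _ hb; rw [hz _ _ hb]; simp
      · simp
    have s3 : B E (m (κ u)) (m (κ v)) ≤
        B E (lam.restrict (c ⁻¹' {κ u})) (lam.restrict (c ⁻¹' {κ v})) :=
      B_mono_meas hEB (fun z => abs_nonneg _) Measure.restrict_le_self Measure.restrict_le_self
    have s4 : h (κ u) * h (κ v) * B E (m (κ u)) (m (κ v)) ≤
        (lam.real (c ⁻¹' {κ u}))⁻¹ * (lam.real (c ⁻¹' {κ v}))⁻¹ *
        B E (lam.restrict (c ⁻¹' {κ u})) (lam.restrict (c ⁻¹' {κ v})) :=
      mul_le_mul (mul_le_mul (h1 _) (h1 _) (h0 _) (inv_nonneg.mpr measureReal_nonneg)) s3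
        (B_nonneg fun z => abs_nonneg _) (mul_nonneg (inv_nonneg.mpr measureReal_nonneg)
        (inv_nonneg.mpr measureReal_nonneg))
    have s5 : t u * t v * Lb (κ u) (κ v) ≤ t u * t v * A u v + |A u v - Lb (κ u) (κ v)| := by
      have q0 := mul_nonneg (t0 u) (t0 v)
      have q1 : t u * t v ≤ 1 := mul_le_one₀ (t1 u) (t0 v) (t1 v)
      have := neg_abs_le (A u v - Lb (κ u) (κ v))
      have := abs_nonneg (A u v - Lb (κ u) (κ v))
      nlinarith
    have s6 := mul_le_mul_of_nonneg_left s1 hh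
    rw [s2] at s6
    simp only [t] at s5 ⊢
    linarith
  refine (Finset.sum_le_sum fun u _ => Finset.sum_le_sum fun v _ => key u v).trans ?_
  simp only [← Finset.mul_sum, Finset.sum_add_distrib]
  have f1 := multi_affine A θ I hA t t0 t1
  have f2 : ∑ u ∈ I, ∑ v ∈ I, Fv u v ≤ 1 := by
    refine le_trans ?_ hF
    refine (Finset.sum_le_sum fun u _ => Finset.sum_le_sum_of_subset_of_nonneg
      (Finset.subset_univ I) fun v _ _ => hF0 u v).trans
      (Finset.sum_le_sum_of_subset_of_nonneg (Finset.subset_univ I) fun u _ _ =>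
        Finset.sum_nonneg fun v _ => hF0 u v)
  have f3 : ∑ u ∈ I, ∑ v ∈ I, (if u = v then M * t u else 0) = M * ∑ u ∈ I, t u := by
    rw [Finset.mul_sum]
    exact Finset.sum_congr rfl fun u hu => by simp [hu]
  rw [f3]
  have := mul_nonneg ha ha
  have hc' := (not_le.mp hcase).le
  calc _ ≤ a * a * (θ * ∑ u ∈ I, t u + ∑ u ∈ I, t u + M * ∑ u ∈ I, t u) :=
        mul_le_mul_of_nonneg_left (by linarith) this
    _ = _ := by ring

end Pool.Agent.H.MP_eaf82e_pr
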