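import Pool.Agent.H.MP_eaf82e_pr.F

set_option autoImplicit false

namespace Pool.Agent.H.MP_eaf82e_pr

open MeasureTheory Set

variable {n : ℕ}

def Nice (L : ℝ × ℝ → ℝ) (θ : ℝ) (k : ℕ) (x : Fin n → ℝ) : Prop :=
  ∃ f : Fin n → ℕ, (∀ u, f u < k) ∧ ∀ j, ∀ S ⊆ Finset.univ.filter (fun u => f u = j),
    ∑ u ∈ S, ∑ v ∈ S, (if u = v then 0 else L (x u, x v)) ≤ θ * S.card

lemma sm_add {a b : ℝ} (ha : 0 ≤ a) (hb : 0 ≤ b) (μ : Measure ℝ) :
    sm (a + b) μ = sm a μ + sm b μ := by
  simp [sm, ENNReal.ofReal_add ha hb, add_smul]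

lemma sm_sum {K : Type} (A : Finset K) (a : K → ℝ) (ha : ∀ i, 0 ≤ a i) (μ : Measure ℝ) :
    sm (∑ i ∈ A, a i) μ = ∑ i ∈ A, sm (a i) μ := by
  simp [sm, ENNReal.ofReal_sum_of_nonneg fun i _ => ha i, Finset.sum_smul]

lemma real_sum {K : Type} (A : Finset K) (μ : K → Measure ℝ) [∀ i, IsFiniteMeasure (μ i)]
    (S : Set ℝ) : (∑ i ∈ A, μ i).real S = ∑ i ∈ A, (μ i).real S := by
  rw [Measure.real, Measure.finsetSum_apply, ENNReal.toReal_sum fun a _ => measure_ne_top _ _]
  rfl

lemma real_pre {r : ℕ} {c : ℝ → Fin r} (hc : Measurable c) (T : Finset (Fin r)) :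
    lam.real (c ⁻¹' (T : Set (Fin r))) = ∑ b ∈ T, lam.real (c ⁻¹' {b}) := by
  rw [← measureReal_biUnion_finset (fun a _ b _ h => Set.disjoint_left.mpr
    fun x h1 h2 => h (h1.symm.trans h2)) (fun a _ => hc (measurableSet_singleton a))]
  congr 1
  ext x
  simp

lemma lower_core {L : ℝ × ℝ → ℝ} (hL : Measurable L) {l M : ℝ} (hl0 : 0 ≤ l) (hl : ∀ z, l ≤ L z)
    (hM : ∀ z, L z ≤ M) (hn : 0 < n) {θ η : ℝ} (hθ : 0 ≤ θ) (hη : 0 < η) (k : ℕ)
    (hN : 2 * η ≤ (mun n).real {x | Nice L θ k x}) :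
    Phi L ≤ k * (θ + 1 + M) / n + M / (η * √n) := by
  classical
  have h0 : ∀ z, 0 ≤ L z := fun z => hl0.trans (hl z)
  have hM0 : 0 ≤ M := (h0 0).trans (hM 0)
  have hLB := BM.of_bounds hL h0 hM
  have hn' : (0 : ℝ) < n := by exact_mod_cast hn
  obtain ⟨r, c, Lb, hc, -, -, hE⟩ := step_approx hL h0 hM (η := η / (2 * n ^ 2)) (by positivity)
  have hm : ∀ a, MeasurableSet (c ⁻¹' {a}) := fun a => hc (measurableSet_singleton a)
  set E : ℝ × ℝ → ℝ := fun z => |L z - Lb (c z.1) (c z.2)| with hEdef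
  have hEB : BM E := hLB.abs_sub (BM.step hc Lb)
  let p : Fin r → ℝ := fun b => lam.real (c ⁻¹' {b})
  have p0 : ∀ b, 0 ≤ p b := fun b => measureReal_nonneg
  let ep : Fin r → Fin r → ℝ := fun a b =>
    B E (lam.restrict (c ⁻¹' {a})) (lam.restrict (c ⁻¹' {b}))
  have ep0 : ∀ a b, 0 ≤ ep a b := fun a b => B_nonneg fun z => abs_nonneg _
  let o2 : Fin r → Fin r → ℝ := fun a b => (p a)⁻¹ * (p b)⁻¹ * ep a b
  let F : ℝ × ℝ → ℝ := fun z => E z + o2 (c z.1) (c z.2)
  have hFB : BM F := hEB.add (BM.step hc o2)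
  have hF0 : ∀ z, 0 ≤ F z := fun z => add_nonneg (abs_nonneg _)
    (mul_nonneg (mul_nonneg (inv_nonneg.mpr (p0 _)) (inv_nonneg.mpr (p0 _))) (ep0 _ _))
  have hBF : B F lam lam ≤ η / n ^ 2 := by
    have e1 : B E lam lam = ∑ a, ∑ b, ep a b := by
      have := B_sum hEB Finset.univ Finset.univ (fun a => lam.restrict (c ⁻¹' {a}))
        (fun a => lam.restrict (c ⁻¹' {a}))
      simpa only [sum_cells hc] using this
    have e2 : B (fun z => o2 (c z.1) (c z.2)) lam lam ≤ ∑ a, ∑ b, ep a b := by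
      rw [B_step hc]
      refine Finset.sum_le_sum fun a _ => Finset.sum_le_sum fun b _ => ?_
      have q1 : p a * (p a)⁻¹ ≤ 1 := mul_inv_le_one
      have q2 : p b * (p b)⁻¹ ≤ 1 := mul_inv_le_one
      calc p a * p b * o2 a b = (p a * (p a)⁻¹) * (p b * (p b)⁻¹) * ep a b := by
            simp only [o2]; ring
        _ ≤ 1 * ep a b := mul_le_mul_of_nonneg_right (mul_le_one₀ q1
            (mul_nonneg (p0 _) (inv_nonneg.mpr (p0 _))) q2) (ep0 _ _)
        _ = _ := one_mul _
    rw [B_add hEB (BM.step hc o2)]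
    have : η / n ^ 2 = η / (2 * n ^ 2) + η / (2 * n ^ 2) := by ring
    linarith
  have hbad : (mun n).real {x | 1 ≤ ∑ u, ∑ v, (if u = v then 0 else F (x u, x v))} ≤ η := by
    refine (off_markov hFB hF0 one_pos).trans ?_
    rw [div_one, ← le_div_iff₀' (by positivity)]
    exact hBF
  let cx : (Fin n → ℝ) → Fin n → Fin r := fun x u => c (x u)
  let gk : (Fin n → Fin r) → Prop := fun κ => ∃ x, cx x = κ ∧ Nice L θ k x ∧
    ∑ u, ∑ v, (if u = v then 0 else F (x u, x v)) ≤ 1
  let π : (Fin n → Fin r) → ℝ := fun κ => (mun n).real (cx ⁻¹' {κ})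
  have π0 : ∀ κ, 0 ≤ π κ := fun κ => measureReal_nonneg
  let P : ℝ := ∑ κ, π κ * (if gk κ then 1 else 0)
  have hcx : Measurable cx := measurable_pi_lambda _ fun u => hc.comp (measurable_pi_apply u)
  have hP : η ≤ P := by
    have e1 : P = (mun n).real (cx ⁻¹' {κ | gk κ}) := by
      rw [← integral_indicator_one (hcx (MeasurableSet.of_discrete))]
      refine (int_cells hc fun κ => if gk κ then 1 else 0).symm.trans ?_
      refine integral_congr_ae (ae_of_all _ fun x => ?_)
      simp only [indicator, mem_preimage, mem_ofPred_eq, Pi.one_apply, cx]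
    have e2 : (mun n).real {x | Nice L θ k x} ≤ (mun n).real (cx ⁻¹' {κ | gk κ}) +
        (mun n).real {x | 1 ≤ ∑ u, ∑ v, (if u = v then 0 else F (x u, x v))} := by
      refine le_trans (measureReal_mono fun x hx => ?_) (measureReal_union_le _ _)
      by_cases h : ∑ u, ∑ v, (if u = v then 0 else F (x u, x v)) ≤ 1
      · exact Or.inl ⟨x, rfl, hx, h⟩
      · exact Or.inr (not_le.mp h).le
    linarith
  have hP0 : 0 < P := hη.trans_le hP
  let a : (Fin n → Fin r) → ℝ := fun κ => π κ * (if gk κ then 1 else 0) / (P * n)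
  have a0 : ∀ κ, 0 ≤ a κ := fun κ => by
    have := π0 κ
    simp only [a]
    split_ifs <;> positivity
  have a1 : ∑ κ, a κ = 1 / n := by
    simp only [a]
    rw [← Finset.sum_div]
    change P / (P * n) = _
    field_simp
  let N : (Fin n → Fin r) → Fin r → ℝ := fun κ b => ∑ u, if κ u = b then 1 else 0
  have N0 : ∀ κ b, 0 ≤ N κ b := fun κ b => Finset.sum_nonneg fun u _ => by
    split_ifs <;> norm_num
  let q : Fin r → ℝ := fun b => ∑ κ, a κ * N κ b
  have q0 : ∀ b, 0 ≤ q b := fun b => Finset.sum_nonneg fun κ _ => mul_nonneg (a0 _) (N0 _ _)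
  let h : Fin r → ℝ := fun b => min (p b)⁻¹ (q b)⁻¹
  have hh0 : ∀ b, 0 ≤ h b := fun b => le_min (inv_nonneg.mpr (p0 _)) (inv_nonneg.mpr (q0 _))
  have hq1 : ∀ b, h b * q b ≤ 1 := fun b =>
    (mul_le_mul_of_nonneg_right (min_le_right _ _) (q0 b)).trans inv_mul_le_one
  have hpiece : ∀ κ, ∃ f : Fin n → ℕ, (gk κ → ∀ u, f u < k) ∧ ∀ j,
      Bd L (∑ u ∈ Finset.univ.filter (fun u => f u = j),
        sm (a κ * h (κ u)) (lam.restrict (c ⁻¹' {κ u}))) (a κ * (θ + 1 + M)) := by
    intro κ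
    by_cases hg : gk κ
    · obtain ⟨x, rfl, ⟨f, hf1, hf2⟩, hx⟩ := id hg
      exact ⟨f, fun _ => hf1, fun j => bd_piece hLB hM hM0 hc Lb _ (fun u v => L (x u, x v)) _ h
        hh0 (fun b => min_le_left _ _) (a0 _) hθ (hf2 j) hx⟩
    · refine ⟨fun _ => 0, fun h => absurd h hg, fun j S hS => ?_⟩
      have : a κ = 0 := by simp [a, hg]
      simp [this, sm, B]
  choose f hf1 hf2 using hpiece
  let ρ : Option ((Fin n → Fin r) × Fin k) → Measure ℝ := fun o => match o with
    | none => ∑ b, sm (1 - h b * q b) (lam.restrict (c ⁻¹' {b}))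
    | some (κ, j) => ∑ u ∈ Finset.univ.filter (fun u => f κ u = j),
        sm (a κ * h (κ u)) (lam.restrict (c ⁻¹' {κ u}))
  let y : Option ((Fin n → Fin r) × Fin k) → ℝ := fun o => match o with
    | none => M * (ρ none).real univ
    | some (κ, _) => a κ * (θ + 1 + M)
  have hfin : ∀ o, IsFiniteMeasure (ρ o) := fun o => match o with
    | none => by simp only [ρ]; infer_instance
    | some (κ, j) => by simp only [ρ]; infer_instance
  have hsum : ∑ o, ρ o = lam := by
    rw [Fintype.sum_option, Fintype.sum_prod_type]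
    have e1 : ∀ κ, ∑ j : Fin k, ρ (some (κ, j)) =
        ∑ b, sm (h b * (a κ * N κ b)) (lam.restrict (c ⁻¹' {b})) := by
      intro κ
      by_cases hg : gk κ
      · have e2 : ∑ j : Fin k, ρ (some (κ, j)) =
            ∑ u, sm (a κ * h (κ u)) (lam.restrict (c ⁻¹' {κ u})) := by
          rw [← Finset.sum_fiberwise (s := Finset.univ)
            (fun u => (⟨f κ u, hf1 κ hg u⟩ : Fin k))]
          refine Finset.sum_congr rfl fun j _ => ?_
          simp only [ρ, Fin.ext_iff]
        rw [e2, ← Finset.sum_fiberwise (s := Finset.univ) κ]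
        refine Finset.sum_congr rfl fun b _ => ?_
        rw [Finset.sum_congr rfl (g := fun _ => sm (a κ * h b) (lam.restrict (c ⁻¹' {b})))
          fun u hu => by rw [(Finset.mem_filter.mp hu).2],
          ← sm_sum _ _ fun _ => mul_nonneg (a0 _) (hh0 _)]
        congr 1
        simp [N]
        ring
      · have : a κ = 0 := by simp [a, hg]
        simp [ρ, this, sm]
    simp only [e1]
    rw [Finset.sum_comm]
    conv_rhs => rw [← sum_cells hc lam]
    simp only [ρ]
    rw [← Finset.sum_add_distrib]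
    refine Finset.sum_congr rfl fun b _ => ?_
    rw [← sm_sum _ _ fun κ => mul_nonneg (hh0 _) (mul_nonneg (a0 _) (N0 _ _)),
      ← Finset.mul_sum, ← sm_add (sub_nonneg.mpr (hq1 b)) (mul_nonneg (hh0 _) (q0 b))]
    simp [sm]
  have hPhi := Phi_le hLB hl hM hM0 ρ hsum y
    (fun o => match o with
      | none => mul_nonneg hM0 measureReal_nonneg
      | some (κ, j) => mul_nonneg (a0 κ) (by positivity))
    (fun o => match o with
      | none => bd_const hLB hM hM0 _
      | some (κ, j) => hf2 κ j)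
  rw [Fintype.sum_option, Fintype.sum_prod_type] at hPhi
  simp only [y, Finset.sum_const, Finset.card_univ, Fintype.card_fin, nsmul_eq_mul] at hPhi
  rw [← Finset.mul_sum, ← Finset.sum_mul, a1] at hPhi
  have hmass : (ρ none).real univ ≤ 1 / (η * √n) := by
    let T : Finset (Fin r) := Finset.univ.filter (fun b => q b < p b)
    have e1 : (ρ none).real univ ≤ ∑ b ∈ T, (p b - q b) := by
      simp only [ρ]
      rw [real_sum, Finset.sum_filter]
      refine Finset.sum_le_sum fun b _ => ?_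
      rw [sm_real (sub_nonneg.mpr (hq1 b)), measureReal_restrict_apply_univ]
      change (1 - h b * q b) * p b ≤ _
      rcases (p0 b).eq_or_lt with hp | hp
      · rw [← hp, if_neg (not_lt.mpr (q0 b)), mul_zero]
      split_ifs with hqp
      · rcases (q0 b).eq_or_lt with hq | hq
        · rw [← hq]; simp
        · have : h b = (p b)⁻¹ := min_eq_left (inv_anti₀ hq hqp.le)
          rw [this]
          refine le_of_eq ?_
          field_simp
      · have : h b = (q b)⁻¹ := min_eq_right (inv_anti₀ hp (not_lt.mp hqp))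
        rw [this, inv_mul_cancel₀ (hp.trans_le (not_lt.mp hqp)).ne']
        simp
    have hT : MeasurableSet (c ⁻¹' (T : Set (Fin r))) := hc MeasurableSet.of_discrete
    let Z : (Fin n → Fin r) → ℝ := fun κ => ∑ b ∈ T, N κ b - n * ∑ b ∈ T, p b
    have e2 : ∑ κ, π κ * Z κ ^ 2 ≤ n := by
      refine le_trans (le_of_eq ?_) (cnt_sq (n := n) hT).2
      refine (int_cells hc fun κ => Z κ ^ 2).symm.trans ?_
      refine integral_congr_ae (ae_of_all _ fun x => ?_)
      simp only [Z, N, cnt, real_pre hc T, p]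
      rw [Finset.sum_comm]
      congr 2
      refine Finset.sum_congr rfl fun u _ => ?_
      simp [indicator]
    have e3 : ∑ κ, π κ = 1 := by
      have := int_cells (n := n) hc fun _ => 1
      simp only [integral_const, probReal_univ, smul_eq_mul, mul_one] at this
      exact this.symm
    have e4 : ∑ b ∈ T, (p b - q b) = ∑ κ, a κ * (-Z κ) := by
      simp only [Z, neg_sub, mul_sub, Finset.sum_sub_distrib, q]
      rw [← Finset.sum_mul, a1, Finset.sum_comm]
      simp only [Finset.mul_sum]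
      congr 1
      refine Finset.sum_congr rfl fun b _ => ?_
      field_simp
    have hs : 0 < √(n : ℝ) := Real.sqrt_pos.mpr hn'
    have hs2 : √(n : ℝ) * √n = n := Real.mul_self_sqrt hn'.le
    have e5 : ∀ κ, a κ * (-Z κ) ≤ (π κ * Z κ ^ 2 / √n + π κ * √n) / (2 * (P * n)) := by
      intro κ
      have z1 : -Z κ ≤ (Z κ ^ 2 / √n + √n) / 2 := by
        rw [div_add' _ _ _ hs.ne', div_div, le_div_iff₀ (by positivity)]
        nlinarith [sq_nonneg (Z κ + √n)]
      have z2 : a κ ≤ π κ / (P * n) := by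
        have := π0 κ
        simp only [a]
        split_ifs
        · simp
        · simp only [mul_zero, zero_div]; positivity
      calc _ ≤ a κ * ((Z κ ^ 2 / √n + √n) / 2) := mul_le_mul_of_nonneg_left z1 (a0 κ)
        _ ≤ π κ / (P * n) * ((Z κ ^ 2 / √n + √n) / 2) :=
            mul_le_mul_of_nonneg_right z2 (by positivity)
        _ = _ := by ring
    refine e1.trans (e4.le.trans ((Finset.sum_le_sum fun κ _ => e5 κ).trans ?_))
    rw [← Finset.sum_div, Finset.sum_add_distrib, ← Finset.sum_div, ← Finset.sum_mul, e3]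
    calc _ ≤ (n / √n + 1 * √n) / (2 * (P * n)) := by gcongr
      _ = 1 / (P * √n) := by
          rw [Real.div_sqrt]
          generalize √(n : ℝ) = s at hs hs2
          rw [← hs2]
          field_simp
          norm_num
      _ ≤ _ := by gcongr
  calc _ ≤ _ := hPhi
    _ ≤ M * (1 / (η * √n)) + k * (1 / n * (θ + 1 + M)) := by gcongr
    _ = _ := by ring

end Pool.Agent.H.MP_eaf82e_pr
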