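import Pool.Agent.H.MP_eaf82e_pr.G

set_option autoImplicit false

namespace Pool.Agent.H.MP_eaf82e_pr

open MeasureTheory Set Filter Topology

noncomputable def lx (L : ℝ × ℝ → ℝ) {n : ℕ} (x : Fin n → ℝ) (e : Ed n) : ℝ :=
  L (x e.1.1, x e.1.2)

noncomputable def px (L : ℝ × ℝ → ℝ) {n : ℕ} (x : Fin n → ℝ) (e : Ed n) : ℝ :=
  1 - Real.exp (-lx L x e)

lemma px_nonneg {L : ℝ × ℝ → ℝ} (h0 : ∀ z, 0 ≤ L z) {n : ℕ} (x : Fin n → ℝ) (e : Ed n) :
    0 ≤ px L x e :=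
  sub_nonneg.mpr (Real.exp_le_one_iff.mpr (neg_nonpos.mpr (h0 _)))

lemma px_le (L : ℝ × ℝ → ℝ) {n : ℕ} (x : Fin n → ℝ) (e : Ed n) : px L x e ≤ 1 := by
  unfold px; linarith [Real.exp_pos (-lx L x e)]

lemma tlog : Tendsto (fun n : ℕ => Real.log n) atTop atTop :=
  Real.tendsto_log_atTop.comp tendsto_natCast_atTop_atTop

lemma ev_pow (C : ℝ) (k : ℕ) {a : ℝ} (ha : 0 < a) :
    ∀ᶠ n : ℕ in atTop, C * Real.log n ^ k ≤ Real.exp (a * Real.log n) := by
  have h := (tendsto_exp_mul_div_rpow_atTop k a ha).comp tlog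
  filter_upwards [h.eventually_ge_atTop C, tlog.eventually_gt_atTop 0] with n h1 h2
  simp only [Function.comp, Real.rpow_natCast] at h1
  rwa [le_div_iff₀ (pow_pos h2 k)] at h1

open Classical in
theorem lower {L : ℝ × ℝ → ℝ} (hL : Measurable L) (hs : ∀ x y, L (x, y) = L (y, x)) {l M : ℝ}
    (hl0 : 0 < l) (hl : ∀ z, l ≤ L z) (hM : ∀ z, L z ≤ M) {ε η : ℝ} (hε : 0 < ε) (hη : 0 < η) :
    ∀ᶠ n : ℕ in atTop, ∃ N : Set (Fin n → ℝ), (mun n).real N ≤ η ∧ ∀ x ∉ N,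
      ∑ ω : Ed n → Bool, wt (px L x) ω * (if ∀ k : ℕ, Cov ω Finset.univ k →
        (1 - ε) * (Phi L * n / (2 * Real.log n)) ≤ k then 0 else 1) ≤ η := by
  have h0 : ∀ z, 0 ≤ L z := fun z => hl0.le.trans (hl z)
  have hM0 : 0 ≤ M := (h0 0).trans (hM 0)
  have hΦ : l ≤ Phi L := le_Phi (BM.of_bounds hL h0 hM) hl hM hM0
  have hΦ0 : 0 < Phi L := hl0.trans_le hΦ
  have t1 : Tendsto (fun n : ℕ => Real.exp (Real.exp (-(ε * Real.log n))) - 1) atTop (𝓝 0) := by
    have := ((Real.continuous_exp.tendsto 0).comp (Real.tendsto_exp_neg_atTop_nhds_zero.comp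
      (tlog.const_mul_atTop hε))).sub_const 1
    simpa using this
  have t2 : Tendsto (fun n : ℕ => Phi L * (1 + M) / 2 / Real.log n + M / (η / 2) / √n) atTop
      (𝓝 0) := by
    have := (tlog.const_div_atTop (Phi L * (1 + M) / 2)).add
      ((Real.tendsto_sqrt_atTop.comp tendsto_natCast_atTop_atTop).const_div_atTop (M / (η / 2)))
    simpa using this
  filter_upwards [t1.eventually_le_const hη,
    t2.eventually_lt_const (show 0 < ε ^ 2 * Phi L by positivity), tlog.eventually_gt_atTop 0,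
    eventually_gt_atTop 0] with n e1 e2 e3 hn
  have hn' : (0 : ℝ) < n := by exact_mod_cast hn
  set Λ := Real.log n with hΛ
  have hX : 0 ≤ Phi L * n / (2 * Λ) := by positivity
  by_cases hε1 : 1 ≤ ε
  · refine ⟨∅, by simpa using hη.le, fun x _ => ?_⟩
    rw [Finset.sum_eq_zero]
    · exact hη.le
    intro ω _
    rw [if_pos, mul_zero]
    intro k _
    exact (mul_nonpos_of_nonpos_of_nonneg (by linarith) hX).trans (Nat.cast_nonneg _)
  set K := (1 - ε) * (Phi L * n / (2 * Λ)) with hK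
  have hK0 : 0 ≤ K := mul_nonneg (by linarith) hX
  refine ⟨{x | Nice L (2 * ((1 + ε) * Λ)) ⌊K⌋₊ x}, ?_, fun x hx => ?_⟩
  · by_contra hcon
    have h1 := lower_core hL hl0.le hl hM hn (θ := 2 * ((1 + ε) * Λ)) (by positivity)
      (half_pos hη) ⌊K⌋₊ (by linarith)
    have h2 : (⌊K⌋₊ : ℝ) * (2 * ((1 + ε) * Λ) + 1 + M) / n ≤
        K * (2 * ((1 + ε) * Λ) + 1 + M) / n := by
      gcongr
      exact Nat.floor_le hK0
    have h3 : K * (2 * ((1 + ε) * Λ) + 1 + M) / n =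
        (1 - ε ^ 2) * Phi L + (1 - ε) * (Phi L * (1 + M) / 2 / Λ) := by
      rw [hK]; field_simp; ring
    have h4 : 0 ≤ ε * (Phi L * (1 + M) / 2 / Λ) := by positivity
    rw [← div_div] at h1
    linarith
  · have h1 := first_moment (px L x) (lx L x) (px_nonneg h0 x) (fun e => by simp [px])
      ((1 + ε) * Λ)
    have h2 : (n : ℝ) * Real.exp (-((1 + ε) * Λ)) = Real.exp (-(ε * Λ)) := by
      conv_lhs => rw [← Real.exp_log hn', ← hΛ, ← Real.exp_add]
      congr 1; ring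
    rw [h2] at h1
    refine le_trans (Finset.sum_le_sum fun ω _ => mul_le_mul_of_nonneg_left ?_
      (wt_nonneg (px_nonneg h0 x) (px_le L x) ω)) (h1.trans e1)
    by_cases hω : ∀ S, Ind ω S → ls (lx L x) S ≤ (1 + ε) * Λ * S.card
    · rw [if_pos hω, if_pos]
      rintro k ⟨f, hf1, hf2⟩
      by_contra hk
      refine hx ⟨f, fun u => (hf1 u (Finset.mem_univ _)).trans_le
        (Nat.le_floor (not_le.mp hk).le), fun j S hS => ?_⟩
      rw [two_ls (fun u v => L (x u, x v)) (fun u v => hs _ _), mul_assoc]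
      refine mul_le_mul_of_nonneg_left (hω S fun e he => ?_) zero_le_two
      simp only [ES, Finset.mem_filter, Finset.mem_univ, true_and] at he
      exact hf2 e (Finset.mem_univ _) (Finset.mem_univ _)
        ((Finset.mem_filter.mp (hS he.1)).2.trans (Finset.mem_filter.mp (hS he.2)).2.symm)
    · rw [if_neg hω]
      split_ifs <;> norm_num

lemma exists_dec {L : ℝ × ℝ → ℝ} {ζ : ℝ} (hζ : 0 < ζ) :
    ∃ (K : Type) (_ : Fintype K) (_ : DecidableEq K) (ν : K → Measure ℝ) (α : K → ℝ) (a : ℝ),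
      (∀ i, IsProbabilityMeasure (ν i)) ∧ 0 < a ∧ (∀ i, a ≤ α i) ∧ ∑ i, α i = 1 ∧
      ∑ i, sm (α i) (ν i) = lam ∧ ∑ i, α i * phi L (ν i) ≤ Phi L + ζ := by
  classical
  obtain ⟨t, ⟨k, ν, α, h1, -, h3, h4, h5, rfl⟩, ht⟩ :=
    Real.lt_sInf_add_pos (decs_nonempty (phi L)) hζ
  have key : ∀ {X : Type} [AddCommMonoid X] (g : Fin k → X), (∀ i, α i = 0 → g i = 0) →
      ∑ i : {i // 0 < α i}, g i = ∑ i, g i := by
    intro X _ g hg
    rw [← Finset.sum_subtype (Finset.univ.filter fun i => 0 < α i) (by simp),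
      Finset.sum_filter_of_ne]
    intro i _ hi
    exact lt_of_le_of_ne (h3 i) fun h => hi (hg i h.symm)
  have hev : ∀ᶠ a in 𝓝[>] (0 : ℝ), 0 < a ∧ ∀ i : {i // 0 < α i}, a ≤ α i :=
    (eventually_mem_nhdsWithin).and (eventually_all.mpr fun i =>
      mem_nhdsWithin_of_mem_nhds (Iic_mem_nhds i.2))
  obtain ⟨a, ha, ha2⟩ := hev.exists
  refine ⟨{i // 0 < α i}, inferInstance, inferInstance, fun i => ν i, fun i => α i, a,
    fun i => h1 i, ha, ha2, (key α fun _ h => h).trans h4,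
    (key (fun i => sm (α i) (ν i)) fun i h => by simp [sm, h]).trans h5,
    (key (fun i => α i * phi L (ν i)) fun i h => by simp [h]).le.trans ht.le⟩

end Pool.Agent.H.MP_eaf82e_pr
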