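import Pool.Agent.H.MP_eaf82e_pr.I

set_option autoImplicit false

namespace Pool.Agent.H.MP_eaf82e_pr

open MeasureTheory Set Filter Topology

lemma good_small {Λ D C η γ : ℝ} {n sm : ℕ} (hn : (n : ℝ) = Real.exp Λ) (hΛ : 1 ≤ Λ) (hD : 1 ≤ D)
    (hγ : γ ≤ 1 / 4) (hC : 0 ≤ C) (hsm : (sm : ℝ) ≤ C * Λ) (hη : 0 < η) (h1 : -Real.log η ≤ Λ)
    (h2 : 4 * D ^ 2 * (2 * C + 1) * Λ ^ 1 ≤ Real.exp (1 / 2 * Λ)) :
    ((sm : ℝ) + 1) * (2 ^ (n * sm) * Real.exp ((Real.exp (-(Λ / 4)) / (2 * D)) ^ 2 * n ^ 2 -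
      Real.exp (-(Λ / 4)) / (2 * D) * (Real.exp ((1 - γ / 2) * Λ) ^ 2 / D))) ≤ η := by
  have hn1 : (1 : ℝ) ≤ n := by rw [hn]; exact Real.one_le_exp (by linarith)
  have a1 : (sm : ℝ) + 1 ≤ Real.exp sm := Real.add_one_le_exp _
  have a2 : (2 : ℝ) ^ (n * sm) ≤ Real.exp (n * sm) := by
    rw [← Nat.cast_mul, ← mul_one ((n * sm : ℕ) : ℝ), Real.exp_nat_mul]
    exact pow_le_pow_left₀ zero_le_two (by linarith [Real.add_one_le_exp 1]) _
  have a3 : (Real.exp (-(Λ / 4)) / (2 * D)) ^ 2 * n ^ 2 = n * Real.exp (1 / 2 * Λ) / (4 * D ^ 2) := by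
    have : Real.exp (-(Λ / 4)) ^ 2 * n = Real.exp (1 / 2 * Λ) := by
      rw [hn, ← Real.exp_nat_mul, ← Real.exp_add]; congr 1; push_cast; ring
    rw [← this]; field_simp; norm_num
  have a4 : n * Real.exp (1 / 2 * Λ) / (2 * D ^ 2) ≤
      Real.exp (-(Λ / 4)) / (2 * D) * (Real.exp ((1 - γ / 2) * Λ) ^ 2 / D) := by
    have : n * Real.exp (1 / 2 * Λ) ≤ Real.exp (-(Λ / 4)) * Real.exp ((1 - γ / 2) * Λ) ^ 2 := by
      rw [hn, ← Real.exp_nat_mul, ← Real.exp_add, ← Real.exp_add]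
      refine Real.exp_le_exp.mpr ?_
      push_cast
      nlinarith
    calc _ ≤ Real.exp (-(Λ / 4)) * Real.exp ((1 - γ / 2) * Λ) ^ 2 / (2 * D ^ 2) := by gcongr
      _ = _ := by field_simp
  have a5 : n * ((2 * C + 1) * Λ) ≤ n * Real.exp (1 / 2 * Λ) / (4 * D ^ 2) := by
    rw [mul_div_assoc]
    refine mul_le_mul_of_nonneg_left ?_ (by linarith)
    rw [le_div_iff₀ (by positivity)]
    linarith
  have a6 : n * Real.exp (1 / 2 * Λ) / (2 * D ^ 2) =
      2 * (n * Real.exp (1 / 2 * Λ) / (4 * D ^ 2)) := by field_simp; norm_num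
  calc _ ≤ Real.exp sm * (Real.exp (n * sm) * Real.exp (-(n * ((2 * C + 1) * Λ)))) := by
        gcongr
        linarith
    _ = Real.exp (sm + n * sm - n * ((2 * C + 1) * Λ)) := by
        rw [← Real.exp_add, ← Real.exp_add]; congr 1; ring
    _ ≤ Real.exp (Real.log η) := by
        refine Real.exp_le_exp.mpr ?_
        have b1 : (n : ℝ) * sm ≤ n * (C * Λ) := mul_le_mul_of_nonneg_left hsm (by linarith)
        have b2 : 1 * (C * Λ) ≤ n * (C * Λ) := mul_le_mul_of_nonneg_right hn1 (by positivity)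
        have b3 : 1 * Λ ≤ n * Λ := mul_le_mul_of_nonneg_right hn1 (by positivity)
        nlinarith
    _ = η := Real.exp_log hη

open Classical in
theorem upper {L : ℝ × ℝ → ℝ} (hL : Measurable L) (hs : ∀ x y, L (x, y) = L (y, x)) {l M : ℝ}
    (hl0 : 0 < l) (hl : ∀ z, l ≤ L z) (hM : ∀ z, L z ≤ M) {ε η : ℝ} (hε : 0 < ε) (hη : 0 < η) :
    ∀ᶠ n : ℕ in atTop, ∃ N : Set (Fin n → ℝ), (mun n).real N ≤ η ∧ ∀ x ∉ N,
      ∑ ω : Ed n → Bool, wt (px L x) ω * (if ∃ k : ℕ, Cov ω Finset.univ k ∧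
        (k : ℝ) ≤ (1 + ε) * (Phi L * n / (2 * Real.log n)) then 0 else 1) ≤ η := by
  have h0 : ∀ z, 0 ≤ L z := fun z => hl0.le.trans (hl z)
  have hlM : l ≤ M := (hl 0).trans (hM 0)
  have hM0 : 0 < M := hl0.trans_le hlM
  have hLB := BM.of_bounds hL h0 hM
  have hΦ : l ≤ Phi L := le_Phi hLB hl hM hM0.le
  have hΦ0 : 0 < Phi L := hl0.trans_le hΦ
  obtain ⟨γ, hγ0, hγ1, hγ2⟩ : ∃ γ : ℝ, 0 < γ ∧ γ ≤ 1 / 4 ∧ γ ≤ ε / 6 :=
    ⟨min (1 / 4) (ε / 6), by positivity, min_le_left _ _, min_le_right _ _⟩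
  obtain ⟨ζ, hζ0, hζ⟩ : ∃ ζ : ℝ, 0 < ζ ∧ ζ = ε * Phi L / 27 := ⟨_, by positivity, rfl⟩
  obtain ⟨δ, hδ0, hδ1, hδ2⟩ : ∃ δ : ℝ, 0 < δ ∧ δ ≤ 1 / 4 ∧ δ * M ≤ ε * Phi L / 120 :=
    ⟨min (1 / 4) (ε * Phi L / 120 / M), by positivity, min_le_left _ _,
      (le_div_iff₀ hM0).mp (min_le_right _ _)⟩
  obtain ⟨K, _, _, ν, α, a, hν, ha0, ha, hα1, hsum, hdec⟩ := exists_dec (L := L) hζ0
  have hα0 : ∀ i, 0 < α i := fun i => ha0.trans_le (ha i)
  have hδ3 : 0 < 1 - δ := by linarith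
  obtain ⟨ξ, hξ0, hξ⟩ : ∃ ξ : ℝ, 0 < ξ ∧ M * ξ = l := ⟨l / M, by positivity, by field_simp⟩
  obtain ⟨ρ, hρ0, hρ⟩ : ∃ ρ : ℝ, 0 < ρ ∧ ρ = ζ * ξ * (δ * (1 - δ) * a) ^ 2 / 2 :=
    ⟨_, by positivity, rfl⟩
  obtain ⟨r, c, Lb, hc, hLb0, hLb1, hE⟩ := step_approx hL h0 hM
    (η := min (ζ * (a ^ 2 * ξ)) (ρ * (η / 2))) (by positivity)
  have hEB := hLB.abs_sub (BM.step hc Lb)
  have hm : ∀ b, MeasurableSet (c ⁻¹' {b}) := fun b => hc (measurableSet_singleton b)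
  have hφ0 : ∀ i, l ≤ phi L (ν i) := fun i => le_phi hLB hl hM hM0.le _
  have hφ1 : ∀ i, phi L (ν i) ≤ M := fun i => by
    have := phi_le (bd_const hLB hM hM0.le (ν i)) (by positivity)
    simpa using this
  obtain ⟨k0, hk0⟩ := exists_nat_ge (4 / γ)
  obtain ⟨D, hD, hD1⟩ : ∃ D : ℝ, D = 2 * Real.exp 1 * Real.exp (M * k0 ^ 2) ∧ 1 ≤ D :=
    ⟨_, rfl, one_le_mul_of_one_le_of_one_le (by linarith [Real.add_one_le_exp 1])
      (Real.one_le_exp (by positivity))⟩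
  filter_upwards [tlog.eventually_ge_atTop 1, tlog.eventually_ge_atTop (4 * M),
    tlog.eventually_ge_atTop (4 * (M + 2 * ζ)), tlog.eventually_ge_atTop (r / δ * (M + 2 * ζ)),
    tlog.eventually_ge_atTop (-Real.log η),
    ev_pow (4 * D ^ 2 * (2 * (2 / l + 1) + 1)) 1 one_half_pos,
    ev_pow ((2 / l) ^ 2 / (δ * (1 - δ) * a)) 2 (half_pos hγ0),
    ev_pow (1 / (4 * M ^ 2 * ζ)) 3 (half_pos hγ0),
    (tendsto_natCast_atTop_atTop (R := ℝ)).eventually_ge_atTop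
      ((∑ b, (δ ^ 2 * lam.real (c ⁻¹' {b}) ^ 2)⁻¹) / (η / 2)), eventually_gt_atTop 0]
    with n c1 c2 c3 c4 c5 c6 c7 c8 c9 hn
  have hn' : (0 : ℝ) < n := by exact_mod_cast hn
  have hnΛ : (n : ℝ) = Real.exp (Real.log n) := (Real.exp_log hn').symm
  generalize Real.log n = Λ at *
  have hΛ0 : 0 < Λ := by linarith
  refine ⟨{x | ρ * n ^ 2 ≤ ∑ u, ∑ v, (if u = v then 0 else |L (x u, x v) - Lb (c (x u)) (c (x v))|)}
    ∪ ⋃ b, {x | cnt (c ⁻¹' {b}) x < (1 - δ) * n * lam.real (c ⁻¹' {b})}, ?_, fun x hx => ?_⟩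
  · refine (measureReal_union_le _ _).trans ?_
    have p1 := off_markov (n := n) hEB (fun z => abs_nonneg _) (t := ρ * n ^ 2) (by positivity)
    have p2 : n ^ 2 * B (fun z => |L z - Lb (c z.1) (c z.2)|) lam lam / (ρ * n ^ 2) ≤ η / 2 := by
      rw [div_le_iff₀ (by positivity)]
      have := mul_le_mul_of_nonneg_left (hE.trans (min_le_right _ _)) (sq_nonneg (n : ℝ))
      linarith
    have p3 := (measureReal_iUnion_fintype_le (μ := mun n) fun b =>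
      {x | cnt (c ⁻¹' {b}) x < (1 - δ) * n * lam.real (c ⁻¹' {b})}).trans
      (Finset.sum_le_sum fun b _ => cnt_low (hm b) hδ0 hn)
    rw [← Finset.sum_div] at p3
    rw [div_le_iff₀ (half_pos hη), mul_comm, ← div_le_iff₀ hn'] at c9
    linarith [p1.trans p2]
  simp only [mem_union, mem_ofPred_eq, mem_iUnion, not_or, not_le, not_exists, not_lt] at hx
  obtain ⟨hx1, hx2⟩ := hx
  set θ := (1 - γ) * Λ with hθ
  set z := Real.exp ((1 - γ / 2) * Λ) with hz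
  have hθ1 : θ ≤ Λ := by rw [hθ]; linarith [mul_pos hγ0 hΛ0]
  have hθ2 : 3 / 4 * Λ ≤ θ := mul_le_mul_of_nonneg_right (by linarith) hΛ0.le
  have hz1 : 1 ≤ z := Real.one_le_exp (mul_nonneg (by linarith) hΛ0.le)
  have hzn : z * Real.exp (γ / 2 * Λ) = n := by
    rw [hnΛ, hz, ← Real.exp_add]; congr 1; ring
  have hsm1 : 2 * Λ / l ≤ (⌈2 * Λ / l⌉₊ : ℝ) := Nat.le_ceil _
  have hsm2 : (⌈2 * Λ / l⌉₊ : ℝ) ≤ (2 / l + 1) * Λ := by
    have := (Nat.ceil_lt_add_one (show 0 ≤ 2 * Λ / l by positivity)).le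
    calc _ ≤ _ := this
      _ ≤ 2 * Λ / l + Λ := by linarith
      _ = _ := by ring
  have hg := good_prob (px L x) (lx L x) (px_nonneg h0 x) (fun e => by simp [px]) hM0.le
    (fun e => hM _) (θ := θ) hz1 (k0 := k0) (l := Real.exp (-(Λ / 4)) / (2 * D))
    (fun k hk => by
      rw [hz, ← Real.exp_nat_mul, ← Real.exp_nat_mul, ← Real.exp_add]
      refine Real.exp_le_exp.mpr ?_
      have q1 : 4 / γ ≤ k := hk0.trans (by exact_mod_cast hk.le)
      rw [div_le_iff₀ hγ0] at q1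
      push_cast
      rw [hθ]
      linarith [mul_le_mul_of_nonneg_right q1 hΛ0.le, mul_pos hγ0 hΛ0])
    (by positivity)
    (by
      rw [div_le_one (by positivity)]
      exact (Real.exp_le_one_iff.mpr (by linarith)).trans (by linarith)) ⌈2 * Λ / l⌉₊
  rw [← hD] at hg
  refine le_trans (Finset.sum_le_sum fun ω _ => mul_le_mul_of_nonneg_left ?_
      (wt_nonneg (px_nonneg h0 x) (px_le L x) ω))
      (hg.trans (good_small hnΛ c1 hD1 hγ1 (by positivity) hsm2 hη c5 c6))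
  by_cases hω : Good (lx L x) θ z ⌈2 * Λ / l⌉₊ ω
  swap
  · rw [if_neg hω]
    split_ifs <;> norm_num
  rw [if_pos hω, if_pos]
  let σ : K → ℝ := fun i => 2 * θ / (phi L (ν i) + 2 * ζ)
  have hd : ∀ i, 0 < phi L (ν i) + 2 * ζ := fun i => by linarith [hφ0 i]
  have hσ1 : ∀ i, Λ / (M + 2 * ζ) ≤ σ i := fun i =>
    div_le_div₀ (by linarith) (by linarith) (hd i) (by linarith [hφ1 i])
  have hσ2 : ∀ i, σ i ≤ 2 * Λ / l := fun i =>
    div_le_div₀ (by linarith) (by linarith) hl0 (by linarith [hφ0 i])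
  have hσ0 : ∀ i, 0 < σ i := fun i => lt_of_lt_of_le (by positivity) (hσ1 i)
  have hs1 : (⌊Λ / (2 * M)⌋₊ : ℝ) ≤ Λ / (2 * M) := Nat.floor_le (by positivity)
  have hs0 : 2 ≤ Λ / (2 * M) := by rw [le_div_iff₀ (by positivity)]; linarith
  have hs2 : Λ / (2 * M) / 2 ≤ (⌊Λ / (2 * M)⌋₊ : ℝ) := by
    linarith [Nat.lt_floor_add_one (Λ / (2 * M))]
  obtain ⟨k, hk1, hk2⟩ := chi_upper (fun u => c (x u)) (fun u v => L (x u, x v))
    (fun u v => hs _ _) hM0.le (fun u v => hM _) Lb hLb0 α (fun i => phi L (ν i) + ζ) σ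
    (fun i b => (ν i).real (c ⁻¹' {b})) (fun i => (hα0 i).le) hα1 (fun i b => measureReal_nonneg)
    (fun i => (sum_cells_real hc _).trans probReal_univ)
    (fun i t t0 t1 => (disc_form hLB hl hM hM0.le hc Lb hLb1 (hE.trans (min_le_left _ _))
      (hα0 i) hξ0 hξ.le (ν i) (hsum ▸ Finset.single_le_sum (f := fun i => sm (α i) (ν i))
        (fun j _ => Measure.zero_le _) (Finset.mem_univ i)) t t0 t1).trans
      (mul_le_mul_of_nonneg_right (by
        have := hα0 i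
        have := ha i
        refine add_le_add le_rfl ?_
        rw [div_le_iff₀ (by positivity)]
        gcongr) (Finset.sum_nonneg fun b _ => t0 b)))
    (β := ζ * ξ) (ξ := ξ) (θ := θ) (δ := δ) (z := z) (sm := ⌈2 * Λ / l⌉₊) (s' := ⌊Λ / (2 * M)⌋₊)
    (by positivity) hξ0 hδ0 hδ1 hz1
    (fun i => le_trans (by rw [le_div_iff₀ (by positivity)]; exact c3) (hσ1 i))
    (fun i => (hσ2 i).trans hsm1)
    (fun i => by
      rw [Fintype.card_fin, ← div_le_iff₀' hδ0]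
      exact le_trans (by rw [le_div_iff₀ (by positivity)]; exact c4) (hσ1 i))
    (fun i => by linarith [hφ0 i])
    (fun i => by
      rw [mul_div_assoc ζ, div_self hξ0.ne', mul_one, add_assoc, ← two_mul]
      exact (mul_div_cancel₀ _ (hd i).ne').le)
    (fun b => by
      have e1 : ∑ i, α i * (ν i).real (c ⁻¹' {b}) = lam.real (c ⁻¹' {b}) := by
        rw [← hsum, real_sum]
        exact Finset.sum_congr rfl fun i _ => (sm_real (hα0 i).le _ _).symm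
      rw [e1]
      refine (hx2 b).trans (le_of_eq ?_)
      simp [cnt, indicator])
    (fun i => by
      have := hσ0 i
      rw [← mul_div_assoc, le_div_iff₀ this]
      rw [div_mul_eq_mul_div, div_le_iff₀ (by positivity)] at c7
      calc σ i * z * σ i = σ i * σ i * z := by ring
        _ ≤ (2 * Λ / l) * (2 * Λ / l) * z := by gcongr <;> exact hσ2 i
        _ = (2 / l) ^ 2 * Λ ^ 2 * z := by ring
        _ ≤ Real.exp (γ / 2 * Λ) * (δ * (1 - δ) * a) * z := by gcongr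
        _ = δ * ((1 - δ) * a * n) := by rw [← hzn]; ring
        _ ≤ _ := by gcongr; exact ha i)
    (fun i => by
      have := hσ0 i
      refine hx1.le.trans ?_
      calc ρ * n ^ 2 ≤ ζ * ξ * (δ * (1 - δ) * α i) ^ 2 / 2 * n ^ 2 := by
            rw [hρ]; gcongr; exact ha i
        _ = _ := by field_simp)
    (Nat.le_floor (by exact_mod_cast hs0))
    (by
      refine Nat.cast_le.mp (hs1.trans (le_trans ?_ hsm1))
      exact div_le_div₀ (by linarith) (by linarith) hl0 (by linarith))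
    (by
      rw [le_div_iff₀ (by positivity)] at hs1
      linarith)
    ω hω
  refine ⟨k, hk1, hk2.trans ?_⟩
  generalize (⌊Λ / (2 * M)⌋₊ : ℝ) = s at *
  have hs3 : 1 ≤ s := by linarith
  have f1 : ∑ i, α i * n / σ i ≤ (Phi L + 3 * ζ) * (1 + 2 * γ) * (n / (2 * Λ)) := by
    have e1 : ∑ i, α i * n / σ i = (∑ i, α i * phi L (ν i) + 2 * ζ * ∑ i, α i) * (n / (2 * θ)) := by
      rw [Finset.mul_sum, ← Finset.sum_add_distrib, Finset.sum_mul]
      refine Finset.sum_congr rfl fun i _ => ?_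
      have := hd i
      have : 0 < θ := by linarith
      simp only [σ]
      field_simp
    have e2 : n / (2 * θ) ≤ (1 + 2 * γ) * (n / (2 * Λ)) := by
      rw [div_le_iff₀ (by linarith), hθ]
      calc (n : ℝ) = 1 * n := by ring
        _ ≤ ((1 + 2 * γ) * (1 - γ)) * n := mul_le_mul_of_nonneg_right
            (by linarith [mul_le_mul_of_nonneg_left hγ1 hγ0.le]) hn'.le
        _ = _ := by field_simp
    rw [e1, hα1, mul_assoc (Phi L + 3 * ζ)]
    exact mul_le_mul (by linarith) e2 (div_nonneg hn'.le (by linarith)) (by linarith)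
  have f2 : 5 * δ * n / s ≤ 40 * (δ * M) * (n / (2 * Λ)) := by
    calc _ ≤ 5 * δ * n / (Λ / (2 * M) / 2) := by gcongr
      _ = _ := by field_simp; norm_num
  have f3 : s * (s * z + 1) ≤ 4 * ζ * (n / (2 * Λ)) := by
    rw [one_div, inv_mul_le_iff₀ (by positivity)] at c8
    calc s * (s * z + 1) ≤ s * (s * z + s * z) := by
          have := one_le_mul_of_one_le_of_one_le hs3 hz1
          gcongr
      _ = 2 * (s * s) * z := by ring
      _ ≤ 2 * (Λ / (2 * M) * (Λ / (2 * M))) * z := by gcongr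
      _ = Λ ^ 3 * z / (2 * M ^ 2 * Λ) := by field_simp
      _ ≤ 4 * M ^ 2 * ζ * Real.exp (γ / 2 * Λ) * z / (2 * M ^ 2 * Λ) := by gcongr
      _ = _ := by rw [← hzn]; field_simp
  have f4 : (Phi L + 3 * ζ) * (1 + 2 * γ) + 40 * (δ * M) + 4 * ζ ≤ (1 + ε) * Phi L := by
    linarith [mul_le_mul_of_nonneg_right hγ2 hΦ0.le, mul_le_mul_of_nonneg_right hγ1 hζ0.le]
  have f5 := mul_le_mul_of_nonneg_right f4 (show 0 ≤ n / (2 * Λ) by positivity)
  rw [mul_div_assoc (Phi L)]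
  linarith

end Pool.Agent.H.MP_eaf82e_pr
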