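import Pool.Agent.H.MP_eaf82e_pr.J

set_option autoImplicit false

namespace Pool.Agent.H.MP_eaf82e_pr

open MeasureTheory Set Filter Topology

lemma decs_congr {f g : Measure ℝ → ℝ}
    (h : ∀ μ : Measure ℝ, ∀ [IsProbabilityMeasure μ], μ (Icc (0 : ℝ) 1)ᶜ = 0 → f μ = g μ) :
    decs f = decs g := by
  ext t
  constructor
  · rintro ⟨k, ν, α, h1, h2, h3, h4, h5, rfl⟩
    exact ⟨k, ν, α, h1, h2, h3, h4, h5, Finset.sum_congr rfl fun i _ => by rw [h _ (h2 i)]⟩
  · rintro ⟨k, ν, α, h1, h2, h3, h4, h5, rfl⟩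
    exact ⟨k, ν, α, h1, h2, h3, h4, h5, Finset.sum_congr rfl fun i _ => by rw [h _ (h2 i)]⟩

open Classical in
noncomputable def om {n : ℕ} (G : SimpleGraph (Fin n)) (e : Ed n) : Bool :=
  decide (G.Adj e.1.1 e.1.2)

lemma om_bij (n : ℕ) : Function.Bijective (om (n := n)) := by
  constructor
  · intro G G' h
    have key : ∀ u v, u < v → (G.Adj u v ↔ G'.Adj u v) := fun u v huv => by
      have := congrFun h ⟨(u, v), huv⟩
      simpa [om] using this
    ext u v
    rcases lt_trichotomy u v with h1 | rfl | h1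
    · exact key u v h1
    · simp
    · rw [G.adj_comm, G'.adj_comm]; exact key v u h1
  · intro ω
    refine ⟨SimpleGraph.fromRel fun u v => ∃ h : u < v, ω ⟨(u, v), h⟩ = true, ?_⟩
    funext ⟨⟨u, v⟩, h⟩
    have h' : u < v := h
    simp [om, h', h'.ne, h'.not_gt]

lemma cov_iff {n : ℕ} (G : SimpleGraph (Fin n)) (k : ℕ) :
    Cov (om G) Finset.univ k ↔ G.Colorable k := by
  constructor
  · rintro ⟨c, h1, h2⟩
    have key : ∀ u v, u < v → G.Adj u v → c u ≠ c v := fun u v huv ha hc => by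
      have := h2 ⟨(u, v), huv⟩ (Finset.mem_univ _) (Finset.mem_univ _) hc
      simp [om, ha] at this
    refine ⟨SimpleGraph.Coloring.mk (fun v => ⟨c v, h1 v (Finset.mem_univ _)⟩) ?_⟩
    intro u v ha hc
    have hc' : c u = c v := congrArg Fin.val hc
    rcases lt_trichotomy u v with h | rfl | h
    · exact key u v h ha hc'
    · exact ha.ne rfl
    · exact key v u h ha.symm hc'.symm
  · rintro ⟨C⟩
    refine ⟨fun v => C v, fun v _ => (C v).2, fun e _ _ hc => ?_⟩
    simp only [om, decide_eq_false_iff_not]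
    exact fun ha => C.valid ha (Fin.ext hc)

open Classical in
lemma prod_eq {n : ℕ} (p : Ed n → ℝ) (h0 : ∀ e, 0 ≤ p e) (h1 : ∀ e, p e ≤ 1)
    (G : SimpleGraph (Fin n)) (w : Fin n → Fin n → ℝ) (h : ∀ e, p e = w e.1.1 e.1.2) :
    ∏ i : Fin n, ∏ j : Fin n, (if i < j then (if G.Adj i j then ENNReal.ofReal (w i j)
      else ENNReal.ofReal (1 - w i j)) else 1) = ENNReal.ofReal (wt p (om G)) := by
  rw [wt, ENNReal.ofReal_prod_of_nonneg fun e _ => by
    split_ifs
    · exact h0 e
    · linarith [h1 e], ← Fintype.prod_prod_type', ← Finset.prod_filter,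
    Finset.prod_subtype (p := fun e : Fin n × Fin n => e.1 < e.2) _ (by simp)]
  refine Finset.prod_congr rfl fun e _ => ?_
  by_cases ha : G.Adj e.1.1 e.1.2 <;> simp [om, ha, h]

open Classical in
lemma final (w : ∀ n : ℕ, (Fin n → ℝ) → (Ed n → Bool) → ℝ) (w0 : ∀ n x ω, 0 ≤ w n x ω)
    (w1 : ∀ n x, ∑ ω, w n x ω = 1) (a b : ℕ → ℝ)
    (hlo : ∀ η : ℝ, 0 < η → ∀ᶠ n : ℕ in atTop, ∃ N : Set (Fin n → ℝ), (mun n).real N ≤ η ∧
      ∀ x ∉ N, ∑ ω : Ed n → Bool, w n x ω * (if ∀ k : ℕ, Cov ω Finset.univ k →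
        a n ≤ k then 0 else 1) ≤ η)
    (hup : ∀ η : ℝ, 0 < η → ∀ᶠ n : ℕ in atTop, ∃ N : Set (Fin n → ℝ), (mun n).real N ≤ η ∧
      ∀ x ∉ N, ∑ ω : Ed n → Bool, w n x ω * (if ∃ k : ℕ, Cov ω Finset.univ k ∧
        (k : ℝ) ≤ b n then 0 else 1) ≤ η)
    (g : ∀ n : ℕ, (Fin n → ℝ) → SimpleGraph (Fin n) → ENNReal)
    (hg : ∀ n x, (∀ i, x i ∈ Icc (0 : ℝ) 1) → ∀ G, g n x G = ENNReal.ofReal (w n x (om G))) :
    Tendsto (fun n : ℕ => ∫⁻ x in Set.univ.pi (fun _ : Fin n => Set.Icc (0:ℝ) 1),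
      ∑' G : SimpleGraph (Fin n), (if a n ≤ (G.chromaticNumber.toNat : ℝ) ∧
        (G.chromaticNumber.toNat : ℝ) ≤ b n then g n x G else 0)) atTop (𝓝 1) := by
  have hmu : ∀ n, volume.restrict (Set.univ.pi (fun _ : Fin n => Set.Icc (0:ℝ) 1)) = mun n :=
    fun n => by rw [volume_pi, Measure.restrict_pi_pi]; rfl
  have hae : ∀ n, ∀ᵐ x ∂(mun n), ∑' G : SimpleGraph (Fin n),
      (if a n ≤ (G.chromaticNumber.toNat : ℝ) ∧ (G.chromaticNumber.toNat : ℝ) ≤ b n
        then g n x G else 0) = ENNReal.ofReal (∑ G : SimpleGraph (Fin n), w n x (om G) *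
      (if a n ≤ (G.chromaticNumber.toNat : ℝ) ∧ (G.chromaticNumber.toNat : ℝ) ≤ b n
        then 1 else 0)) := by
    intro n
    rw [← hmu]
    filter_upwards [ae_restrict_mem (MeasurableSet.univ_pi fun _ => measurableSet_Icc)] with x hx
    rw [tsum_fintype, ENNReal.ofReal_sum_of_nonneg fun G _ => mul_nonneg (w0 _ _ _)
      (by split_ifs <;> norm_num)]
    refine Finset.sum_congr rfl fun G _ => ?_
    split_ifs
    · rw [hg n x fun i => hx i (mem_univ _), mul_one]
    · simp
  simp only [hmu]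
  simp only [fun n => lintegral_congr_ae (hae n)]
  have ws : ∀ n x, ∑ G : SimpleGraph (Fin n), w n x (om G) = 1 := fun n x =>
    ((om_bij n).sum_comp (w n x)).trans (w1 n x)
  refine tendsto_order.2 ⟨fun t ht => ?_, fun t ht => Eventually.of_forall fun n => ?_⟩
  swap
  · refine lt_of_le_of_lt ?_ ht
    calc _ ≤ ∫⁻ _, 1 ∂(mun n) := lintegral_mono fun x => ENNReal.ofReal_le_one.mpr
          ((Finset.sum_le_sum fun G _ => mul_le_of_le_one_right (w0 _ _ _)
            (by split_ifs <;> norm_num)).trans (ws n x).le)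
      _ = 1 := by simp
  have ht1 : t.toReal < 1 := by
    have := ENNReal.toReal_strict_mono ENNReal.one_ne_top ht
    simpa using this
  have ht0 : 0 ≤ t.toReal := ENNReal.toReal_nonneg
  set η := (1 - t.toReal) / 5 with hη
  have hη0 : 0 < η := by linarith
  filter_upwards [hlo η hη0, hup η hη0] with n ⟨N1, p1, q1⟩ ⟨N2, p2, q2⟩
  let N := toMeasurable (mun n) (N1 ∪ N2)
  have hN : MeasurableSet N := measurableSet_toMeasurable _ _
  have hN2 : (mun n).real N ≤ 2 * η := by
    have : (mun n).real N = (mun n).real (N1 ∪ N2) := by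
      simp only [N, Measure.real, measure_toMeasurable]
    linarith [measureReal_union_le (μ := mun n) N1 N2]
  calc t < ENNReal.ofReal ((1 - 2 * η) * (1 - 2 * η)) :=
        (ENNReal.lt_ofReal_iff_toReal_lt ht.ne_top).mpr (by nlinarith)
    _ ≤ ENNReal.ofReal (1 - 2 * η) * mun n Nᶜ := by
        rw [ENNReal.ofReal_mul (by linarith), ← ofReal_measureReal (s := Nᶜ),
          probReal_compl_eq_one_sub hN]
        gcongr
    _ = ∫⁻ x, Nᶜ.indicator (fun _ => ENNReal.ofReal (1 - 2 * η)) x ∂(mun n) :=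
        (lintegral_indicator_const hN.compl _).symm
    _ ≤ _ := by
        refine lintegral_mono fun x => ?_
        by_cases hx : x ∈ Nᶜ
        swap
        · rw [indicator_of_notMem hx]; exact zero_le
        rw [indicator_of_mem hx]
        refine ENNReal.ofReal_le_ofReal ?_
        have r1 := q1 x fun h => hx (subset_toMeasurable _ _ (Or.inl h))
        have r2 := q2 x fun h => hx (subset_toMeasurable _ _ (Or.inr h))
        rw [← (om_bij n).sum_comp] at r1 r2
        have r3 := add_le_add r1 r2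
        rw [← Finset.sum_add_distrib] at r3
        rw [sub_le_iff_le_add, two_mul]
        refine (ws n x).ge.trans (le_trans ?_ (add_le_add le_rfl r3))
        rw [← Finset.sum_add_distrib]
        refine Finset.sum_le_sum fun G _ => ?_
        rw [← mul_add, ← mul_add]
        refine le_mul_of_one_le_right (w0 _ _ _) ?_
        by_cases s1 : ∀ k : ℕ, Cov (om G) Finset.univ k → a n ≤ k
        · by_cases s2 : ∃ k : ℕ, Cov (om G) Finset.univ k ∧ (k : ℝ) ≤ b n
          · rw [if_pos s1, if_pos s2, if_pos]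
            · norm_num
            obtain ⟨k, s3, s4⟩ := s2
            refine ⟨s1 _ ((cov_iff G _).mpr G.colorable_chromaticNumber_of_fintype),
              le_trans ?_ s4⟩
            exact_mod_cast ENat.toNat_le_of_le_natCast ((cov_iff G _).mp s3).chromaticNumber_le
          · rw [if_neg s2]
            split_ifs <;> norm_num
        · rw [if_neg s1]
          split_ifs <;> norm_num

end Pool.Agent.H.MP_eaf82e_pr
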